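import Pool.Agent.H56N.Defs

/-!
# The algorithm runs in polynomial time
-/

set_option autoImplicit false

namespace Pool.Agent.NPC.H56N


namespace P

variable {α β γ σ : Type} [TEnc α] [TEnc β] [TEnc γ] [TEnc σ]

/-! ### Polynomially bounded quantities -/

/-- The quantity `f` is bounded by a polynomial in the input size. -/
def PB (f : α → ℕ) : Prop := ∃ q : Polynomial ℕ, ∀ a, f a ≤ q.eval (sz a)

theorem PB.mono {f g : α → ℕ} (hg : PB g) (h : ∀ a, f a ≤ g a) : PB f := by
  obtain ⟨q, hq⟩ := hg
  exact ⟨q, fun a => (h a).trans (hq a)⟩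

theorem PB.const (c : ℕ) : PB (fun _ : α => c) := ⟨Polynomial.C c, fun a => by simp⟩

theorem PB.add {f g : α → ℕ} (hf : PB f) (hg : PB g) : PB (fun a => f a + g a) := by
  obtain ⟨q, hq⟩ := hf
  obtain ⟨r, hr⟩ := hg
  refine ⟨q + r, fun a => ?_⟩
  rw [Polynomial.eval_add]
  exact Nat.add_le_add (hq a) (hr a)

theorem PB.mul {f g : α → ℕ} (hf : PB f) (hg : PB g) : PB (fun a => f a * g a) := by
  obtain ⟨q, hq⟩ := hf
  obtain ⟨r, hr⟩ := hg
  refine ⟨q * r, fun a => ?_⟩
  rw [Polynomial.eval_mul]
  exact Nat.mul_le_mul (hq a) (hr a)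

theorem PB.sz {f : α → β} (hf : Poly f) : PB (fun a => sz (f a)) := hf.sz_le

theorem PB.of_upoly {n : α → ℕ} (hn : UPoly n) : PB n := by
  obtain ⟨q, hq⟩ := Poly.sz_le hn
  refine ⟨q, fun a => le_trans ?_ (hq a)⟩
  have := length_lt_sz (List.replicate (n a) ())
  simp at this
  omega

theorem foldl' {l : α → List β} {s : α → σ} {F : α → σ → β → σ} (hl : Poly l) (hs : Poly s)
    (hF : Poly (fun p : α × σ × β => F p.1 p.2.1 p.2.2)) (B : α → ℕ) (hB : PB B)
    (hq : ∀ a, ∀ k ≤ (l a).length, sz (((l a).take k).foldl (F a) (s a)) ≤ B a) :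
    Poly (fun a => (l a).foldl (F a) (s a)) := by
  obtain ⟨q, hq'⟩ := hB
  exact Poly.foldl hl hs hF q fun a k hk => (hq a k hk).trans (hq' a)

theorem foldr' {l : α → List β} {s : α → σ} {F : α → β → σ → σ} (hl : Poly l) (hs : Poly s)
    (hF : Poly (fun p : α × β × σ => F p.1 p.2.1 p.2.2)) (B : α → ℕ) (hB : PB B)
    (hq : ∀ a, ∀ k ≤ (l a).length, sz (((l a).drop k).foldr (F a) (s a)) ≤ B a) :
    Poly (fun a => (l a).foldr (F a) (s a)) := by
  obtain ⟨q, hq'⟩ := hB
  exact Poly.foldr hl hs hF q fun a k hk => (hq a k hk).trans (hq' a)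

/-- Iterate a function, the number of iterations being given in unary. -/
theorem iter' {n : α → ℕ} {s : α → σ} {F : α → σ → σ} (hn : UPoly n) (hs : Poly s)
    (hF : Poly (fun p : α × σ => F p.1 p.2)) (B : α → ℕ) (hB : PB B)
    (hq : ∀ a, ∀ k ≤ n a, sz ((F a)^[k] (s a)) ≤ B a) :
    Poly (fun a => (F a)^[n a] (s a)) := by
  obtain ⟨q, hq'⟩ := hB
  refine (Poly.iterLen (F := F) hn hs hF q fun a k hk => ?_).congr fun a => ?_
  · rw [List.length_replicate] at hk
    exact (hq a k hk).trans (hq' a)
  · rw [List.length_replicate]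

/-! ### Small functions -/

theorem optGetD {o : α → Option β} {d : α → β} (ho : Poly o) (hd : Poly d) :
    Poly (fun a => (o a).getD (d a)) :=
  (Poly.optCases ho hd (h := fun _ b => b) (Poly.snd Poly.id)).congr fun a => by
    cases o a <;> rfl

theorem isNone {o : α → Option β} (ho : Poly o) : Poly (fun a => (o a).isNone) :=
  (Poly.not (Poly.isSome ho)).congr fun a => by cases o a <;> rfl

theorem mem' [DecidableEq β] {f : α → β} {l : α → List β} {inst : ∀ a, Decidable (f a ∈ l a)}
    (hf : Poly f) (hl : Poly l) : Poly (fun a => @decide (f a ∈ l a) (inst a)) :=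
  (Poly.decide_mem hf hl).congr fun a => by congr

theorem filterM {l : α → List β} {p : α → β → Bool} (hl : Poly l)
    (hp : Poly (fun x : α × β => p x.1 x.2)) : Poly (fun a => (l a).filter fun b => p a b) :=
  Poly.filter hl hp

theorem mapM {l : α → List β} {F : α → β → γ} (hl : Poly l)
    (hF : Poly (fun p : α × β => F p.1 p.2)) : Poly (fun a => (l a).map fun b => F a b) :=
  Poly.map hl hF

theorem flatMapM {l : α → List β} {F : α → β → List γ} (hl : Poly l)
    (hF : Poly (fun p : α × β => F p.1 p.2)) : Poly (fun a => (l a).flatMap fun b => F a b) :=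
  Poly.flatMap hl hF

theorem take {l : α → List β} {n : α → ℕ} (hl : Poly l) (hn : Poly n) :
    Poly (fun a => (l a).take (n a)) := by
  have h1 : Poly (fun a => ((l a).zipIdx.filter (fun p => decide (p.2 < n a))).map
      (fun p => p.1)) :=
    Poly.map (F := fun _ (p : β × ℕ) => p.1)
      (Poly.filter (p := fun a (p : β × ℕ) => decide (p.2 < n a)) (Poly.zipIdx hl)
        (Poly.decide_lt (Poly.snd (Poly.snd Poly.id)) (hn.comp (Poly.fst Poly.id))))
      (Poly.fst (Poly.snd Poly.id))
  refine h1.congr fun a => ?_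
  have key : ∀ (l : List β) (n k : ℕ), ((l.zipIdx k).filter
      (fun p => decide (p.2 < n + k))).map (fun p => p.1) = l.take n := by
    intro l
    induction l with
    | nil => intro n k; simp
    | cons b l ih =>
      intro n k
      cases n with
      | zero =>
        have : ∀ p ∈ (b :: l).zipIdx k, ¬ (p.2 < 0 + k) := by
          intro p hp
          have := List.le_snd_of_mem_zipIdx hp
          omega
        rw [List.filter_eq_nil_iff.2 (fun p hp => by simpa using this p hp)]
        simp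
      | succ n =>
        have := ih n (k + 1)
        rw [List.zipIdx_cons, List.filter_cons]
        have hlt : k < n + 1 + k := by omega
        simp only [hlt, decide_true, if_true, List.map_cons, List.take_succ_cons]
        rw [← this]
        congr 3
        funext p
        simp only [decide_eq_decide]
        omega
  have := key (l a) (n a) 0
  simp only [add_zero] at this
  exact this

theorem size {n : α → ℕ} (hn : Poly n) : Poly (fun a => (n a).size) :=
  (Poly.length (Poly.natBits hn)).congr fun a => Nat.size_eq_bits_len (n a) |>.symm ▸ rfl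

/-! ### The functions of the algorithm -/

theorem adj {M : α → Mat} {a b : α → ℕ} (hM : Poly M) (ha : Poly a) (hb : Poly b) :
    Poly (fun x => adj (M x) (a x) (b x)) :=
  Poly.getD (Poly.getD hM ha (Poly.const [])) hb (Poly.const false)

theorem usize {n : α → ℕ} (hn : UPoly n) : UPoly (fun a => (n a).size) :=
  UPoly.of_le (size hn.toPoly) hn fun a => Poly.size_le_self (n a)

theorem Lp {n : α → ℕ} (hn : UPoly n) : UPoly (fun a => Lp (n a)) :=
  (usize hn).add (UPoly.const 2)

theorem bl {n : α → ℕ} (hn : UPoly n) : UPoly (fun a => bl (n a)) :=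
  usize ((UPoly.const 4).mul (Lp hn))

theorem bk {n : α → ℕ} (hn : UPoly n) : UPoly (fun a => bk (n a)) :=
  ((UPoly.const 2).mul hn).add (UPoly.const 8)

theorem upow {n : α → ℕ} (hn : UPoly n) : ∀ k : ℕ, UPoly (fun a => n a ^ k)
  | 0 => (UPoly.const 1).congr fun a => by simp
  | k + 1 => ((upow hn k).mul hn).congr fun a => by simp only [pow_succ]

theorem cap {n : α → ℕ} (hn : UPoly n) : UPoly (fun a => cap (n a)) :=
  upow ((UPoly.const 8).mul (hn.add (UPoly.const 1))) 11

theorem Tp {n : α → ℕ} (hn : UPoly n) : UPoly (fun a => Tp (n a)) := (UPoly.const 8).mul hn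

theorem Rp {n : α → ℕ} (hn : UPoly n) : UPoly (fun a => Rp (n a)) :=
  (((UPoly.const 64).mul (hn.add (UPoly.const 1))).mul (hn.add (UPoly.const 1))).mul
    (((UPoly.const 2).mul hn).add (UPoly.const 1))

theorem foldr_max_le : ∀ (l : List ℕ) (B : ℕ), (∀ x ∈ l, x ≤ B) → l.foldr max 0 ≤ B
  | [], B, _ => by simp
  | x :: l, B, h => by
    simp only [List.foldr_cons, max_le_iff]
    exact ⟨h x (by simp), foldr_max_le l B fun y hy => h y (List.mem_cons_of_mem _ hy)⟩

theorem sz_nat_le' (n : ℕ) : sz n ≤ 4 * n + 1 :=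
  (sz_nat_le n).trans (by have := Poly.size_le_self n; omega)

theorem rowLen {M : Mat} {w : List Bool} (h : w ∈ M) :
    (w.filter fun b => b).length ≤ M.flatten.length := by
  have h3 := List.length_filter_le (fun b => b) w
  have h4 : w.length ≤ M.flatten.length := by
    rw [List.length_flatten]
    exact List.le_sum_of_mem (List.mem_map_of_mem h)
  omega

theorem dm_le (M : Mat) : dm M ≤ M.flatten.length := by
  refine foldr_max_le _ _ fun x hx => ?_
  rw [List.mem_map] at hx
  obtain ⟨w, hw, rfl⟩ := hx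
  exact rowLen hw

theorem dm {M : α → Mat} (hM : Poly M) : UPoly (fun a => dm (M a)) := by
  have h1 : Poly (fun a => ((M a).map fun w => (w.filter fun b => b).length)) :=
    mapM hM (Poly.length (filterM (p := fun _ b => b) (Poly.snd Poly.id) (Poly.snd Poly.id)))
  have hu : UPoly (fun a => (M a).flatten.length) := UPoly.length (Poly.flatten hM)
  have h2 : Poly (fun a => H56N.dm (M a)) := by
    refine foldr' (F := fun _ x y => max x y) h1 (Poly.const 0)
      (Poly.max (Poly.fst (Poly.snd Poly.id)) (Poly.snd (Poly.snd Poly.id)))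
      (fun a => 4 * (M a).flatten.length + 1) (((PB.const 4).mul (PB.of_upoly hu)).add (PB.const 1)) ?_
    intro a k hk
    refine (sz_nat_le' _).trans ?_
    have : ((List.map (fun w => (w.filter fun b => b).length) (M a)).drop k).foldr
        (fun x y => max x y) 0 ≤ (M a).flatten.length := by
      refine foldr_max_le _ _ fun x hx => ?_
      have := List.mem_of_mem_drop hx
      rw [List.mem_map] at this
      obtain ⟨w, hw, rfl⟩ := this
      exact rowLen hw
    omega
  exact UPoly.of_le h2 hu fun a => dm_le _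

theorem bc {d : α → ℕ} (hd : UPoly d) : UPoly (fun a => bc (d a)) :=
  usize ((UPoly.const 64).mul (hd.mul hd))

theorem getC {s : α → List (Option ℕ)} {a : α → ℕ} (hs : Poly s) (ha : Poly a) :
    Poly (fun x => getC (s x) (a x)) := Poly.getD hs ha (Poly.const none)

theorem lab {h : α → List ℕ} {a : α → ℕ} (hh : Poly h) (ha : Poly a) :
    Poly (fun x => lab (h x) (a x)) := Poly.getD hh ha (Poly.const 0)

theorem labs {h : α → List ℕ} {e : α → Ent} (hh : Poly h) (he : Poly e) :
    Poly (fun x => labs (h x) (e x)) := by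
  have hh' : Poly (fun p : α × (ℕ × ℕ) => h p.1) := hh.comp (Poly.fst Poly.id)
  exact flatMapM he (Poly.cons (lab hh' (Poly.fst (Poly.snd Poly.id)))
    (Poly.cons (lab hh' (Poly.snd (Poly.snd Poly.id))) (Poly.const [])))

theorem lastP {e : α → Ent} (he : Poly e) : Poly (fun x => lastP (e x)) :=
  optGetD (Poly.head? (Poly.reverse he)) (Poly.const (0, 0))

theorem joined {M : α → Mat} {e : α → Ent} {p : α → ℕ × ℕ} (hM : Poly M) (he : Poly e)
    (hp : Poly p) : Poly (fun x => joined (M x) (e x) (p x)) := by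
  have hM' : Poly (fun y : α × (ℕ × ℕ) => M y.1) := hM.comp (Poly.fst Poly.id)
  have hp' : Poly (fun y : α × (ℕ × ℕ) => p y.1) := hp.comp (Poly.fst Poly.id)
  refine (Poly.optCases (h := fun x q => H56N.adj (M x) q.1 (p x).1 && H56N.adj (M x) q.2 (p x).2)
    (Poly.head? he) (Poly.const true) (Poly.and
    (adj hM' (Poly.fst (Poly.snd Poly.id)) (Poly.fst hp'))
    (adj hM' (Poly.snd (Poly.snd Poly.id)) (Poly.snd hp')))).congr fun x => ?_
  unfold H56N.joined
  cases (e x).head? <;> rfl

theorem ok {M : α → Mat} {s : α → List (Option ℕ)} {h : α → List ℕ} {e : α → Ent} {p : α → ℕ × ℕ}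
    (hM : Poly M) (hs : Poly s) (hh : Poly h) (he : Poly e) (hp : Poly p) :
    Poly (fun x => ok (M x) (s x) (h x) (e x) (p x)) := by
  refine Poly.and (Poly.and (Poly.and (Poly.and (Poly.and ?_ ?_) ?_) ?_) ?_) ?_
  · exact Poly.isSome (getC hs (Poly.fst hp))
  · exact Poly.decide_eq (getC hs (Poly.fst hp)) (getC hs (Poly.snd hp))
  · exact Poly.not (Poly.decide_eq (lab hh (Poly.fst hp)) (lab hh (Poly.snd hp)))
  · exact Poly.not (Poly.decide_mem (lab hh (Poly.fst hp)) (labs hh he))
  · exact Poly.not (Poly.decide_mem (lab hh (Poly.snd hp)) (labs hh he))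
  · exact joined hM he hp

theorem pairs {n : α → ℕ} (hn : UPoly n) : Poly (fun x => pairs (n x)) := by
  have h1 : Poly (fun p : α × ℕ => List.range (n p.1)) := (hn.comp (Poly.fst Poly.id)).range
  exact flatMapM hn.range (mapM h1 (Poly.pair (Poly.snd (Poly.fst Poly.id)) (Poly.snd Poly.id)))

theorem key {n : α → ℕ} {h : α → List ℕ} {e : α → Ent} (hn : UPoly n) (hh : Poly h)
    (he : Poly e) : Poly (fun x => key (n x) (h x) (e x)) := by
  refine Poly.pair (Poly.pair (optGetD (Poly.head? he) (Poly.const (0, 0))) (Poly.snd (lastP he))) ?_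
  refine mapM ((UPoly.const 8).mul (Lp hn)).range ?_
  exact Poly.decide_mem (Poly.snd Poly.id) (labs (hh.comp (Poly.fst Poly.id))
    (he.comp (Poly.fst Poly.id)))

end P

theorem sz_ded_le (n : ℕ) (h : List ℕ) : ∀ l : List Ent, sz (ded n h l) ≤ sz l
  | [] => le_rfl
  | e :: l => by
    have h1 := sz_ded_le n h l
    have h2 : ded n h (e :: l) = bif decide (key n h e ∈ (ded n h l).map (key n h)) then
      ded n h l else e :: ded n h l := rfl
    rw [h2]
    by_cases hb : key n h e ∈ (ded n h l).map (key n h)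
    · simp only [hb, decide_true, cond_true, sz_list_cons]
      omega
    · simp only [hb, decide_false, cond_false, sz_list_cons]
      omega

namespace P

variable {α β γ σ : Type} [TEnc α] [TEnc β] [TEnc γ] [TEnc σ]

theorem ded {n : α → ℕ} {h : α → List ℕ} {l : α → List Ent} (hn : UPoly n) (hh : Poly h)
    (hl : Poly l) : Poly (fun x => ded (n x) (h x) (l x)) := by
  refine foldr' (s := fun _ => ([] : List Ent)) (F := fun x e acc =>
    bif decide (H56N.key (n x) (h x) e ∈ acc.map
    (H56N.key (n x) (h x))) then acc else e :: acc) hl (Poly.const []) ?_ (fun x => sz (l x))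
    (PB.sz hl) fun x k _ => (sz_ded_le _ _ _).trans (Poly.sz_drop_le _ _)
  have hn' : UPoly (fun p : α × Ent × List Ent => n p.1) := hn.comp (Poly.fst Poly.id)
  have hh' : Poly (fun p : α × Ent × List Ent => h p.1) := hh.comp (Poly.fst Poly.id)
  refine Poly.cond (mem' (key hn' hh' (Poly.fst (Poly.snd Poly.id))) ?_)
    (Poly.snd (Poly.snd Poly.id)) (Poly.cons (Poly.fst (Poly.snd Poly.id))
      (Poly.snd (Poly.snd Poly.id)))
  exact mapM (Poly.snd (Poly.snd Poly.id)) (key (hn'.comp (Poly.fst Poly.id))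
    (hh'.comp (Poly.fst Poly.id)) (Poly.snd Poly.id))

theorem cands {M : α → Mat} {s : α → List (Option ℕ)} {h : α → List ℕ} {E : α → List Ent}
    (hM : Poly M) (hs : Poly s) (hh : Poly h) (hE : Poly E) :
    Poly (fun x => cands (M x) (s x) (h x) (E x)) := by
  have hM' : Poly (fun p : α × Ent => M p.1) := hM.comp (Poly.fst Poly.id)
  have hs' : Poly (fun p : α × Ent => s p.1) := hs.comp (Poly.fst Poly.id)
  have hh' : Poly (fun p : α × Ent => h p.1) := hh.comp (Poly.fst Poly.id)
  refine flatMapM hE (mapM (filterM (pairs (UPoly.length hM')) ?_)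
    (Poly.cons (Poly.snd Poly.id) (Poly.snd (Poly.fst Poly.id))))
  exact ok (hM'.comp (Poly.fst Poly.id)) (hs'.comp (Poly.fst Poly.id))
    (hh'.comp (Poly.fst Poly.id)) (Poly.snd (Poly.fst Poly.id)) (Poly.snd Poly.id)

theorem ext {M : α → Mat} {s : α → List (Option ℕ)} {h : α → List ℕ} {E : α → List Ent}
    (hM : Poly M) (hs : Poly s) (hh : Poly h) (hE : Poly E) :
    Poly (fun x => ext (M x) (s x) (h x) (E x)) :=
  take (ded (UPoly.length hM) hh (cands hM hs hh hE)) (cap (UPoly.length hM)).toPoly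

theorem extA {M : α → Mat} {s : α → List (Option ℕ)} {h : α → List ℕ}
    {E : α → List Ent × List Ent} (hM : Poly M) (hs : Poly s) (hh : Poly h) (hE : Poly E) :
    Poly (fun x => extA (M x) (s x) (h x) (E x)) :=
  Poly.pair (ext hM hs hh (Poly.fst hE))
    (Poly.append (ext hM hs hh (Poly.fst hE)) (Poly.snd hE))

end P


/-! ### Bounds for the search -/

/-- All vertices are smaller than `n` and there are at most `k` pairs. -/
def Small (n k : ℕ) (e : Ent) : Prop := e.length ≤ k ∧ ∀ p ∈ e, p.1 < n ∧ p.2 < n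

theorem mem_ded {n : ℕ} {h : List ℕ} : ∀ {l : List Ent} {e : Ent}, e ∈ ded n h l → e ∈ l
  | [], e, he => he
  | a :: l, e, he => by
    have h2 : ded n h (a :: l) = bif decide (key n h a ∈ (ded n h l).map (key n h)) then
      ded n h l else a :: ded n h l := rfl
    rw [h2] at he
    by_cases hb : key n h a ∈ (ded n h l).map (key n h)
    · simp only [hb, decide_true, cond_true] at he
      exact List.mem_cons_of_mem _ (mem_ded he)
    · simp only [hb, decide_false, cond_false, List.mem_cons] at he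
      rcases he with he | he
      · rw [he]
        exact List.mem_cons_self
      · exact List.mem_cons_of_mem _ (mem_ded he)

theorem mem_pairs {n : ℕ} {p : ℕ × ℕ} : p ∈ pairs n ↔ p.1 < n ∧ p.2 < n := by
  unfold pairs
  simp only [List.mem_flatMap, List.mem_range, List.mem_map]
  constructor
  · rintro ⟨a, ha, b, hb, rfl⟩
    exact ⟨ha, hb⟩
  · rintro ⟨h1, h2⟩
    exact ⟨p.1, h1, p.2, h2, rfl⟩

theorem mem_cands {M : Mat} {s : List (Option ℕ)} {h : List ℕ} {E : List Ent} {e : Ent} :
    e ∈ cands M s h E ↔ ∃ e₀ ∈ E, ∃ p, (p.1 < M.length ∧ p.2 < M.length) ∧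
      ok M s h e₀ p = true ∧ p :: e₀ = e := by
  unfold cands
  simp only [List.mem_flatMap, List.mem_map, List.mem_filter, mem_pairs]
  constructor
  · rintro ⟨e₀, h1, p, ⟨h2, h3⟩, h4⟩
    exact ⟨e₀, h1, p, h2, h3, h4⟩
  · rintro ⟨e₀, h1, p, h2, h3, h4⟩
    exact ⟨e₀, h1, p, ⟨h2, h3⟩, h4⟩

theorem sz_of_small {n k : ℕ} {e : Ent} (he : Small n k e) : sz e ≤ k * (8 * n + 4) + 1 := by
  have h1 := sz_le_length_mul e (8 * n + 3) (by
    rintro ⟨a, b⟩ hp
    obtain ⟨h1, h2⟩ := he.2 _ hp
    have h3 := P.sz_nat_le' a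
    have h4 := P.sz_nat_le' b
    simp only [sz_pair]
    simp only at h1 h2
    omega)
  have h2 : e.length * (8 * n + 3 + 1) ≤ k * (8 * n + 3 + 1) := Nat.mul_le_mul_right _ he.1
  have h3 : 8 * n + 3 + 1 = 8 * n + 4 := by omega
  rw [h3] at h1 h2
  omega

theorem sz_lists {n k c : ℕ} {l : List Ent} (hl : ∀ e ∈ l, Small n k e) (hc : l.length ≤ c) :
    sz l ≤ c * (k * (8 * n + 4) + 2) + 1 := by
  have h1 := sz_le_length_mul l (k * (8 * n + 4) + 1) fun e he => sz_of_small (hl e he)
  have h2 : l.length * (k * (8 * n + 4) + 1 + 1) ≤ c * (k * (8 * n + 4) + 1 + 1) :=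
    Nat.mul_le_mul_right _ hc
  have h3 : k * (8 * n + 4) + 1 + 1 = k * (8 * n + 4) + 2 := by omega
  rw [h3] at h1 h2
  omega

theorem small_ext {M : Mat} {s : List (Option ℕ)} {h : List ℕ} {E : List Ent} {k : ℕ}
    (hE : ∀ e ∈ E, Small M.length k e) : ∀ e ∈ ext M s h E, Small M.length (k + 1) e := by
  intro e he
  have h1 := mem_ded (List.mem_of_mem_take he)
  rw [mem_cands] at h1
  obtain ⟨e₀, h2, p, h3, -, rfl⟩ := h1
  obtain ⟨h4, h5⟩ := hE e₀ h2
  refine ⟨by simpa using h4, fun q hq => ?_⟩
  rcases List.mem_cons.1 hq with rfl | hq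
  · exact h3
  · exact h5 q hq

theorem length_ext (M : Mat) (s : List (Option ℕ)) (h : List ℕ) (E : List Ent) :
    (ext M s h E).length ≤ cap M.length := by
  unfold ext
  rw [List.length_take]
  exact min_le_left _ _

theorem cap_pos (n : ℕ) : 1 ≤ cap n := Nat.one_le_pow _ _ (by omega)

theorem iter_bound (M : Mat) (s : List (Option ℕ)) (h : List ℕ) : ∀ k : ℕ,
    (∀ e ∈ ((extA M s h)^[k] ([[]], [])).1, Small M.length k e) ∧
    ((extA M s h)^[k] ([[]], [])).1.length ≤ cap M.length ∧
    sz ((extA M s h)^[k] ([[]], [])).2 ≤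
      k * (cap M.length * (k * (8 * M.length + 4) + 2) + 1) + 1
  | 0 => by
    refine ⟨?_, ?_, ?_⟩
    · intro e he
      simp at he
      subst he
      exact ⟨by simp, by simp⟩
    · simpa using cap_pos _
    · simp
  | k + 1 => by
    obtain ⟨h1, h2, h3⟩ := iter_bound M s h k
    rw [Function.iterate_succ_apply']
    set x := (extA M s h)^[k] ([[]], []) with hx
    have e1 := small_ext (s := s) (h := h) h1
    have e2 := length_ext M s h x.1
    refine ⟨e1, e2, ?_⟩
    have e3 := sz_lists e1 e2
    have e4 := sz_append (ext M s h x.1) x.2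
    change sz (ext M s h x.1 ++ x.2) ≤ _
    have e5 : k * (cap M.length * (k * (8 * M.length + 4) + 2) + 1) ≤
        k * (cap M.length * ((k + 1) * (8 * M.length + 4) + 2) + 1) := by gcongr; omega
    have e6 : (k + 1) * (cap M.length * ((k + 1) * (8 * M.length + 4) + 2) + 1) =
        k * (cap M.length * ((k + 1) * (8 * M.length + 4) + 2) + 1) +
        (cap M.length * ((k + 1) * (8 * M.length + 4) + 2) + 1) := by ring
    omega

namespace P

variable {α β γ σ : Type} [TEnc α] [TEnc β] [TEnc γ] [TEnc σ]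

theorem levels {M : α → Mat} {s : α → List (Option ℕ)} {h : α → List ℕ}
    (hM : Poly M) (hs : Poly s) (hh : Poly h) : Poly (fun x => levels (M x) (s x) (h x)) := by
  have hn : UPoly (fun x => (M x).length) := UPoly.length hM
  have hL := Lp hn
  have hc := cap hn
  refine Poly.snd (iter' (F := fun x => H56N.extA (M x) (s x) (h x)) hL (Poly.const ([[]], []))
    (extA (hM.comp (Poly.fst Poly.id)) (hs.comp (Poly.fst Poly.id)) (hh.comp (Poly.fst Poly.id))
      (Poly.snd Poly.id))
    (fun x => (H56N.cap (M x).length * (H56N.Lp (M x).length * (8 * (M x).length + 4) + 2) + 1) +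
      (H56N.Lp (M x).length * (H56N.cap (M x).length *
        (H56N.Lp (M x).length * (8 * (M x).length + 4) + 2) + 1) + 1) + 1) ?_ ?_)
  · have b1 : PB (fun x => H56N.cap (M x).length * (H56N.Lp (M x).length * (8 * (M x).length + 4) + 2)
        + 1) :=
      ((PB.of_upoly hc).mul (((PB.of_upoly hL).mul (((PB.const 8).mul (PB.of_upoly hn)).add
        (PB.const 4))).add (PB.const 2))).add (PB.const 1)
    exact (b1.add (((PB.of_upoly hL).mul b1).add (PB.const 1))).add (PB.const 1)
  · intro x k hk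
    obtain ⟨h1, h2, h3⟩ := iter_bound (M x) (s x) (h x) k
    have h4 := sz_lists h1 h2
    set y := (H56N.extA (M x) (s x) (h x))^[k] ([[]], []) with hy
    have h5 : sz y = sz y.1 + sz y.2 + 1 := sz_pair y.1 y.2
    rw [h5]
    have h6 : H56N.cap (M x).length * (k * (8 * (M x).length + 4) + 2) + 1 ≤
        H56N.cap (M x).length * (H56N.Lp (M x).length * (8 * (M x).length + 4) + 2) + 1 := by gcongr
    have h7 : k * (H56N.cap (M x).length * (k * (8 * (M x).length + 4) + 2) + 1) ≤
        H56N.Lp (M x).length * (H56N.cap (M x).length *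
        (H56N.Lp (M x).length * (8 * (M x).length + 4) + 2) + 1) := by gcongr
    omega

theorem viol {M : α → Mat} {e : α → Ent} (hM : Poly M) (he : Poly e) :
    Poly (fun x => viol (M x) (e x)) := by
  have hM' : Poly (fun y : α × (ℕ × ℕ) => M y.1) := hM.comp (Poly.fst Poly.id)
  have he' : Poly (fun y : α × (ℕ × ℕ) => e y.1) := he.comp (Poly.fst Poly.id)
  refine (Poly.optCases (h := fun x q => H56N.adj (M x) q.1 (H56N.lastP (e x)).2 ||
    decide ((e x).length = H56N.Lp (M x).length)) (Poly.head? he) (Poly.const false) (Poly.or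
    (adj hM' (Poly.fst (Poly.snd Poly.id)) (Poly.snd (lastP he')))
    (Poly.decide_eq (Poly.length he') (Lp (UPoly.length hM')).toPoly))).congr fun x => ?_
  unfold H56N.viol
  cases (e x).head? <;> rfl

theorem find {M : α → Mat} {H : α → List (List ℕ)} {s : α → List (Option ℕ)}
    (hM : Poly M) (hH : Poly H) (hs : Poly s) : Poly (fun x => find (M x) (H x) (s x)) := by
  have hM' : Poly (fun y : α × List ℕ => M y.1) := hM.comp (Poly.fst Poly.id)
  have hs' : Poly (fun y : α × List ℕ => s y.1) := hs.comp (Poly.fst Poly.id)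
  exact Poly.head? (flatMapM hH (filterM (levels hM' hs' (Poly.snd Poly.id))
    (viol (hM'.comp (Poly.fst Poly.id)) (Poly.snd Poly.id))))

theorem first {s : α → List (Option ℕ)} (hs : Poly s) : Poly (fun x => first (s x)) :=
  Poly.head? (filterM (Poly.range_length hs) (isNone (getC (hs.comp (Poly.fst Poly.id))
    (Poly.snd Poly.id))))

theorem setC {s : α → List (Option ℕ)} {v c : α → ℕ} (hs : Poly s) (hv : Poly v) (hc : Poly c) :
    Poly (fun x => setC (s x) (v x) (c x)) :=
  mapM (Poly.range_length hs) (Poly.cond (Poly.decide_eq (Poly.snd Poly.id)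
    (hv.comp (Poly.fst Poly.id))) (Poly.some (hc.comp (Poly.fst Poly.id)))
    (getC (hs.comp (Poly.fst Poly.id)) (Poly.snd Poly.id)))

theorem unset {s : α → List (Option ℕ)} {S : α → List ℕ} (hs : Poly s) (hS : Poly S) :
    Poly (fun x => unset (s x) (S x)) :=
  mapM (Poly.range_length hs) (Poly.cond (mem' (Poly.snd Poly.id)
    (hS.comp (Poly.fst Poly.id))) (Poly.const none)
    (getC (hs.comp (Poly.fst Poly.id)) (Poly.snd Poly.id)))

theorem sideL {e : α → Ent} {v : α → ℕ} (he : Poly e) (hv : Poly v) :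
    Poly (fun x => sideL (e x) (v x)) :=
  Poly.cond (mem' hv (mapM he (Poly.fst (Poly.snd Poly.id))))
    (mapM he (Poly.fst (Poly.snd Poly.id))) (mapM he (Poly.snd (Poly.snd Poly.id)))

theorem step {M : α → Mat} {H : α → List (List ℕ)} {s : α → List (Option ℕ)} {c : α → ℕ}
    (hM : Poly M) (hH : Poly H) (hs : Poly s) (hc : Poly c) :
    Poly (fun x => step (M x) (H x) (s x) (c x)) := by
  have hM' : Poly (fun y : α × ℕ => M y.1) := hM.comp (Poly.fst Poly.id)
  have hH' : Poly (fun y : α × ℕ => H y.1) := hH.comp (Poly.fst Poly.id)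
  have hs' : Poly (fun y : α × ℕ => s y.1) := hs.comp (Poly.fst Poly.id)
  have hc' : Poly (fun y : α × ℕ => c y.1) := hc.comp (Poly.fst Poly.id)
  have h1 : Poly (fun y : α × ℕ => H56N.setC (s y.1) y.2 (c y.1)) :=
    setC hs' (Poly.snd Poly.id) hc'
  have h2 : Poly (fun y : α × ℕ => (H56N.find (M y.1) (H y.1) (H56N.setC (s y.1) y.2 (c y.1))).elim
      (H56N.setC (s y.1) y.2 (c y.1))
      (fun e => H56N.unset (H56N.setC (s y.1) y.2 (c y.1)) (H56N.sideL e y.2))) :=
    (Poly.optCases (h := fun (y : α × ℕ) e => H56N.unset (H56N.setC (s y.1) y.2 (c y.1))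
      (H56N.sideL e y.2)) (find hM' hH' h1) h1
      (unset (h1.comp (Poly.fst Poly.id)) (sideL (Poly.snd Poly.id)
        (Poly.snd (Poly.fst Poly.id))))).congr fun y => by
      cases H56N.find (M y.1) (H y.1) (H56N.setC (s y.1) y.2 (c y.1)) <;> rfl
  refine (Poly.optCases (h := fun x v => (H56N.find (M x) (H x) (H56N.setC (s x) v (c x))).elim
      (H56N.setC (s x) v (c x))
      (fun e => H56N.unset (H56N.setC (s x) v (c x)) (H56N.sideL e v))) (first hs) hs h2).congr
    fun x => ?_
  unfold H56N.step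
  cases H56N.first (s x) with
  | none => rfl
  | some v =>
    simp only
    cases H56N.find (M x) (H x) (H56N.setC (s x) v (c x)) <;> rfl

theorem num {r : α → List Bool} {B b i : α → ℕ} (hr : Poly r) (hB : Poly B) (hb : UPoly b)
    (hi : Poly i) : Poly (fun x => num (r x) (B x) (b x) (i x)) :=
  Poly.valBits (mapM hb.range (Poly.getD (hr.comp (Poly.fst Poly.id))
    (Poly.add (Poly.mul (hi.comp (Poly.fst Poly.id)) (hB.comp (Poly.fst Poly.id)))
      (Poly.snd Poly.id)) (Poly.const false)))

theorem cols {M : α → Mat} {r : α → List Bool} (hM : Poly M) (hr : Poly r) :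
    Poly (fun x => cols (M x) (r x)) := by
  have hM' : Poly (fun y : α × ℕ => M y.1) := hM.comp (Poly.fst Poly.id)
  exact mapM (Tp (UPoly.length hM)).range (num (hr.comp (Poly.fst Poly.id))
    (bk (UPoly.length hM')).toPoly (bc (dm hM')) (Poly.snd Poly.id))

theorem labels {M : α → Mat} {r : α → List Bool} (hM : Poly M) (hr : Poly r) :
    Poly (fun x => labels (M x) (r x)) := by
  have hM' : Poly (fun y : α × ℕ => M y.1) := hM.comp (Poly.fst Poly.id)
  have hM2 : Poly (fun y : (α × ℕ) × ℕ => M y.1.1) := hM'.comp (Poly.fst Poly.id)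
  refine mapM (Rp (UPoly.length hM)).range (mapM (UPoly.length hM').range ?_)
  exact num (hr.comp (Poly.fst (Poly.fst Poly.id))) (bk (UPoly.length hM2)).toPoly
    (bl (UPoly.length hM2)) (Poly.add (Tp (UPoly.length hM2)).toPoly
      (Poly.add (Poly.mul (Poly.snd (Poly.fst Poly.id)) (Poly.length hM2)) (Poly.snd Poly.id)))

end P

theorem length_setC (s : List (Option ℕ)) (v c : ℕ) : (setC s v c).length = s.length := by
  simp [setC]

theorem length_unset (s : List (Option ℕ)) (S : List ℕ) : (unset s S).length = s.length := by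
  simp [unset]

theorem length_step (M : Mat) (H : List (List ℕ)) (s : List (Option ℕ)) (c : ℕ) :
    (step M H s c).length = s.length := by
  unfold step
  split
  · rfl
  · split
    · exact length_setC _ _ _
    · rw [length_unset, length_setC]

/-- All colours have size at most `B`. -/
def Bnd (B : ℕ) (s : List (Option ℕ)) : Prop := ∀ o ∈ s, sz o ≤ B

theorem getC_mem {s : List (Option ℕ)} {i : ℕ} (h : i ∈ List.range s.length) : getC s i ∈ s := by
  rw [List.mem_range] at h
  unfold getC
  rw [List.getD_eq_getElem _ _ h]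
  exact List.getElem_mem h

theorem bnd_setC {B : ℕ} {s : List (Option ℕ)} {v c : ℕ} (hs : Bnd B s) (hc : sz (some c) ≤ B) :
    Bnd B (setC s v c) := by
  intro o ho
  unfold setC at ho
  rw [List.mem_map] at ho
  obtain ⟨p, hp, rfl⟩ := ho
  by_cases h : p = v
  · simpa [h] using hc
  · simpa [h] using hs _ (getC_mem hp)

theorem bnd_unset {B : ℕ} {s : List (Option ℕ)} {S : List ℕ} (hs : Bnd B s) (hB : 1 ≤ B) :
    Bnd B (unset s S) := by
  intro o ho
  unfold unset at ho
  rw [List.mem_map] at ho
  obtain ⟨p, hp, rfl⟩ := ho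
  by_cases h : p ∈ S
  · simpa [h] using hB
  · simpa [h] using hs _ (getC_mem hp)

theorem bnd_step {B : ℕ} {M : Mat} {H : List (List ℕ)} {s : List (Option ℕ)} {c : ℕ}
    (hs : Bnd B s) (hB : 1 ≤ B) (hc : sz (some c) ≤ B) : Bnd B (step M H s c) := by
  unfold step
  split
  · exact hs
  · split
    · exact bnd_setC hs hc
    · exact bnd_unset (bnd_setC hs hc) hB

theorem bnd_foldl {B : ℕ} {M : Mat} {H : List (List ℕ)} (hB : 1 ≤ B) : ∀ (l : List ℕ)
    (s : List (Option ℕ)), (∀ c ∈ l, sz (some c) ≤ B) → Bnd B s →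
    Bnd B (l.foldl (step M H) s) ∧ (l.foldl (step M H) s).length = s.length
  | [], s, _, hs => ⟨hs, rfl⟩
  | c :: l, s, h, hs => by
    obtain ⟨h1, h2⟩ := bnd_foldl hB l (step M H s c) (fun c' hc' => h c' (by simp [hc']))
      (bnd_step hs hB (h c (by simp)))
    exact ⟨h1, h2.trans (length_step _ _ _ _)⟩

theorem sz_bnd {B : ℕ} {s : List (Option ℕ)} (hs : Bnd B s) : sz s ≤ s.length * (B + 1) + 1 :=
  sz_le_length_mul s B hs

namespace P

variable {α β γ σ : Type} [TEnc α] [TEnc β] [TEnc γ] [TEnc σ]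

theorem final {M : α → Mat} {r : α → List Bool} (hM : Poly M) (hr : Poly r) :
    Poly (fun x => final (M x) (r x)) := by
  have hc := cols hM hr
  have hH := labels hM hr
  have hs : Poly (fun x => start (M x)) := mapM hM (Poly.const none)
  refine foldl' (F := fun x s c => H56N.step (M x) (H56N.labels (M x) (r x)) s c) hc hs
    (step (hM.comp (Poly.fst Poly.id)) (hH.comp (Poly.fst Poly.id)) (Poly.fst (Poly.snd Poly.id))
      (Poly.snd (Poly.snd Poly.id)))
    (fun x => (M x).length * ((sz (H56N.cols (M x) (r x)) + 2) + 1) + 1)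
    (((PB.of_upoly (UPoly.length hM)).mul (((PB.sz hc).add (PB.const 2)).add (PB.const 1))).add
      (PB.const 1)) ?_
  intro x k _
  obtain ⟨h1, h2⟩ := bnd_foldl (M := M x) (H := H56N.labels (M x) (r x))
    (B := sz (H56N.cols (M x) (r x)) + 2) (by omega) ((H56N.cols (M x) (r x)).take k) (start (M x))
    (by
      intro c hc
      have := sz_le_of_mem (List.mem_of_mem_take hc)
      simp only [sz_some]
      omega)
    (by
      intro o ho
      unfold start at ho
      rw [List.mem_map] at ho
      obtain ⟨w, _, rfl⟩ := ho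
      simp)
  have h3 := sz_bnd h1
  rw [h2] at h3
  simpa [start] using h3

theorem alg : Poly alg :=
  mapM (final (Poly.fst Poly.id) (Poly.snd Poly.id)) (optGetD (Poly.snd Poly.id) (Poly.const 0))

end P

end Pool.Agent.NPC.H56N
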