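import Mathlib

/-!
# Counting chains
-/

set_option autoImplicit false

namespace Pool.Agent.NPC.H56N.Ch

open Finset

variable (nb : ℕ → Finset ℕ)

/-- The chains of length `m` which can follow `v`. -/
def fr : ℕ → ℕ → Finset (List ℕ)
  | 0, _ => {[]}
  | m + 1, v => (nb v).biUnion fun w => (fr m w).image (List.cons w)

/-- The chains of length `m` through `v`. -/
def thru (v m : ℕ) : Finset (List ℕ) :=
  (range m).biUnion fun i => ((fr nb i v) ×ˢ (fr nb (m - 1 - i) v)).image
    fun x => x.1.reverse ++ v :: x.2

/-- The chains of length `m ≥ 1` which start below `n`. -/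
def allc (n m : ℕ) : Finset (List ℕ) :=
  (range n).biUnion fun u => (fr nb (m - 1) u).image (List.cons u)

variable {nb} {d : ℕ} (hd : ∀ a, (nb a).card ≤ d)

include hd in
theorem card_fr (m : ℕ) : ∀ v, (fr nb m v).card ≤ d ^ m := by
  induction m with
  | zero => intro v; simp [fr]
  | succ m ih =>
    intro v
    unfold fr
    refine card_biUnion_le.trans ?_
    calc ∑ w ∈ nb v, ((fr nb m w).image (List.cons w)).card
        ≤ ∑ _w ∈ nb v, d ^ m := sum_le_sum fun w _ => card_image_le.trans (ih w)
      _ = (nb v).card * d ^ m := by rw [sum_const, smul_eq_mul]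
      _ ≤ d * d ^ m := Nat.mul_le_mul_right _ (hd v)
      _ = d ^ (m + 1) := by rw [pow_succ, mul_comm]

include hd in
theorem card_thru (v m : ℕ) : (thru nb v m).card ≤ m * d ^ (m - 1) := by
  unfold thru
  refine card_biUnion_le.trans ?_
  calc ∑ i ∈ range m, (((fr nb i v) ×ˢ (fr nb (m - 1 - i) v)).image
        fun x => x.1.reverse ++ v :: x.2).card
      ≤ ∑ _i ∈ range m, d ^ (m - 1) := by
        refine sum_le_sum fun i hi => card_image_le.trans ?_
        rw [card_product]
        rw [mem_range] at hi
        calc (fr nb i v).card * (fr nb (m - 1 - i) v).card ≤ d ^ i * d ^ (m - 1 - i) :=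
              Nat.mul_le_mul (card_fr hd _ _) (card_fr hd _ _)
          _ = d ^ (m - 1) := by
              rw [← pow_add]
              congr 1
              omega
    _ = m * d ^ (m - 1) := by rw [sum_const, card_range, smul_eq_mul]

include hd in
theorem card_allc (n m : ℕ) : (allc nb n m).card ≤ n * d ^ (m - 1) := by
  unfold allc
  refine card_biUnion_le.trans ?_
  calc ∑ u ∈ range n, ((fr nb (m - 1) u).image (List.cons u)).card
      ≤ ∑ _u ∈ range n, d ^ (m - 1) := sum_le_sum fun u _ => card_image_le.trans (card_fr hd _ _)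
    _ = n * d ^ (m - 1) := by rw [sum_const, card_range, smul_eq_mul]

variable {r : ℕ → ℕ → Prop} (hr : ∀ a b, r a b → b ∈ nb a)

include hr in
theorem mem_fr : ∀ (l : List ℕ) (v : ℕ), (v :: l).IsChain r → l ∈ fr nb l.length v
  | [], v, _ => by simp [fr]
  | w :: l, v, h => by
    rw [List.isChain_cons_cons] at h
    simp only [List.length_cons, fr, mem_biUnion, mem_image]
    exact ⟨w, hr _ _ h.1, l, mem_fr l w h.2, rfl⟩

include hr in
theorem mem_thru (hs : ∀ a b, r a b → r b a) {l : List ℕ} (hl : l.IsChain r) {v : ℕ}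
    (hv : v ∈ l) : l ∈ thru nb v l.length := by
  obtain ⟨l1, l2, rfl⟩ := List.append_of_mem hv
  unfold thru
  rw [mem_biUnion]
  refine ⟨l1.length, ?_, ?_⟩
  · simp
  · rw [mem_image]
    refine ⟨(l1.reverse, l2), ?_, by simp⟩
    rw [mem_product]
    rw [List.isChain_append] at hl
    obtain ⟨h1, h2, h3⟩ := hl
    refine ⟨?_, ?_⟩
    · have h4 : (v :: l1.reverse).IsChain r := by
        have h5 : (l1 ++ [v]).IsChain r := by
          rw [List.isChain_append]
          refine ⟨h1, by simp, ?_⟩
          intro x hx y hy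
          simp at hy
          subst hy
          exact h3 x hx _ (by simp)
        have h6 : (v :: l1.reverse) = (l1 ++ [v]).reverse := by simp
        rw [h6, List.isChain_reverse]
        exact h5.imp fun a b h => hs a b h
      have := mem_fr hr _ _ h4
      simpa using this
    · have := mem_fr hr _ _ h2
      have h4 : (l1 ++ v :: l2).length - 1 - l1.length = l2.length := by
        simp
      rw [h4]
      exact this

include hr in
theorem mem_allc {n : ℕ} {l : List ℕ} (hl : l.IsChain r) (hne : l ≠ []) (hn : ∀ x ∈ l, x < n) :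
    l ∈ allc nb n l.length := by
  obtain ⟨v, l', rfl⟩ := List.exists_cons_of_ne_nil hne
  unfold allc
  rw [mem_biUnion]
  refine ⟨v, by simpa using hn v (by simp), ?_⟩
  rw [mem_image]
  refine ⟨l', ?_, rfl⟩
  have := mem_fr hr _ _ hl
  simpa using this

end Pool.Agent.NPC.H56N.Ch
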