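import Mathlib

/-!
# Entropy compression

A random process colours in each step the first uncoloured vertex and then may uncolour a set of
vertices whose colours can be recovered. It is shown that the process is unlikely to go on for
long.
-/

set_option autoImplicit false

namespace Pool.Agent.NPC.H56N.Cmp

open Finset Function

variable {n k : ℕ} {E X : Type}

/-- Partial colourings. -/
abbrev St (n k : ℕ) : Type := Fin n → Option (Fin k)

/-- The uncoloured vertices. -/
def unc (φ : St n k) : Finset (Fin n) := univ.filter fun v => φ v = none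

theorem mem_unc {φ : St n k} {v : Fin n} : v ∈ unc φ ↔ φ v = none := by simp [unc]

/-- The empty colouring. -/
def init (n k : ℕ) : St n k := fun _ => none

/-- The new state, after colouring `v`. -/
def after (rc : St n k → Option E) (side : E → Fin n → Finset (Fin n)) (φ : St n k) (v : Fin n) :
    St n k :=
  match rc φ with
  | none => φ
  | some e => fun w => if w ∈ side e v then none else φ w

/-- One step of the process. -/
def stepA (rc : St n k → Option E) (side : E → Fin n → Finset (Fin n)) (φ : St n k) (c : Fin k) :
    St n k :=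
  if h : (unc φ).Nonempty then
    after rc side (update φ ((unc φ).min' h) (some c)) ((unc φ).min' h)
  else φ

/-- The state reached with the random choices `x`. -/
def run (rc : St n k → Option E) (side : E → Fin n → Finset (Fin n)) (γ : X → Fin k)
    (l : List X) : St n k :=
  l.foldl (fun φ a => stepA rc side φ (γ a)) (init n k)

/-- The assumptions on the process. -/
structure Hyp (rc : St n k → Option E) (side : E → Fin n → Finset (Fin n))
    (par : E → Fin n → Fin n → Fin n) (R : Fin n → Finset E) (Inv : St n k → Prop) : Prop where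
  init : Inv (init n k)
  step : ∀ φ c, Inv φ → Inv (stepA rc side φ c)
  rec_ : ∀ φ, Inv φ → ∀ v, φ v = none → ∀ c e, rc (update φ v (some c)) = some e →
    e ∈ R v ∧ v ∈ side e v ∧ ∀ w ∈ side e v, par e v w ∉ side e v ∧
      update φ v (some c) w = update φ v (some c) (par e v w) ∧ update φ v (some c) w ≠ none
  wt : ∀ v, ∑ e ∈ R v, ((2 : ℝ) / k) ^ (side e v).card ≤ 1 / 2

theorem card_unc_le [DecidableEq E] (U : Finset (Fin n)) :
    (univ.filter fun φ : St n k => unc φ = U).card ≤ k ^ (n - U.card) := by
  classical
  have h1 : (univ.filter fun φ : St n k => unc φ = U) ⊆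
      Fintype.piFinset (fun w => if w ∈ U then {none} else (univ : Finset (Fin k)).image some) := by
    intro φ hφ
    rw [mem_filter] at hφ
    rw [Fintype.mem_piFinset]
    intro w
    have h := hφ.2
    split_ifs with hw
    · rw [← h, mem_unc] at hw
      simp [hw]
    · rw [← h, mem_unc] at hw
      obtain ⟨c, hc⟩ := Option.ne_none_iff_exists'.1 hw
      simp [hc]
  refine (card_le_card h1).trans (le_of_eq ?_)
  rw [Fintype.card_piFinset]
  have h2 : ∀ w : Fin n, (if w ∈ U then ({none} : Finset (Option (Fin k)))
      else (univ : Finset (Fin k)).image some).card = if w ∈ U then 1 else k := by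
    intro w
    split_ifs
    · rfl
    · rw [card_image_of_injective _ (Option.some_injective _)]
      simp
  rw [prod_congr rfl fun w _ => h2 w, prod_ite, prod_const_one, one_mul, prod_const]
  congr 1
  have h3 : (univ.filter fun w => w ∉ U) = Uᶜ := by ext; simp
  rw [h3, card_compl, Fintype.card_fin]

section

variable {rc : St n k → Option E} {side : E → Fin n → Finset (Fin n)}
  {par : E → Fin n → Fin n → Fin n} {R : Fin n → Finset E} {Inv : St n k → Prop}

theorem stepA_of_finished {φ : St n k} (h : ¬ (unc φ).Nonempty) (c : Fin k) :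
    stepA rc side φ c = φ := dif_neg h

theorem inv_run (H : Hyp rc side par R Inv) (γ : X → Fin k) (l : List X) :
    Inv (run rc side γ l) := by
  induction l using List.reverseRecOn with
  | nil => exact H.init
  | append_singleton l a ih =>
    unfold run at ih ⊢
    rw [List.foldl_append]
    exact H.step _ _ ih

variable [DecidableEq E]

/-- The possible successors of a set of uncoloured vertices. -/
def nextSet (side : E → Fin n → Finset (Fin n)) (U : Finset (Fin n)) (v : Fin n) :
    Option E → Finset (Fin n)
  | none => U.erase v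
  | some e => U ∪ side e v

/-- The possible records. -/
def recs (side : E → Fin n → Finset (Fin n)) (R : Fin n → Finset E) (U : Finset (Fin n))
    (v : Fin n) : Finset (Option E) :=
  insert none (((R v).filter fun e => side e v ∩ U = {v}).image some)

theorem sum_recs (H : Hyp rc side par R Inv) (hk : 0 < k) (U : Finset (Fin n)) (v : Fin n)
    (hv : v ∈ U) :
    ∑ ρ ∈ recs side R U v, ((k : ℝ) / 2) ^ (n - (nextSet side U v ρ).card) ≤
      ((k : ℝ) / 2) ^ (n - U.card) * ((k : ℝ) / 2 * (3 / 2)) := by
  have hk' : (0 : ℝ) < k := by exact_mod_cast hk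
  unfold recs
  rw [sum_insert (by simp), sum_image (fun a _ b _ h => Option.some_injective _ h)]
  have hU : U.card ≤ n := by simpa using card_le_univ U
  have hU1 : 1 ≤ U.card := card_pos.2 ⟨v, hv⟩
  have e1 : ((k : ℝ) / 2) ^ (n - (nextSet side U v (none : Option E)).card) =
      ((k : ℝ) / 2) ^ (n - U.card) * ((k : ℝ) / 2) := by
    have : (nextSet side U v (none : Option E)).card = U.card - 1 := card_erase_of_mem hv
    rw [this, ← pow_succ]
    congr 1
    omega
  have e2 : ∀ e ∈ (R v).filter fun e => side e v ∩ U = {v},
      ((k : ℝ) / 2) ^ (n - (nextSet side U v (some e)).card) =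
      ((k : ℝ) / 2) ^ (n - U.card) * ((k : ℝ) / 2) * ((2 : ℝ) / k) ^ (side e v).card := by
    intro e he
    rw [mem_filter] at he
    have h1 : (U ∪ side e v).card + 1 = U.card + (side e v).card := by
      have := card_union_add_card_inter U (side e v)
      rw [inter_comm, he.2, card_singleton] at this
      exact this
    have h2 : (U ∪ side e v).card ≤ n := by simpa using card_le_univ (U ∪ side e v)
    have h3 : n - (U ∪ side e v).card + (side e v).card = n - U.card + 1 := by omega
    have h4 : ((k : ℝ) / 2) ^ (n - U.card) * ((k : ℝ) / 2) =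
        ((k : ℝ) / 2) ^ (n - (U ∪ side e v).card) * ((k : ℝ) / 2) ^ (side e v).card := by
      rw [← pow_succ, ← pow_add, h3]
    change ((k : ℝ) / 2) ^ (n - (U ∪ side e v).card) = _
    rw [h4, mul_assoc, ← mul_pow]
    have h5 : (k : ℝ) / 2 * (2 / k) = 1 := by field_simp
    rw [h5, one_pow, mul_one]
  rw [e1, sum_congr rfl e2, ← mul_sum]
  have e3 : ∑ e ∈ (R v).filter (fun e => side e v ∩ U = {v}), ((2 : ℝ) / k) ^ (side e v).card ≤
      1 / 2 :=
    (sum_le_sum_of_subset_of_nonneg (filter_subset _ _) fun _ _ _ => by positivity).trans (H.wt v)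
  have e4 : (0 : ℝ) ≤ ((k : ℝ) / 2) ^ (n - U.card) * ((k : ℝ) / 2) := by positivity
  nlinarith [mul_le_mul_of_nonneg_left e3 e4]

variable [Fintype X]

open Classical in
/-- The number of runs which end in `φ`. -/
noncomputable def cnt (rc : St n k → Option E) (side : E → Fin n → Finset (Fin n)) (γ : X → Fin k)
    (T : ℕ) (φ : St n k) : ℕ :=
  (univ.filter fun x : Fin T → X => run rc side γ (List.ofFn x) = φ).card

theorem run_succ {T : ℕ} (γ : X → Fin k) (x : Fin (T + 1) → X) :
    run rc side γ (List.ofFn x) =
      stepA rc side (run rc side γ (List.ofFn fun i => x i.castSucc)) (γ (x (Fin.last T))) := by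
  unfold run
  rw [List.ofFn_succ', List.concat_eq_append, List.foldl_append]
  rfl

open Classical in
/-- The pairs of a state and a random choice which lead to `φ'`. -/
noncomputable def preds (rc : St n k → Option E) (side : E → Fin n → Finset (Fin n))
    (Inv : St n k → Prop) (γ : X → Fin k) (φ' : St n k) : Finset (St n k × X) :=
  univ.filter fun p => Inv p.1 ∧ (unc p.1).Nonempty ∧ stepA rc side p.1 (γ p.2) = φ'

theorem cnt_succ (H : Hyp rc side par R Inv) (γ : X → Fin k) (T : ℕ) {φ' : St n k}
    (h' : (unc φ').Nonempty) :
    cnt rc side γ (T + 1) φ' ≤ ∑ p ∈ preds rc side Inv γ φ', cnt rc side γ T p.1 := by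
  classical
  set S := (univ.filter fun y : (Fin T → X) × X =>
    stepA rc side (run rc side γ (List.ofFn y.1)) (γ y.2) = φ') with hS
  have h1 : cnt rc side γ (T + 1) φ' ≤ S.card := by
    unfold cnt
    refine card_le_card_of_injOn (fun x => (fun i => x i.castSucc, x (Fin.last T))) ?_ ?_
    · intro x hx
      simp only [coe_filter, mem_univ, true_and, Set.mem_ofPred_eq] at hx
      simp only [hS, coe_filter, mem_univ, true_and, Set.mem_ofPred_eq]
      rw [← run_succ, hx]
    · intro x _ y _ hxy
      simp only [Prod.mk.injEq] at hxy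
      funext i
      refine Fin.lastCases hxy.2 (fun j => ?_) i
      exact congrFun hxy.1 j
  refine h1.trans ?_
  have h2 : ∀ y ∈ S, (fun y : (Fin T → X) × X => (run rc side γ (List.ofFn y.1), y.2)) y ∈
      preds rc side Inv γ φ' := by
    intro y hy
    simp only [hS, mem_filter, mem_univ, true_and] at hy
    simp only [preds, mem_filter, mem_univ, true_and]
    refine ⟨inv_run H _ _, ?_, hy⟩
    by_contra h
    rw [stepA_of_finished h] at hy
    rw [hy] at h
    exact h h'
  rw [card_eq_sum_card_fiberwise h2]
  refine sum_le_sum fun p _ => ?_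
  unfold cnt
  refine card_le_card_of_injOn (fun y => y.1) ?_ ?_
  · rintro ⟨y, a⟩ hy
    simp only [coe_filter, Set.mem_ofPred_eq] at hy
    simp only [coe_filter, mem_univ, true_and, Set.mem_ofPred_eq]
    rw [← hy.2]
  · rintro ⟨y, a⟩ hy ⟨z, b⟩ hz hyz
    simp only [coe_filter, Set.mem_ofPred_eq] at hy hz hyz
    have h3 : a = b := by
      have e1 := congrArg Prod.snd hy.2
      have e2 := congrArg Prod.snd hz.2
      simp only at e1 e2
      rw [e1, e2]
    rw [hyz, h3]

/-- The first uncoloured vertex, for a nonempty set. -/
def fst (U : Finset (Fin n)) (h : U.Nonempty) : Fin n := U.min' h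

/-- The classifying map: the set of uncoloured vertices and the record. -/
noncomputable def cls (rc : St n k → Option E) (γ : X → Fin k) (p : St n k × X) :
    Finset (Fin n) × Option E :=
  (unc p.1, if h : (unc p.1).Nonempty then rc (update p.1 ((unc p.1).min' h) (some (γ p.2)))
    else none)

theorem unc_after (H : Hyp rc side par R Inv) {φ : St n k} (hI : Inv φ) {v : Fin n}
    (hv : φ v = none) (c : Fin k) :
    rc (update φ v (some c)) ∈ recs side R (unc φ) v ∧
    unc (after rc side (update φ v (some c)) v) =
      nextSet side (unc φ) v (rc (update φ v (some c))) := by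
  have hu : unc (update φ v (some c)) = (unc φ).erase v := by
    ext w
    rw [mem_unc, mem_erase, mem_unc]
    by_cases hw : w = v
    · subst hw; simp
    · simp [hw]
  cases hrc : rc (update φ v (some c)) with
  | none =>
    refine ⟨by simp [recs], ?_⟩
    unfold after
    rw [hrc]
    exact hu
  | some e =>
    obtain ⟨h1, h2, h3⟩ := H.rec_ φ hI v hv c e hrc
    refine ⟨?_, ?_⟩
    · unfold recs
      rw [mem_insert]
      right
      rw [mem_image]
      refine ⟨e, ?_, rfl⟩
      rw [mem_filter]
      refine ⟨h1, ?_⟩
      ext w
      rw [mem_inter, mem_singleton, mem_unc]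
      constructor
      · rintro ⟨h4, h5⟩
        by_contra h6
        exact (h3 w h4).2.2 (by rw [update_of_ne h6, h5])
      · rintro rfl
        exact ⟨h2, hv⟩
    · unfold after
      rw [hrc]
      ext w
      simp only [nextSet, mem_unc, mem_union]
      by_cases hw : w ∈ side e v
      · simp [hw]
      · have hwv : w ≠ v := fun h => hw (h ▸ h2)
        simp only [hw, if_false, or_false]
        rw [update_of_ne hwv]

theorem preds_unique (H : Hyp rc side par R Inv) (γ : X → Fin k) {φ' : St n k}
    {p p' : St n k × X} (hp : p ∈ preds rc side Inv γ φ') (hp' : p' ∈ preds rc side Inv γ φ')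
    (hc : cls rc γ p = cls rc γ p') : p.1 = p'.1 ∧ γ p.2 = γ p'.2 := by
  classical
  obtain ⟨φ, a⟩ := p
  obtain ⟨ψ, b⟩ := p'
  simp only [preds, mem_filter, mem_univ, true_and] at hp hp'
  obtain ⟨hI, hne, hs⟩ := hp
  obtain ⟨hI', hne', hs'⟩ := hp'
  have hU : unc φ = unc ψ := congrArg Prod.fst hc
  have hR := congrArg Prod.snd hc
  simp only [cls, dif_pos hne, dif_pos hne'] at hR
  have hmin : (unc φ).min' hne = (unc ψ).min' hne' := by
    congr 1
  set v := (unc φ).min' hne with hv
  have hv0 : φ v = none := mem_unc.1 (min'_mem _ _)
  have hv0' : ψ v = none := by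
    rw [hmin]
    exact mem_unc.1 (min'_mem _ _)
  rw [← hmin] at hR
  unfold stepA at hs hs'
  rw [dif_pos hne, ← hv] at hs
  rw [dif_pos hne', ← hmin] at hs'
  have key : update φ v (some (γ a)) = update ψ v (some (γ b)) := by
    cases hrc : rc (update φ v (some (γ a))) with
    | none =>
      rw [hrc] at hR
      unfold after at hs hs'
      rw [hrc] at hs
      rw [← hR] at hs'
      exact hs.trans hs'.symm
    | some e =>
      rw [hrc] at hR
      obtain ⟨_, h2, h3⟩ := H.rec_ φ hI v hv0 _ e hrc
      obtain ⟨_, _, h3'⟩ := H.rec_ ψ hI' v hv0' _ e hR.symm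
      unfold after at hs hs'
      rw [hrc] at hs
      rw [← hR] at hs'
      have h4 : ∀ w, w ∉ side e v → update φ v (some (γ a)) w = update ψ v (some (γ b)) w := by
        intro w hw
        have e1 := congrFun hs w
        have e2 := congrFun hs' w
        simp only [hw, if_false] at e1 e2
        rw [e1, e2]
      funext w
      by_cases hw : w ∈ side e v
      · rw [(h3 w hw).2.1, (h3' w hw).2.1]
        exact h4 _ (h3 w hw).1
      · exact h4 w hw
  constructor
  · funext w
    change φ w = ψ w
    by_cases hw : w = v
    · rw [hw, hv0, hv0']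
    · have := congrFun key w
      rwa [update_of_ne hw, update_of_ne hw] at this
  · have := congrFun key v
    rw [update_self, update_self] at this
    exact Option.some_injective _ this

theorem cnt_bound (H : Hyp rc side par R Inv) (hk : 0 < k) (γ : X → Fin k)
    (hγ : ∀ c : Fin k, k * Fintype.card {a : X // γ a = c} ≤ Fintype.card X) : ∀ T : ℕ,
    ∃ f : Finset (Fin n) → ℝ, (∀ U, 0 ≤ f U) ∧
      (∀ φ, (unc φ).Nonempty → (cnt rc side γ T φ : ℝ) ≤ f (unc φ)) ∧
      ∑ U, f U * ((k : ℝ) / 2) ^ (n - U.card) ≤ ((Fintype.card X : ℝ) * (3 / 4)) ^ T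
  | 0 => by
    classical
    refine ⟨fun U => if U = univ then 1 else 0, fun U => by dsimp only; split_ifs <;> norm_num,
      ?_, ?_⟩
    · intro φ _
      dsimp only
      by_cases h : φ = init n k
      · have : unc φ = univ := by
          ext v
          simp [mem_unc, h, init]
        rw [if_pos this]
        unfold cnt
        have := card_le_univ (univ.filter fun x : Fin 0 → X => run rc side γ (List.ofFn x) = φ)
        have h2 : Fintype.card (Fin 0 → X) = 1 := by simp
        rw [h2] at this
        exact_mod_cast this
      · have : cnt rc side γ 0 φ = 0 := by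
          unfold cnt
          rw [card_eq_zero, filter_eq_empty_iff]
          intro x _ hx
          apply h
          rw [← hx]
          rfl
        rw [this]
        split_ifs <;> norm_num
    · simp only [ite_mul, one_mul, zero_mul, sum_ite_eq', mem_univ, if_true, pow_zero]
      simp
  | T + 1 => by
    classical
    obtain ⟨f, h0, h1, h2⟩ := cnt_bound H hk γ hγ T
    set K : ℝ := (Fintype.card X : ℝ) with hK
    have hk' : (0 : ℝ) < k := by exact_mod_cast hk
    set q : ℝ := K / k with hq
    have hq0 : 0 ≤ q := by positivity
    refine ⟨fun U' => ∑ U : Finset (Fin n), if h : U.Nonempty then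
      ∑ ρ ∈ recs side R U (U.min' h), (if nextSet side U (U.min' h) ρ = U' then q * f U else 0)
      else 0, ?_, ?_, ?_⟩
    · intro U'
      refine sum_nonneg fun U _ => ?_
      split_ifs with h
      · refine sum_nonneg fun ρ _ => ?_
        split_ifs
        · exact mul_nonneg hq0 (h0 U)
        · exact le_rfl
      · exact le_rfl
    · intro φ' hφ'
      have e1 : (cnt rc side γ (T + 1) φ' : ℝ) ≤
          ∑ p ∈ preds rc side Inv γ φ', f (unc p.1) := by
        refine (Nat.cast_le.2 (cnt_succ H γ T hφ')).trans ?_
        rw [Nat.cast_sum]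
        refine sum_le_sum fun p hp => h1 _ ?_
        simp only [preds, mem_filter] at hp
        exact hp.2.2.1
      refine e1.trans ?_
      -- classify
      set Bset : Finset (Finset (Fin n) × Option E) :=
        (preds rc side Inv γ φ').image (cls rc γ) with hB
      have e2 : ∑ p ∈ preds rc side Inv γ φ', f (unc p.1) =
          ∑ b ∈ Bset, ∑ p ∈ (preds rc side Inv γ φ').filter (fun p => cls rc γ p = b),
            f (unc p.1) :=
        (sum_fiberwise_of_maps_to (fun p hp => mem_image_of_mem _ hp) _).symm
      have e3 : ∀ b ∈ Bset, ∑ p ∈ (preds rc side Inv γ φ').filter (fun p => cls rc γ p = b),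
            f (unc p.1) ≤ q * f b.1 := by
        intro b hb
        rw [hB, mem_image] at hb
        obtain ⟨p₀, hp₀, rfl⟩ := hb
        have e4 : (preds rc side Inv γ φ').filter (fun p => cls rc γ p = cls rc γ p₀) ⊆
            ({p₀.1} : Finset (St n k)) ×ˢ (univ.filter fun a : X => γ a = γ p₀.2) := by
          intro p hp
          rw [mem_filter] at hp
          obtain ⟨g1, g2⟩ := preds_unique H γ hp.1 hp₀ hp.2
          rw [mem_product, mem_singleton, mem_filter]
          exact ⟨g1, mem_univ _, g2⟩
        have e5 : ∀ p ∈ (preds rc side Inv γ φ').filter (fun p => cls rc γ p = cls rc γ p₀),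
            f (unc p.1) = f (cls rc γ p₀).1 := by
          intro p hp
          rw [mem_filter] at hp
          rw [← hp.2]
          rfl
        rw [sum_congr rfl e5, sum_const, nsmul_eq_mul]
        refine mul_le_mul_of_nonneg_right ?_ (h0 _)
        have e6 := card_le_card e4
        rw [card_product, card_singleton, one_mul] at e6
        have e7 := hγ (γ p₀.2)
        rw [Fintype.card_subtype] at e7
        rw [hq, le_div_iff₀ hk', mul_comm]
        have e8 : k * ((preds rc side Inv γ φ').filter
            (fun p => cls rc γ p = cls rc γ p₀)).card ≤ Fintype.card X :=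
          (Nat.mul_le_mul_left _ e6).trans e7
        rw [hK]
        exact_mod_cast e8
      rw [e2]
      refine (sum_le_sum e3).trans ?_
      -- compare with the sum over all sets and records
      have e9 : ∀ b ∈ Bset, ∃ h : b.1.Nonempty, b.2 ∈ recs side R b.1 (b.1.min' h) ∧
          nextSet side b.1 (b.1.min' h) b.2 = unc φ' := by
        intro b hb
        rw [hB, mem_image] at hb
        obtain ⟨p, hp, rfl⟩ := hb
        simp only [preds, mem_filter, mem_univ, true_and] at hp
        obtain ⟨hI, hne, hs⟩ := hp
        refine ⟨hne, ?_⟩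
        have hv0 : p.1 ((unc p.1).min' hne) = none := mem_unc.1 (min'_mem _ _)
        obtain ⟨g1, g2⟩ := unc_after H hI hv0 (γ p.2)
        simp only [cls, dif_pos hne]
        refine ⟨g1, ?_⟩
        rw [← g2, ← hs]
        unfold stepA
        rw [dif_pos hne]
      have e10 : ∀ U : Finset (Fin n), (if h : U.Nonempty then
          ∑ ρ ∈ recs side R U (U.min' h),
            (if nextSet side U (U.min' h) ρ = unc φ' then q * f U else 0) else 0) =
          ∑ b ∈ Bset.filter (fun b => b.1 = U), q * f b.1 + ((if h : U.Nonempty then
          ∑ ρ ∈ recs side R U (U.min' h),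
            (if nextSet side U (U.min' h) ρ = unc φ' then q * f U else 0) else 0) -
          ∑ b ∈ Bset.filter (fun b => b.1 = U), q * f b.1) := fun U => by ring
      have e11 : ∀ U : Finset (Fin n), ∑ b ∈ Bset.filter (fun b => b.1 = U), q * f b.1 ≤
          (if h : U.Nonempty then
          ∑ ρ ∈ recs side R U (U.min' h),
            (if nextSet side U (U.min' h) ρ = unc φ' then q * f U else 0) else 0) := by
        intro U
        split_ifs with h
        · have g1 : ∑ b ∈ Bset.filter (fun b => b.1 = U), q * f b.1 =
              ∑ ρ ∈ (Bset.filter (fun b => b.1 = U)).image Prod.snd, q * f U := by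
            rw [sum_image]
            · refine sum_congr rfl fun b hb => ?_
              rw [(mem_filter.1 hb).2]
            · intro b hb b' hb' hbb
              exact Prod.ext (((mem_filter.1 hb).2).trans ((mem_filter.1 hb').2).symm) hbb
          rw [g1, ← sum_filter]
          refine sum_le_sum_of_subset_of_nonneg ?_ fun _ _ _ => mul_nonneg hq0 (h0 U)
          intro ρ hρ
          rw [mem_image] at hρ
          obtain ⟨b, hb, rfl⟩ := hρ
          rw [mem_filter] at hb
          obtain ⟨hb1, hb2⟩ := hb
          obtain ⟨h', g2, g3⟩ := e9 b hb1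
          subst hb2
          rw [mem_filter]
          exact ⟨g2, g3⟩
        · have : Bset.filter (fun b => b.1 = U) = ∅ := by
            rw [filter_eq_empty_iff]
            intro b hb hbU
            obtain ⟨h', -⟩ := e9 b hb
            exact h (hbU ▸ h')
          rw [this, sum_empty]
      calc ∑ b ∈ Bset, q * f b.1 = ∑ U : Finset (Fin n),
            ∑ b ∈ Bset.filter (fun b => b.1 = U), q * f b.1 :=
            (sum_fiberwise Bset (fun b => b.1) _).symm
        _ ≤ _ := sum_le_sum fun U _ => e11 U
    · -- the weights
      have e1 : ∀ U' : Finset (Fin n), (∑ U : Finset (Fin n), if h : U.Nonempty then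
          ∑ ρ ∈ recs side R U (U.min' h), (if nextSet side U (U.min' h) ρ = U' then q * f U else 0)
          else 0) * ((k : ℝ) / 2) ^ (n - U'.card) =
          ∑ U : Finset (Fin n), if h : U.Nonempty then
          ∑ ρ ∈ recs side R U (U.min' h), (if nextSet side U (U.min' h) ρ = U' then
            q * f U * ((k : ℝ) / 2) ^ (n - (nextSet side U (U.min' h) ρ).card) else 0)
          else 0 := by
        intro U'
        rw [sum_mul]
        refine sum_congr rfl fun U _ => ?_
        split_ifs with h
        · rw [sum_mul]
          refine sum_congr rfl fun ρ _ => ?_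
          split_ifs with h3
          · rw [h3]
          · rw [zero_mul]
        · rw [zero_mul]
      rw [sum_congr rfl fun U' _ => e1 U', sum_comm]
      have e2 : ∀ U : Finset (Fin n), (∑ U' : Finset (Fin n), if h : U.Nonempty then
          ∑ ρ ∈ recs side R U (U.min' h), (if nextSet side U (U.min' h) ρ = U' then
            q * f U * ((k : ℝ) / 2) ^ (n - (nextSet side U (U.min' h) ρ).card) else 0)
          else 0) ≤ f U * ((k : ℝ) / 2) ^ (n - U.card) * (K * (3 / 4)) := by
        intro U
        by_cases h : U.Nonempty
        · simp only [dif_pos h]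
          rw [sum_comm]
          simp only [sum_ite_eq, mem_univ, if_true]
          rw [← mul_sum]
          have e3 := sum_recs H hk U (U.min' h) (min'_mem _ _)
          have e4 : q * f U * (((k : ℝ) / 2) ^ (n - U.card) * ((k : ℝ) / 2 * (3 / 2))) =
              f U * ((k : ℝ) / 2) ^ (n - U.card) * (K * (3 / 4)) := by
            rw [hq]
            field_simp
            ring
          rw [← e4]
          exact mul_le_mul_of_nonneg_left e3 (mul_nonneg hq0 (h0 U))
        · simp only [dif_neg h, sum_const_zero]
          have := h0 U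
          positivity
      refine (sum_le_sum fun U _ => e2 U).trans ?_
      rw [← sum_mul, pow_succ]
      exact mul_le_mul_of_nonneg_right h2 (by positivity)

open Classical in
/-- The process is unlikely to leave an uncoloured vertex after many steps. -/
theorem unfinished_le (H : Hyp rc side par R Inv) (hk : 0 < k) (γ : X → Fin k)
    (hγ : ∀ c : Fin k, k * Fintype.card {a : X // γ a = c} ≤ Fintype.card X) (T : ℕ) :
    ((univ.filter fun x : Fin T → X => (unc (run rc side γ (List.ofFn x))).Nonempty).card : ℝ) ≤
      2 ^ n * ((Fintype.card X : ℝ) * (3 / 4)) ^ T := by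
  obtain ⟨f, h0, h1, h2⟩ := cnt_bound H hk γ hγ T
  have hk' : (0 : ℝ) < k := by exact_mod_cast hk
  have e1 : (univ.filter fun x : Fin T → X => (unc (run rc side γ (List.ofFn x))).Nonempty).card =
      ∑ φ ∈ univ.filter (fun φ : St n k => (unc φ).Nonempty), cnt rc side γ T φ := by
    rw [card_eq_sum_card_fiberwise (f := fun x : Fin T → X => run rc side γ (List.ofFn x))
      (t := univ.filter (fun φ : St n k => (unc φ).Nonempty))]
    · refine sum_congr rfl fun φ hφ => ?_
      unfold cnt
      congr 1
      ext x
      simp only [mem_filter, mem_univ, true_and] at hφ ⊢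
      constructor
      · exact fun h => h.2
      · intro h
        exact ⟨by rw [h]; exact hφ, h⟩
    · intro x hx
      simp only [coe_filter, mem_univ, true_and, Set.mem_ofPred_eq] at hx ⊢
      exact hx
  rw [e1, Nat.cast_sum]
  calc ∑ φ ∈ univ.filter (fun φ : St n k => (unc φ).Nonempty), (cnt rc side γ T φ : ℝ)
      ≤ ∑ φ ∈ univ.filter (fun φ : St n k => (unc φ).Nonempty), f (unc φ) :=
        sum_le_sum fun φ hφ => h1 φ (mem_filter.1 hφ).2
    _ ≤ ∑ φ : St n k, f (unc φ) :=
        sum_le_sum_of_subset_of_nonneg (filter_subset _ _) fun _ _ _ => h0 _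
    _ = ∑ U : Finset (Fin n), ∑ φ ∈ univ.filter (fun φ : St n k => unc φ = U), f (unc φ) :=
        (sum_fiberwise univ (fun φ : St n k => unc φ) _).symm
    _ ≤ ∑ U : Finset (Fin n), 2 ^ n * (f U * ((k : ℝ) / 2) ^ (n - U.card)) := by
        refine sum_le_sum fun U _ => ?_
        have e2 : ∑ φ ∈ univ.filter (fun φ : St n k => unc φ = U), f (unc φ) =
            ((univ.filter fun φ : St n k => unc φ = U).card : ℝ) * f U := by
          rw [sum_congr rfl (g := fun _ => f U) fun φ hφ => by rw [(mem_filter.1 hφ).2],
            sum_const, nsmul_eq_mul]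
        rw [e2]
        have e3 : ((univ.filter fun φ : St n k => unc φ = U).card : ℝ) ≤ (k : ℝ) ^ (n - U.card) := by
          exact_mod_cast card_unc_le (E := E) U
        have e4 : (k : ℝ) ^ (n - U.card) ≤ 2 ^ n * ((k : ℝ) / 2) ^ (n - U.card) := by
          rw [div_pow, mul_div_assoc']
          rw [le_div_iff₀ (by positivity), mul_comm]
          have : (2 : ℝ) ^ (n - U.card) ≤ 2 ^ n := pow_le_pow_right₀ (by norm_num) (by omega)
          exact mul_le_mul_of_nonneg_right this (by positivity)
        calc ((univ.filter fun φ : St n k => unc φ = U).card : ℝ) * f U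
            ≤ 2 ^ n * ((k : ℝ) / 2) ^ (n - U.card) * f U :=
              mul_le_mul_of_nonneg_right (e3.trans e4) (h0 U)
          _ = _ := by ring
    _ = 2 ^ n * ∑ U : Finset (Fin n), f U * ((k : ℝ) / 2) ^ (n - U.card) := by rw [mul_sum]
    _ ≤ _ := mul_le_mul_of_nonneg_left h2 (by positivity)

end

end Pool.Agent.NPC.H56N.Cmp
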