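import Pool.Agent.NPC.Dec

/-!
# Nonrepetitive colourings with `O(Δ²)` colours: the algorithm

A graph on the vertices `0, …, n - 1` is given by its adjacency matrix. A state is a list of
`n` optional colours. In each step the first uncoloured vertex gets a random colour; then colour
coding looks for a bad list of pairs (`find`), and if there is one, then the side of it which
contains the new vertex is uncoloured.
-/

set_option autoImplicit false

namespace Pool.Agent.NPC.H56N


/-- Square tables of bits. -/
abbrev Mat : Type := List (List Bool)

/-- Lists of pairs of vertices. -/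
abbrev Ent : Type := List (ℕ × ℕ)

/-- The entry of an adjacency matrix. -/
def adj (M : Mat) (a b : ℕ) : Bool := (M.getD a []).getD b false

/-- The length from which on pairs of paths need not be joined. -/
def Lp (n : ℕ) : ℕ := n.size + 2

/-- The number of bits of a label. -/
def bl (n : ℕ) : ℕ := (4 * Lp n).size

/-- The number of bits in a block of random bits. -/
def bk (n : ℕ) : ℕ := 2 * n + 8

/-- The largest number of `true` in a row. -/
def dm (M : Mat) : ℕ := (M.map fun w => (w.filter fun b => b).length).foldr max 0

/-- The number of bits of a colour. -/
def bc (d : ℕ) : ℕ := (64 * (d * d)).size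

/-- A bound for the number of lists kept in the search. -/
def cap (n : ℕ) : ℕ := (8 * (n + 1)) ^ 11

/-- The number of steps. -/
def Tp (n : ℕ) : ℕ := 8 * n

/-- The number of labellings. -/
def Rp (n : ℕ) : ℕ := 64 * (n + 1) * (n + 1) * (2 * n + 1)

/-- The colour of a vertex. -/
def getC (s : List (Option ℕ)) (a : ℕ) : Option ℕ := s.getD a none

/-- The label of a vertex. -/
def lab (h : List ℕ) (a : ℕ) : ℕ := h.getD a 0

/-- The labels of all vertices in a list of pairs. -/
def labs (h : List ℕ) (e : Ent) : List ℕ := e.flatMap fun p => [lab h p.1, lab h p.2]

/-- The last pair. -/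
def lastP (e : Ent) : ℕ × ℕ := (e.reverse.head?).getD (0, 0)

/-- The vertices of `p` are neighbours of those of the first pair of `e`. -/
def joined (M : Mat) (e : Ent) (p : ℕ × ℕ) : Bool :=
  match e.head? with
  | none => true
  | some q => adj M q.1 p.1 && adj M q.2 p.2

/-- The pair `p` may be put in front of `e`. -/
def ok (M : Mat) (s : List (Option ℕ)) (h : List ℕ) (e : Ent) (p : ℕ × ℕ) : Bool :=
  (getC s p.1).isSome && decide (getC s p.1 = getC s p.2) && !decide (lab h p.1 = lab h p.2) &&
    !decide (lab h p.1 ∈ labs h e) && !decide (lab h p.2 ∈ labs h e) && joined M e p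

/-- All pairs of vertices. -/
def pairs (n : ℕ) : List (ℕ × ℕ) := (List.range n).flatMap fun a => (List.range n).map fun b => (a, b)

/-- What has to be remembered of a list of pairs: the first pair, a vertex of the last pair, and
the set of the labels. -/
def key (n : ℕ) (h : List ℕ) (e : Ent) : ((ℕ × ℕ) × ℕ) × List Bool :=
  (((e.head?).getD (0, 0), (lastP e).2), (List.range (8 * Lp n)).map fun l => decide (l ∈ labs h e))

/-- Keep one list for each key. -/
def ded (n : ℕ) (h : List ℕ) (l : List Ent) : List Ent :=
  l.foldr (fun e acc => bif decide (key n h e ∈ acc.map (key n h)) then acc else e :: acc) []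

/-- All extensions. -/
def cands (M : Mat) (s : List (Option ℕ)) (h : List ℕ) (E : List Ent) : List Ent :=
  E.flatMap fun e => ((pairs M.length).filter fun p => ok M s h e p).map fun p => p :: e

/-- One round of the search. -/
def ext (M : Mat) (s : List (Option ℕ)) (h : List ℕ) (E : List Ent) : List Ent :=
  (ded M.length h (cands M s h E)).take (cap M.length)

/-- One round of the search, collecting all lists. -/
def extA (M : Mat) (s : List (Option ℕ)) (h : List ℕ) (x : List Ent × List Ent) :
    List Ent × List Ent :=
  (ext M s h x.1, ext M s h x.1 ++ x.2)

/-- The lists of pairs found with the labelling `h`. -/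
def levels (M : Mat) (s : List (Option ℕ)) (h : List ℕ) : List Ent :=
  ((extA M s h)^[Lp M.length] ([[]], [])).2

/-- The list is bad: it is joined or long. -/
def viol (M : Mat) (e : Ent) : Bool :=
  match e.head? with
  | none => false
  | some q => adj M q.1 (lastP e).2 || decide (e.length = Lp M.length)

/-- Find a bad list of pairs. -/
def find (M : Mat) (H : List (List ℕ)) (s : List (Option ℕ)) : Option Ent :=
  (H.flatMap fun h => (levels M s h).filter fun e => viol M e).head?

/-- The first uncoloured vertex. -/
def first (s : List (Option ℕ)) : Option ℕ :=
  ((List.range s.length).filter fun i => (getC s i).isNone).head?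

/-- Give a colour to a vertex. -/
def setC (s : List (Option ℕ)) (v c : ℕ) : List (Option ℕ) :=
  (List.range s.length).map fun i => bif decide (i = v) then some c else getC s i

/-- Uncolour vertices. -/
def unset (s : List (Option ℕ)) (S : List ℕ) : List (Option ℕ) :=
  (List.range s.length).map fun i => bif decide (i ∈ S) then none else getC s i

/-- The side of `e` which contains `v`. -/
def sideL (e : Ent) (v : ℕ) : List ℕ :=
  bif decide (v ∈ e.map fun p => p.1) then e.map fun p => p.1 else e.map fun p => p.2

/-- One step of the algorithm. -/
def step (M : Mat) (H : List (List ℕ)) (s : List (Option ℕ)) (c : ℕ) : List (Option ℕ) :=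
  match first s with
  | none => s
  | some v =>
    match find M H (setC s v c) with
    | none => setC s v c
    | some e => unset (setC s v c) (sideL e v)

/-- The number formed by the first `b` bits of the block `i` of `B` bits. -/
def num (r : List Bool) (B b i : ℕ) : ℕ :=
  valB ((List.range b).map fun j => r.getD (i * B + j) false)

/-- The random colours. -/
def cols (M : Mat) (r : List Bool) : List ℕ :=
  (List.range (Tp M.length)).map fun i => num r (bk M.length) (bc (dm M)) i

/-- The random labellings. -/
def labels (M : Mat) (r : List Bool) : List (List ℕ) :=
  (List.range (Rp M.length)).map fun i => (List.range M.length).map fun v =>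
    num r (bk M.length) (bl M.length) (Tp M.length + (i * M.length + v))

/-- The initial state. -/
def start (M : Mat) : List (Option ℕ) := M.map fun _ => none

/-- The last state. -/
def final (M : Mat) (r : List Bool) : List (Option ℕ) :=
  (cols M r).foldl (step M (labels M r)) (start M)

/-- The output of the algorithm. -/
def alg (x : Mat × List Bool) : List ℕ := (final x.1 x.2).map fun o => o.getD 0

end Pool.Agent.NPC.H56N
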