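import Mathlib

/-!
# Random labellings are injective on small sets
-/

set_option autoImplicit false

namespace Pool.Agent.NPC.H56N.Ha

open Finset Function

variable {n m : ℕ} {X : Type} [Fintype X]

open Classical in
/-- The labellings which are injective on `S`. -/
noncomputable def inj (la : X → ℕ) (S : Finset (Fin n)) : Finset (Fin n → X) :=
  univ.filter fun g => Set.InjOn (fun v => la (g v)) (S : Set (Fin n))

theorem mem_inj {la : X → ℕ} {S : Finset (Fin n)} {g : Fin n → X} :
    g ∈ inj la S ↔ Set.InjOn (fun v => la (g v)) (S : Set (Fin n)) := by simp [inj]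

theorem injOn_update {la : X → ℕ} {S : Finset (Fin n)} {g : Fin n → X} {a : Fin n} (ha : a ∉ S)
    (x : X) : Set.InjOn (fun v => la (update g a x v)) (S : Set (Fin n)) ↔
      Set.InjOn (fun v => la (g v)) (S : Set (Fin n)) := by
  have h1 : ∀ v ∈ (S : Set (Fin n)), la (update g a x v) = la (g v) := by
    intro v hv
    rw [update_of_ne]
    rintro rfl
    exact ha (by simpa using hv)
  exact Set.EqOn.injOn_iff (f₁ := fun v => la (update g a x v)) (f₂ := fun v => la (g v)) h1

theorem card_inj (la : X → ℕ) (hla : ∀ l, m * (univ.filter fun x : X => la x = l).card ≤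
    Fintype.card X) (hm : 0 < m) (S : Finset (Fin n)) : 2 * S.card ≤ m →
    (Fintype.card X) ^ n ≤ 2 ^ S.card * (inj la S).card := by
  classical
  induction S using Finset.induction_on with
  | empty =>
    intro _
    have : inj la (∅ : Finset (Fin n)) = univ := by
      ext g
      simp [mem_inj]
    rw [this]
    simp
  | insert a S ha ih =>
    intro hS
    rw [card_insert_of_notMem ha] at hS ⊢
    have ih' := ih (by omega)
    set K := Fintype.card X with hK
    -- for every good `g` at least half of the values at `a` are good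
    have h1 : ∀ g ∈ inj la S, K ≤ 2 * (univ.filter fun x : X =>
        update g a x ∈ inj la (insert a S)).card := by
      intro g hg
      have h2 : (univ.filter fun x : X => ¬ update g a x ∈ inj la (insert a S)) ⊆
          S.biUnion fun v => univ.filter fun x : X => la x = la (g v) := by
        intro x hx
        rw [mem_filter] at hx
        by_contra hne
        apply hx.2
        rw [mem_inj, coe_insert, Set.injOn_insert (by simpa using ha)]
        refine ⟨(injOn_update ha x).2 (mem_inj.1 hg), ?_⟩
        rintro ⟨v, hv, hv2⟩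
        apply hne
        rw [mem_biUnion]
        have hva : v ≠ a := by
          rintro rfl
          exact ha (by simpa using hv)
        refine ⟨v, by simpa using hv, ?_⟩
        rw [mem_filter]
        simp only [update_self, update_of_ne hva] at hv2
        exact ⟨mem_univ _, hv2.symm⟩
      have h3 := (card_le_card h2).trans card_biUnion_le
      have h4 : m * ∑ v ∈ S, (univ.filter fun x : X => la x = la (g v)).card ≤ S.card * K := by
        rw [mul_sum]
        calc ∑ v ∈ S, m * (univ.filter fun x : X => la x = la (g v)).card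
            ≤ ∑ _v ∈ S, K := sum_le_sum fun v _ => hla _
          _ = S.card * K := by rw [sum_const, smul_eq_mul]
      have h5 : 2 * (univ.filter fun x : X => ¬ update g a x ∈ inj la (insert a S)).card ≤ K := by
        have h6 : m * (2 * (univ.filter fun x : X => ¬ update g a x ∈
            inj la (insert a S)).card) ≤ m * K := by
          calc _ = 2 * (m * (univ.filter fun x : X => ¬ update g a x ∈
              inj la (insert a S)).card) := by ring
            _ ≤ 2 * (S.card * K) := Nat.mul_le_mul_left _ ((Nat.mul_le_mul_left _ h3).trans h4)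
            _ = 2 * S.card * K := by ring
            _ ≤ m * K := Nat.mul_le_mul_right _ (by omega)
        exact Nat.le_of_mul_le_mul_left h6 hm
      have h6 := card_filter_add_card_filter_not (s := (univ : Finset X))
        (fun x : X => update g a x ∈ inj la (insert a S))
      rw [card_univ, ← hK] at h6
      omega
    -- double counting
    have h2 : ∑ g ∈ inj la S, (univ.filter fun x : X => update g a x ∈ inj la (insert a S)).card =
        K * (inj la (insert a S)).card := by
      rw [← card_sigma, hK, ← card_univ, ← card_product]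
      refine card_bij' (fun x _ => (x.1 a, update x.1 a x.2)) (fun y _ => ⟨update y.2 a y.1, y.2 a⟩)
        ?_ ?_ ?_ ?_
      · rintro ⟨g, x⟩ hx
        simp only [mem_sigma, mem_filter, mem_univ, true_and] at hx
        simp only [mem_product, mem_univ, true_and]
        exact hx.2
      · rintro ⟨y, g⟩ hy
        simp only [mem_product, mem_univ, true_and] at hy
        simp only [mem_sigma, mem_filter, mem_univ, true_and, update_idem, update_eq_self]
        refine ⟨?_, hy⟩
        rw [mem_inj, injOn_update ha]
        exact (mem_inj.1 hy).mono (by simp)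
      · rintro ⟨g, x⟩ _
        simp
      · rintro ⟨y, g⟩ _
        simp
    have h3 : K * (inj la S).card ≤ 2 * (K * (inj la (insert a S)).card) := by
      rw [← h2, mul_sum, mul_comm]
      calc (inj la S).card * K = ∑ _g ∈ inj la S, K := by rw [sum_const, smul_eq_mul]
        _ ≤ _ := sum_le_sum h1
    rcases Nat.eq_zero_or_pos K with hK0 | hK0
    · have hn : n ≠ 0 := by
        rintro rfl
        exact a.elim0
      rw [hK0, zero_pow hn]
      exact Nat.zero_le _
    · have h4 : (inj la S).card ≤ 2 * (inj la (insert a S)).card := by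
        have : K * (inj la S).card ≤ K * (2 * (inj la (insert a S)).card) := by
          calc _ ≤ _ := h3
            _ = _ := by ring
        exact Nat.le_of_mul_le_mul_left this hK0
      calc K ^ n ≤ 2 ^ S.card * (inj la S).card := ih'
        _ ≤ 2 ^ S.card * (2 * (inj la (insert a S)).card) := Nat.mul_le_mul_left _ h4
        _ = 2 ^ (S.card + 1) * (inj la (insert a S)).card := by rw [pow_succ]; ring

open Classical in
/-- The families of labellings which are not injective on some set with at most `t` elements. -/
noncomputable def badFam (la : X → ℕ) (n t R : ℕ) : Finset (Fin R → Fin n → X) :=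
  univ.filter fun y => ∃ S : Finset (Fin n), S.card ≤ t ∧ ∀ i, y i ∉ inj la S

theorem mem_badFam {la : X → ℕ} {n t R : ℕ} {y : Fin R → Fin n → X} :
    y ∈ badFam la n t R ↔ ∃ S : Finset (Fin n), S.card ≤ t ∧ ∀ i, y i ∉ inj la S := by
  simp only [badFam, mem_filter, mem_univ, true_and]

theorem card_badFam (la : X → ℕ) (hla : ∀ l, m * (univ.filter fun x : X => la x = l).card ≤
    Fintype.card X) (hm : 0 < m) (t R : ℕ) (ht : 2 * t ≤ m) :
    ((badFam la n t R).card : ℝ) ≤
      2 ^ n * (((Fintype.card X : ℝ) ^ n) * (1 - (1 / 2) ^ t)) ^ R := by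
  classical
  have h1 : badFam la n t R ⊆ (univ.filter fun S : Finset (Fin n) => S.card ≤ t).biUnion
      fun S => Fintype.piFinset fun _ : Fin R => (inj la S)ᶜ := by
    intro y hy
    unfold badFam at hy
    rw [mem_filter] at hy
    obtain ⟨S, hS, hy⟩ := hy.2
    rw [mem_biUnion]
    refine ⟨S, by simpa using hS, ?_⟩
    rw [Fintype.mem_piFinset]
    intro i
    rw [mem_compl]
    exact hy i
  have h2 := (card_le_card h1).trans card_biUnion_le
  have h3 : ∀ S ∈ (univ.filter fun S : Finset (Fin n) => S.card ≤ t),
      ((Fintype.piFinset fun _ : Fin R => (inj la S)ᶜ).card : ℝ) ≤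
        (((Fintype.card X : ℝ) ^ n) * (1 - (1 / 2) ^ t)) ^ R := by
    intro S hS
    rw [mem_filter] at hS
    rw [Fintype.card_piFinset, prod_const, card_univ, Fintype.card_fin]
    push_cast
    refine pow_le_pow_left₀ (by positivity) ?_ R
    have h4 := card_inj la hla hm S (by omega)
    have h5 : ((Fintype.card X : ℝ)) ^ n ≤ 2 ^ S.card * ((inj la S).card : ℝ) := by
      exact_mod_cast h4
    have h6 : ((inj la S)ᶜ.card : ℝ) = (Fintype.card X : ℝ) ^ n - (inj la S).card := by
      rw [card_compl, Nat.cast_sub (card_le_univ _)]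
      simp
    have h7 : (2 : ℝ) ^ S.card ≤ 2 ^ t := pow_le_pow_right₀ (by norm_num) hS.2
    have h8 : (Fintype.card X : ℝ) ^ n * (1 / 2) ^ t ≤ (inj la S).card := by
      have h9 : (0 : ℝ) ≤ (inj la S).card := by positivity
      have h10 : (Fintype.card X : ℝ) ^ n ≤ 2 ^ t * ((inj la S).card : ℝ) :=
        h5.trans (mul_le_mul_of_nonneg_right h7 h9)
      calc (Fintype.card X : ℝ) ^ n * (1 / 2) ^ t ≤
          2 ^ t * ((inj la S).card : ℝ) * (1 / 2) ^ t :=
            mul_le_mul_of_nonneg_right h10 (by positivity)
        _ = ((inj la S).card : ℝ) * (2 * (1 / 2)) ^ t := by rw [mul_pow]; ring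
        _ = (inj la S).card := by norm_num
    rw [h6]
    linarith
  calc ((badFam la n t R).card : ℝ) ≤ ((∑ S ∈ (univ.filter fun S : Finset (Fin n) => S.card ≤ t),
        (Fintype.piFinset fun _ : Fin R => (inj la S)ᶜ).card : ℕ) : ℝ) := by exact_mod_cast h2
    _ = ∑ S ∈ (univ.filter fun S : Finset (Fin n) => S.card ≤ t),
        ((Fintype.piFinset fun _ : Fin R => (inj la S)ᶜ).card : ℝ) := by push_cast; rfl
    _ ≤ ∑ _S ∈ (univ.filter fun S : Finset (Fin n) => S.card ≤ t),
        (((Fintype.card X : ℝ) ^ n) * (1 - (1 / 2) ^ t)) ^ R := sum_le_sum h3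
    _ = ((univ.filter fun S : Finset (Fin n) => S.card ≤ t).card : ℝ) *
        (((Fintype.card X : ℝ) ^ n) * (1 - (1 / 2) ^ t)) ^ R := by rw [sum_const, nsmul_eq_mul]
    _ ≤ 2 ^ n * (((Fintype.card X : ℝ) ^ n) * (1 - (1 / 2) ^ t)) ^ R := by
        refine mul_le_mul_of_nonneg_right ?_ ?_
        · have h9 := card_le_univ (univ.filter fun S : Finset (Fin n) => S.card ≤ t)
          rw [Fintype.card_finset, Fintype.card_fin] at h9
          exact_mod_cast h9
        · have h10 : ((1 : ℝ) / 2) ^ t ≤ 1 := pow_le_one₀ (by norm_num) (by norm_num)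
          have h11 : (0 : ℝ) ≤ 1 - (1 / 2) ^ t := by linarith
          positivity

/-- The probability that all labellings fail is tiny. -/
theorem pow_le (A N R : ℕ) (hA : 0 < A) (hR : A * N ≤ R) :
    (1 - (1 : ℝ) / A) ^ R ≤ (1 / 2) ^ N := by
  have hA' : (1 : ℝ) ≤ A := by exact_mod_cast hA
  have h0 : (0 : ℝ) ≤ 1 - 1 / A := by
    rw [sub_nonneg, div_le_one (by linarith)]
    exact hA'
  have h1 : (1 - (1 : ℝ) / A) ≤ Real.exp (-(1 / A)) := by
    have := Real.add_one_le_exp (-((1 : ℝ) / A))
    linarith
  have h2 : (1 - (1 : ℝ) / A) ≤ 1 := by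
    have : (0 : ℝ) ≤ 1 / A := by positivity
    linarith
  have h3 : (1 - (1 : ℝ) / A) ^ A ≤ 1 / 2 := by
    calc (1 - (1 : ℝ) / A) ^ A ≤ (Real.exp (-(1 / A))) ^ A := pow_le_pow_left₀ h0 h1 A
      _ = Real.exp (-1) := by
          rw [← Real.exp_nat_mul]
          congr 1
          field_simp
      _ ≤ 1 / 2 := by
          rw [Real.exp_neg]
          have := Real.add_one_le_exp (1 : ℝ)
          rw [inv_eq_one_div]
          apply one_div_le_one_div_of_le (by norm_num)
          linarith
  calc (1 - (1 : ℝ) / A) ^ R ≤ (1 - (1 : ℝ) / A) ^ (A * N) := pow_le_pow_of_le_one h0 h2 hR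
    _ = ((1 - (1 : ℝ) / A) ^ A) ^ N := by rw [pow_mul]
    _ ≤ (1 / 2) ^ N := pow_le_pow_left₀ (by positivity) h3 N

end Pool.Agent.NPC.H56N.Ha
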