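import Pool.Agent.H56N.Graph
import Pool.Agent.H56N.Hash

/-!
# The random bits and the probability of success
-/

set_option autoImplicit false

namespace Pool.Agent.NPC.H56N

open Finset Function
open Cmp (St unc mem_unc stepA after run)

/-! ### The number in a block of bits -/

/-- The number formed by the first `b` bits. -/
def nm {B : ℕ} (b : ℕ) (x : Fin B → Bool) : ℕ :=
  valB ((List.range b).map fun j => if h : j < B then x ⟨j, h⟩ else false)

theorem nm_lt {B : ℕ} (b : ℕ) (x : Fin B → Bool) : nm b x < 2 ^ b := by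
  have := valB_lt ((List.range b).map fun j => if h : j < B then x ⟨j, h⟩ else false)
  simpa [nm] using this

theorem valB_inj : ∀ (l l' : List Bool), l.length = l'.length → valB l = valB l' → l = l'
  | [], [], _, _ => rfl
  | [], _ :: _, h, _ => by simp at h
  | _ :: _, [], h, _ => by simp at h
  | a :: l, a' :: l', h, hv => by
    simp only [valB_cons] at hv
    have h1 : valB l = valB l' := by
      cases a <;> cases a' <;> simp at hv <;> omega
    have h2 : a = a' := by
      cases a <;> cases a' <;> simp at hv ⊢ <;> omega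
    rw [h2, valB_inj l l' (by simpa using h) h1]

theorem fiber_le {B b : ℕ} (hb : b ≤ B) (c : ℕ) :
    2 ^ b * (univ.filter fun x : Fin B → Bool => nm b x = c).card ≤
      Fintype.card (Fin B → Bool) := by
  have h1 : (univ.filter fun x : Fin B → Bool => nm b x = c).card ≤
      (univ : Finset (Fin (B - b) → Bool)).card := by
    refine card_le_card_of_injOn (fun x j => x ⟨b + j.val, by omega⟩) (by simp) ?_
    intro x hx y hy hxy
    simp only [coe_filter, mem_univ, true_and, Set.mem_ofPred_eq] at hx hy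
    have h2 := valB_inj _ _ (by simp) (hx.trans hy.symm)
    rw [List.map_inj_left] at h2
    funext i
    rcases lt_or_ge i.val b with hi | hi
    · have := h2 i.val (List.mem_range.2 hi)
      simpa using this
    · have := congrFun hxy ⟨i.val - b, by omega⟩
      simp only at this
      have e : (⟨b + (i.val - b), by omega⟩ : Fin B) = i := Fin.ext (by simp; omega)
      rwa [e] at this
  rw [card_univ, Fintype.card_fun, Fintype.card_bool, Fintype.card_fin] at h1
  rw [Fintype.card_fun, Fintype.card_bool, Fintype.card_fin]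
  calc 2 ^ b * _ ≤ 2 ^ b * 2 ^ (B - b) := Nat.mul_le_mul_left _ h1
    _ = 2 ^ B := by
      rw [← pow_add]
      congr 1
      omega

/-! ### Splitting the random bits -/

/-- The blocks. -/
def blocks {n B T R : ℕ} (x : Fin T → Fin B → Bool) (z : Fin R → Fin n → Fin B → Bool) :
    Fin (T + R * n) → Fin B → Bool :=
  Fin.append x fun u => z (finProdFinEquiv.symm u).1 (finProdFinEquiv.symm u).2

/-- The list of random bits. -/
def glue {n B T R : ℕ} (x : Fin T → Fin B → Bool) (z : Fin R → Fin n → Fin B → Bool) :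
    List Bool :=
  List.ofFn fun u : Fin ((T + R * n) * B) =>
    blocks x z (finProdFinEquiv.symm u).1 (finProdFinEquiv.symm u).2

theorem glue_getD {n B T R : ℕ} (x : Fin T → Fin B → Bool) (z : Fin R → Fin n → Fin B → Bool)
    (i : Fin (T + R * n)) (j : Fin B) : (glue x z).getD (i.val * B + j.val) false =
      blocks x z i j := by
  have h1 : i.val * B + j.val = (finProdFinEquiv (i, j)).val := by
    rw [finProdFinEquiv_apply_val]
    ring
  rw [h1]
  unfold glue
  rw [List.getD_eq_getElem _ _ (by rw [List.length_ofFn]; exact (finProdFinEquiv (i, j)).isLt)]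
  rw [List.getElem_ofFn]
  simp only [Fin.eta, Equiv.symm_apply_apply]

theorem blocks_left {n B T R : ℕ} (x : Fin T → Fin B → Bool) (z : Fin R → Fin n → Fin B → Bool)
    (i : Fin T) : blocks x z (Fin.castAdd _ i) = x i := by
  unfold blocks
  rw [Fin.append_left]

theorem blocks_right {n B T R : ℕ} (x : Fin T → Fin B → Bool) (z : Fin R → Fin n → Fin B → Bool)
    (i : Fin R) (v : Fin n) : blocks x z (Fin.natAdd _ (finProdFinEquiv (i, v))) = z i v := by
  unfold blocks
  rw [Fin.append_right, Equiv.symm_apply_apply]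

theorem glue_inj {n B T R : ℕ} : Injective fun p : (Fin T → Fin B → Bool) ×
    (Fin R → Fin n → Fin B → Bool) => glue p.1 p.2 := by
  rintro ⟨x, z⟩ ⟨x', z'⟩ h
  simp only at h
  have h1 : ∀ i j, blocks x z i j = blocks x' z' i j := by
    intro i j
    rw [← glue_getD, ← glue_getD, h]
  congr 1
  · funext i j
    have := h1 (Fin.castAdd _ i) j
    rwa [blocks_left, blocks_left] at this
  · funext i v j
    have := h1 (Fin.natAdd _ (finProdFinEquiv (i, v))) j
    rwa [blocks_right, blocks_right] at this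

theorem length_glue {n B T R : ℕ} (x : Fin T → Fin B → Bool) (z : Fin R → Fin n → Fin B → Bool) :
    (glue x z).length = (T + R * n) * B := by
  unfold glue
  rw [List.length_ofFn]

theorem num_glue {n B T R b : ℕ} (hb : b ≤ B) (x : Fin T → Fin B → Bool)
    (z : Fin R → Fin n → Fin B → Bool) (i : Fin (T + R * n)) :
    num (glue x z) B b i.val = nm b (blocks x z i) := by
  unfold num nm
  congr 1
  rw [List.map_inj_left]
  intro j hj
  rw [List.mem_range] at hj
  have hj' : j < B := by omega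
  rw [dif_pos hj']
  exact glue_getD x z i ⟨j, hj'⟩

/-! ### Sizes -/

theorem bc_le_bk {n d : ℕ} (hd : d ≤ n) : bc d ≤ bk n := by
  unfold bc bk
  rw [Nat.size_le]
  have h1 : d < 2 ^ n := lt_of_le_of_lt hd Nat.lt_two_pow_self
  calc 64 * (d * d) ≤ 64 * (2 ^ n * 2 ^ n) := by gcongr
    _ = 2 ^ (2 * n + 6) := by ring
    _ < 2 ^ (2 * n + 8) := Nat.pow_lt_pow_right (by norm_num) (by omega)

theorem bl_le_bk (n : ℕ) : bl n ≤ bk n := by
  unfold bl bk
  rw [Nat.size_le]
  unfold Lp
  have h1 := Poly.size_le_self n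
  have h2 : n < 2 ^ n := Nat.lt_two_pow_self
  have h3 : 2 ^ (2 * n + 8) = 256 * (2 ^ n * 2 ^ n) := by ring
  have h4 : 2 ^ n ≤ 2 ^ n * 2 ^ n := Nat.le_mul_of_pos_left _ (by positivity)
  omega

theorem four_Lp_lt (n : ℕ) : 4 * Lp n < 2 ^ bl n := Nat.lt_size_self _

theorem two_pow_bl (n : ℕ) : 2 ^ bl n ≤ 8 * Lp n := by
  unfold bl
  have h0 : 0 < 4 * Lp n := by unfold Lp; omega
  have h2 : 0 < (4 * Lp n).size := Nat.size_pos.2 h0
  have h1 : 2 ^ ((4 * Lp n).size - 1) ≤ 4 * Lp n := Nat.lt_size.1 (by omega)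
  have h3 : 2 ^ (4 * Lp n).size = 2 ^ ((4 * Lp n).size - 1) * 2 := by
    rw [← pow_succ]
    congr 1
    omega
  rw [h3]
  omega

theorem four_pow_Lp (n : ℕ) : 2 ^ (2 * Lp n) * (2 * n + 1) ≤ Rp n := by
  have h1 := two_pow_Lp n
  unfold Rp
  calc 2 ^ (2 * Lp n) * (2 * n + 1) = (2 ^ Lp n * 2 ^ Lp n) * (2 * n + 1) := by ring
    _ ≤ ((8 * (n + 1)) * (8 * (n + 1))) * (2 * n + 1) := by gcongr
    _ = 64 * (n + 1) * (n + 1) * (2 * n + 1) := by ring

/-! ### The run -/

variable {n : ℕ}

/-- The labellings given by the random blocks. -/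
def labOf {B R : ℕ} (b : ℕ) (z : Fin R → Fin n → Fin B → Bool) : List (List ℕ) :=
  List.ofFn fun i => List.ofFn fun v => nm b (z i v)

theorem dm_le_n (G : SimpleGraph (Fin n)) : dm (matrix G) ≤ n := by
  classical
  rcases Nat.eq_zero_or_pos n with rfl | hn
  · simp [matrix, dm]
  · refine (dm_le_maxDegree G).trans ?_
    have : Nonempty (Fin n) := ⟨⟨0, hn⟩⟩
    have := SimpleGraph.maxDegree_lt_card_verts G
    rw [Fintype.card_fin] at this
    exact this.le

theorem labels_glue (G : SimpleGraph (Fin n)) (x : Fin (Tp n) → Fin (bk n) → Bool)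
    (z : Fin (Rp n) → Fin n → Fin (bk n) → Bool) :
    labels (matrix G) (glue x z) = labOf (bl n) z := by
  unfold labels labOf
  rw [length_matrix]
  apply List.ext_getElem
  · simp
  · intro i h1 h2
    simp only [List.getElem_map, List.getElem_range, List.getElem_ofFn]
    have hi : i < Rp n := by simpa using h1
    apply List.ext_getElem
    · simp
    · intro v h3 h4
      simp only [List.getElem_map, List.getElem_range, List.getElem_ofFn]
      have hv : v < n := by simpa using h3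
      have e1 : Tp n + (i * n + v) =
          (Fin.natAdd (Tp n) (finProdFinEquiv ((⟨i, hi⟩, ⟨v, hv⟩) : Fin (Rp n) × Fin n))).val := by
        rw [Fin.val_natAdd, finProdFinEquiv_apply_val]
        simp only
        ring
      rw [e1, num_glue (bl_le_bk n), blocks_right]

theorem cols_glue (G : SimpleGraph (Fin n)) (x : Fin (Tp n) → Fin (bk n) → Bool)
    (z : Fin (Rp n) → Fin n → Fin (bk n) → Bool) :
    cols (matrix G) (glue x z) = (List.ofFn x).map fun a => nm (bc (dm (matrix G))) a := by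
  unfold cols
  rw [length_matrix]
  apply List.ext_getElem
  · simp
  · intro i h1 h2
    simp only [List.getElem_map, List.getElem_range, List.getElem_ofFn]
    have hi : i < Tp n := by simpa using h1
    have e1 : i = (Fin.castAdd (Rp n * n) (⟨i, hi⟩ : Fin (Tp n))).val := rfl
    conv_lhs => rw [e1]
    rw [num_glue (bc_le_bk (dm_le_n G)), blocks_left]

/-- The random colour. -/
def gam {B : ℕ} (b : ℕ) (a : Fin B → Bool) : Fin (2 ^ b) := ⟨nm b a, nm_lt b a⟩

theorem foldl_toL {B b : ℕ} (M : Mat) (H : List (List ℕ))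
    (l : List (Fin B → Bool)) : ∀ φ : St n (2 ^ b),
    (l.map fun a => nm b a).foldl (step M H) (toL φ) =
      toL (l.foldl (fun φ a => stepA (rc M H) sideF φ (gam b a)) φ) := by
  induction l with
  | nil => intro φ; rfl
  | cons a l ih =>
    intro φ
    rw [List.map_cons, List.foldl_cons, List.foldl_cons, ← ih]
    congr 1
    exact step_toL M H φ (gam b a)

theorem start_toL (G : SimpleGraph (Fin n)) (b : ℕ) :
    start (matrix G) = toL (Cmp.init n (2 ^ b)) := by
  unfold start toL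
  apply List.ext_getElem
  · simp [length_matrix]
  · intro i h1 h2
    simp [Cmp.init]

theorem final_glue (G : SimpleGraph (Fin n)) (x : Fin (Tp n) → Fin (bk n) → Bool)
    (z : Fin (Rp n) → Fin n → Fin (bk n) → Bool) :
    final (matrix G) (glue x z) = toL (run (rc (matrix G) (labOf (bl n) z)) sideF
      (gam (bc (dm (matrix G)))) (List.ofFn x) : St n (2 ^ bc (dm (matrix G)))) := by
  unfold final
  rw [labels_glue, cols_glue, start_toL G (bc (dm (matrix G)))]
  exact foldl_toL _ _ _ _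

theorem lab_lt {B R : ℕ} (z : Fin R → Fin n → Fin B → Bool) : ∀ h ∈ labOf (bl n) z, ∀ a,
    lab h a < 8 * Lp n := by
  intro h hh a
  unfold labOf at hh
  rw [List.mem_ofFn] at hh
  obtain ⟨i, rfl⟩ := hh
  have h0 : 0 < 8 * Lp n := by unfold Lp; omega
  unfold lab
  by_cases ha : a < n
  · rw [List.getD_eq_getElem _ _ (by simpa using ha), List.getElem_ofFn]
    exact (nm_lt _ _).trans_le (two_pow_bl n)
  · rw [List.getD_eq_default _ _ (by simpa using ha)]
    exact h0

/-- The random choices are good. -/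
def Good (G : SimpleGraph (Fin n)) (x : Fin (Tp n) → Fin (bk n) → Bool)
    (z : Fin (Rp n) → Fin n → Fin (bk n) → Bool) : Prop :=
  z ∉ Ha.badFam (nm (bl n)) n (2 * Lp n) (Rp n) ∧
  ¬ (unc (run (rc (matrix G) (labOf (bl n) z)) sideF
      (gam (bc (dm (matrix G)))) (List.ofFn x) : St n (2 ^ bc (dm (matrix G))))).Nonempty

theorem perfect_of_notMem {R B : ℕ} {z : Fin R → Fin n → Fin B → Bool}
    (hz : z ∉ Ha.badFam (nm (bl n)) n (2 * Lp n) R) : Perfect n (labOf (bl n) z) := by
  intro S hS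
  by_contra hcon
  apply hz
  rw [Ha.mem_badFam]
  refine ⟨S, hS, ?_⟩
  intro i hi
  rw [Ha.mem_inj] at hi
  apply hcon
  refine ⟨List.ofFn fun v => nm (bl n) (z i v), (List.mem_ofFn).2 ⟨i, rfl⟩, ?_⟩
  have h1 : ∀ v : Fin n, lab (List.ofFn fun v => nm (bl n) (z i v)) v.val = nm (bl n) (z i v) := by
    intro v
    unfold lab
    rw [List.getD_eq_getElem _ _ (by simp), List.getElem_ofFn]
  intro a ha b hb hab
  have h2 : nm (bl n) (z i a) = nm (bl n) (z i b) := by
    rw [← h1, ← h1]
    exact hab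
  exact hi ha hb h2

theorem inv_run (G : SimpleGraph (Fin n)) (x : Fin (Tp n) → Fin (bk n) → Bool)
    (z : Fin (Rp n) → Fin n → Fin (bk n) → Bool) :
    Inv (matrix G) (labOf (bl n) z) (run (rc (matrix G) (labOf (bl n) z)) sideF
      (gam (bc (dm (matrix G)))) (List.ofFn x) : St n (2 ^ bc (dm (matrix G)))) := by
  refine Cmp.inv_run (hyp (sym_matrix G) (length_matrix G) (Nat.lt_size_self _) ?_) _ _
  rw [length_matrix]
  exact lab_lt z

theorem good_spec (G : SimpleGraph (Fin n)) [DecidableRel G.Adj]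
    {x : Fin (Tp n) → Fin (bk n) → Bool}
    {z : Fin (Rp n) → Fin n → Fin (bk n) → Bool} (hg : Good G x z) :
    ∃ c : Fin n → ℕ, alg (matrix G, glue x z) = List.ofFn c ∧ Nonrepetitive G c ∧
      ∀ v, c v < max 1 (128 * G.maxDegree ^ 2) := by
  set φ := (run (rc (matrix G) (labOf (bl n) z)) sideF
      (gam (bc (dm (matrix G)))) (List.ofFn x) : St n (2 ^ bc (dm (matrix G)))) with hφ
  refine ⟨fun v => ((φ v).map Fin.val).getD 0, ?_, ?_, ?_⟩
  · unfold alg
    simp only
    rw [final_glue, ← hφ]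
    unfold toL
    rw [List.map_ofFn]
    rfl
  · exact nonrep_of_inv (inv_run G x z) hg.2 (perfect_of_notMem hg.1)
  · intro v
    have h1 : ((φ v).map Fin.val).getD 0 < 2 ^ bc (dm (matrix G)) := by
      cases φ v with
      | none => exact Nat.two_pow_pos _
      | some c => exact c.isLt
    refine h1.trans_le ((two_pow_bc _).trans ?_)
    have h2 := dm_le_maxDegree G
    gcongr

/-! ### The probability -/

theorem three_quarters (n : ℕ) (hn : 1 ≤ n) : (2 : ℝ) ^ n * (3 / 4) ^ (8 * n) ≤ (1 / 2) ^ (n + 1) := by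
  rw [pow_mul, ← mul_pow]
  have h1 : (2 : ℝ) * (3 / 4) ^ 8 ≤ 1 / 4 := by norm_num
  calc ((2 : ℝ) * (3 / 4) ^ 8) ^ n ≤ (1 / 4) ^ n := pow_le_pow_left₀ (by positivity) h1 n
    _ = (1 / 2) ^ (n + n) := by
        rw [← two_mul, pow_mul]
        norm_num
    _ ≤ (1 / 2) ^ (n + 1) := pow_le_pow_of_le_one (by norm_num) (by norm_num) (by omega)

open Classical in
theorem card_bad (G : SimpleGraph (Fin n)) (hn : 1 ≤ n) :
    ((univ.filter fun p : (Fin (Tp n) → Fin (bk n) → Bool) × (Fin (Rp n) → Fin n → Fin (bk n) → Bool)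
      => ¬ Good G p.1 p.2).card : ℝ) ≤ (1 / 2) ^ n * 2 ^ ((Tp n + Rp n * n) * bk n) := by
  set X := Fin (bk n) → Bool with hX
  have hcX : Fintype.card X = 2 ^ bk n := by
    simp [X]
  set Z := Fin (Rp n) → Fin n → X with hZ
  have hcZ : Fintype.card Z = 2 ^ (Rp n * n * bk n) := by
    have h : Fintype.card (Fin (Rp n) → Fin n → X) = (Fintype.card X ^ n) ^ Rp n := by
      simp only [Fintype.card_fun, Fintype.card_fin]
    rw [h, hcX, ← pow_mul, ← pow_mul]
    congr 1
    ring
  set Y := Fin (Tp n) → X with hY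
  have hcY : Fintype.card Y = 2 ^ (Tp n * bk n) := by
    have h : Fintype.card (Fin (Tp n) → X) = Fintype.card X ^ Tp n := by
      simp only [Fintype.card_fun, Fintype.card_fin]
    rw [h, hcX, ← pow_mul]
    congr 1
    ring
  -- bad labellings
  have hb1 : ((Ha.badFam (nm (bl n)) n (2 * Lp n) (Rp n) : Finset Z).card : ℝ) ≤
      (1 / 2) ^ (n + 1) * 2 ^ (Rp n * n * bk n) := by
    have h1 := Ha.card_badFam (n := n) (X := X) (m := 2 ^ bl n) (nm (bl n))
      (fun l => fiber_le (bl_le_bk n) l) (by positivity) (2 * Lp n) (Rp n)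
      (by have := four_Lp_lt n; omega)
    refine h1.trans ?_
    rw [hcX, mul_pow]
    have h2 : (1 - (1 / 2 : ℝ) ^ (2 * Lp n)) ^ Rp n ≤ (1 / 2) ^ (2 * n + 1) := by
      have h3 := Ha.pow_le (2 ^ (2 * Lp n)) (2 * n + 1) (Rp n) (by positivity) (four_pow_Lp n)
      have h4 : (1 : ℝ) / ((2 ^ (2 * Lp n) : ℕ) : ℝ) = (1 / 2) ^ (2 * Lp n) := by
        push_cast
        rw [one_div_pow]
      rw [h4] at h3
      exact h3
    calc (2 : ℝ) ^ n * ((((2 ^ bk n : ℕ) : ℝ) ^ n) ^ Rp n * (1 - (1 / 2) ^ (2 * Lp n)) ^ Rp n)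
        ≤ (2 : ℝ) ^ n * ((((2 ^ bk n : ℕ) : ℝ) ^ n) ^ Rp n * (1 / 2) ^ (2 * n + 1)) := by gcongr
      _ = ((2 : ℝ) * (1 / 2)) ^ n * (1 / 2) ^ (n + 1) * 2 ^ (Rp n * n * bk n) := by
          rw [mul_pow]
          push_cast
          ring
      _ = (1 / 2) ^ (n + 1) * 2 ^ (Rp n * n * bk n) := by norm_num
  -- bad colours
  have hb2 : ∀ z : Z, ((univ.filter fun x : Y => (unc (run (rc (matrix G) (labOf (bl n) z)) sideF
      (gam (bc (dm (matrix G)))) (List.ofFn x) : St n (2 ^ bc (dm (matrix G))))).Nonempty).card : ℝ) ≤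
      (1 / 2) ^ (n + 1) * 2 ^ (Tp n * bk n) := by
    intro z
    have h1 := Cmp.unfinished_le (hyp (k := 2 ^ bc (dm (matrix G))) (H := labOf (bl n) z)
      (sym_matrix G) (length_matrix G) (Nat.lt_size_self _) (by
        rw [length_matrix]
        exact lab_lt z)) (by positivity) (X := X) (gam (bc (dm (matrix G)))) (by
        intro c
        have h2 := fiber_le (B := bk n) (bc_le_bk (dm_le_n G)) c.val
        rw [Fintype.card_subtype]
        convert h2 using 4
        simp [gam, Fin.ext_iff]) (Tp n)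
    refine (le_trans (le_of_eq ?_) h1).trans ?_
    · congr 1
    · rw [hcX, mul_pow]
      have h3 := three_quarters n hn
      have h4 : Tp n = 8 * n := rfl
      calc (2 : ℝ) ^ n * ((((2 ^ bk n : ℕ) : ℝ)) ^ Tp n * (3 / 4) ^ Tp n)
          = ((2 : ℝ) ^ n * (3 / 4) ^ (8 * n)) * 2 ^ (Tp n * bk n) := by
            rw [← h4]
            push_cast
            ring
        _ ≤ (1 / 2) ^ (n + 1) * 2 ^ (Tp n * bk n) := by gcongr
  -- together
  have hsub : (univ.filter fun p : Y × Z => ¬ Good G p.1 p.2) ⊆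
      ((univ : Finset Y) ×ˢ (Ha.badFam (nm (bl n)) n (2 * Lp n) (Rp n) : Finset Z)) ∪
      (univ : Finset Z).biUnion (fun z => (univ.filter fun x : Y =>
        (unc (run (rc (matrix G) (labOf (bl n) z)) sideF
        (gam (bc (dm (matrix G)))) (List.ofFn x) : St n (2 ^ bc (dm (matrix G))))).Nonempty) ×ˢ
        ({z} : Finset Z)) := by
    rintro ⟨x, z⟩ hp
    rw [mem_filter] at hp
    rw [mem_union]
    by_cases hz : z ∈ Ha.badFam (nm (bl n)) n (2 * Lp n) (Rp n)
    · left
      rw [mem_product]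
      exact ⟨mem_univ _, hz⟩
    · right
      rw [mem_biUnion]
      refine ⟨z, mem_univ _, ?_⟩
      rw [mem_product, mem_singleton, mem_filter]
      refine ⟨⟨mem_univ _, ?_⟩, rfl⟩
      by_contra hne
      exact hp.2 ⟨hz, hne⟩
  have h1 := (card_le_card hsub).trans (card_union_le _ _)
  have h2 : ((univ.filter fun p : Y × Z => ¬ Good G p.1 p.2).card : ℝ) ≤
      (((univ : Finset Y) ×ˢ (Ha.badFam (nm (bl n)) n (2 * Lp n) (Rp n) : Finset Z)).card : ℝ) +
      ∑ z : Z, (((univ.filter fun x : Y =>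
        (unc (run (rc (matrix G) (labOf (bl n) z)) sideF
        (gam (bc (dm (matrix G)))) (List.ofFn x) : St n (2 ^ bc (dm (matrix G))))).Nonempty) ×ˢ
        ({z} : Finset Z)).card : ℝ) := by
    have h3 := h1.trans (Nat.add_le_add_left card_biUnion_le _)
    exact_mod_cast h3
  refine h2.trans ?_
  rw [card_product, card_univ, hcY]
  have h3 : ∑ z : Z, (((univ.filter fun x : Y =>
        (unc (run (rc (matrix G) (labOf (bl n) z)) sideF
        (gam (bc (dm (matrix G)))) (List.ofFn x) : St n (2 ^ bc (dm (matrix G))))).Nonempty) ×ˢ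
        ({z} : Finset Z)).card : ℝ) ≤ ∑ _z : Z, ((1 / 2 : ℝ)) ^ (n + 1) * 2 ^ (Tp n * bk n) := by
    refine sum_le_sum fun z _ => ?_
    rw [card_product, card_singleton, mul_one]
    exact hb2 z
  rw [sum_const, card_univ, hcZ, nsmul_eq_mul] at h3
  push_cast at h3 ⊢
  have h4 : (2 : ℝ) ^ (Tp n * bk n) * ((Ha.badFam (nm (bl n)) n (2 * Lp n) (Rp n) : Finset Z).card : ℝ)
      ≤ 2 ^ (Tp n * bk n) * ((1 / 2) ^ (n + 1) * 2 ^ (Rp n * n * bk n)) :=
    mul_le_mul_of_nonneg_left hb1 (by positivity)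
  have h5 : (2 : ℝ) ^ ((Tp n + Rp n * n) * bk n) = 2 ^ (Tp n * bk n) * 2 ^ (Rp n * n * bk n) := by
    rw [← pow_add]
    congr 1
    ring
  rw [h5]
  have h6 : ((1 : ℝ) / 2) ^ n = (1 / 2) ^ (n + 1) + (1 / 2) ^ (n + 1) := by
    rw [pow_succ]
    ring
  rw [h6]
  calc _ ≤ 2 ^ (Tp n * bk n) * ((1 / 2 : ℝ) ^ (n + 1) * 2 ^ (Rp n * n * bk n)) +
      2 ^ (Rp n * n * bk n) * ((1 / 2) ^ (n + 1) * 2 ^ (Tp n * bk n)) := add_le_add h4 h3
    _ = _ := by ring

/-- The number of random bits. -/
noncomputable def rhoP : Polynomial ℕ :=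
  (8 * Polynomial.X + (64 * (Polynomial.X + 1) * (Polynomial.X + 1) * (2 * Polynomial.X + 1)) *
    Polynomial.X) * (2 * Polynomial.X + 8)

theorem rhoP_eval (n : ℕ) : rhoP.eval n = (Tp n + Rp n * n) * bk n := by
  unfold rhoP Tp Rp bk
  simp

theorem main (n : ℕ) (G : SimpleGraph (Fin n)) [DecidableRel G.Adj] :
    (2 ^ n - 1) * 2 ^ rhoP.eval n ≤ 2 ^ n * {r : List Bool | r.length = rhoP.eval n ∧
      ∃ c : Fin n → ℕ, alg (matrix G, r) = List.ofFn c ∧ Nonrepetitive G c ∧
        ∀ v, c v < max 1 (128 * G.maxDegree ^ 2)}.ncard := by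
  classical
  rcases Nat.eq_zero_or_pos n with rfl | hn
  · simp
  rw [rhoP_eval]
  set N := (Tp n + Rp n * n) * bk n with hN
  set A := {r : List Bool | r.length = N ∧
      ∃ c : Fin n → ℕ, alg (matrix G, r) = List.ofFn c ∧ Nonrepetitive G c ∧
        ∀ v, c v < max 1 (128 * G.maxDegree ^ 2)} with hA
  have hfin : A.Finite := by
    apply (List.finite_length_eq Bool N).subset
    intro r hr
    exact hr.1
  set P := (Fin (Tp n) → Fin (bk n) → Bool) × (Fin (Rp n) → Fin n → Fin (bk n) → Bool) with hP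
  have h1 : (univ.filter fun p : P => Good G p.1 p.2).card ≤ A.ncard := by
    have h2 : (((univ.filter fun p : P => Good G p.1 p.2).image fun p => glue p.1 p.2 :
        Finset (List Bool)) : Set (List Bool)) ⊆ A := by
      intro r hr
      rw [mem_coe, mem_image] at hr
      obtain ⟨p, hp, rfl⟩ := hr
      rw [mem_filter] at hp
      exact ⟨length_glue _ _, good_spec G hp.2⟩
    have h3 := Set.ncard_le_ncard h2 hfin
    rw [Set.ncard_coe_finset, card_image_of_injective _ glue_inj] at h3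
    exact h3
  have h2 := card_filter_add_card_filter_not (s := (univ : Finset P)) (fun p => Good G p.1 p.2)
  have h3 : Fintype.card P = 2 ^ N := by
    have h : Fintype.card ((Fin (Tp n) → Fin (bk n) → Bool) ×
        (Fin (Rp n) → Fin n → Fin (bk n) → Bool)) = (2 ^ bk n) ^ Tp n * ((2 ^ bk n) ^ n) ^ Rp n := by
      simp only [Fintype.card_prod, Fintype.card_fun, Fintype.card_fin, Fintype.card_bool]
    rw [h, ← pow_mul, ← pow_mul, ← pow_mul, ← pow_add, hN]
    congr 1
    ring
  rw [card_univ, h3] at h2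
  have h4 := card_bad G hn
  have h5 : 2 ^ n * (univ.filter fun p : P => ¬ Good G p.1 p.2).card ≤ 2 ^ N := by
    have h6 : (2 : ℝ) ^ n * ((univ.filter fun p : P => ¬ Good G p.1 p.2).card : ℝ) ≤ 2 ^ N := by
      calc (2 : ℝ) ^ n * ((univ.filter fun p : P => ¬ Good G p.1 p.2).card : ℝ)
          ≤ 2 ^ n * ((1 / 2) ^ n * 2 ^ N) := mul_le_mul_of_nonneg_left h4 (by positivity)
        _ = (2 * (1 / 2)) ^ n * 2 ^ N := by rw [mul_pow]; ring
        _ = 2 ^ N := by norm_num
    exact_mod_cast h6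
  have h6 : (2 ^ n - 1) * 2 ^ N = 2 ^ n * 2 ^ N - 2 ^ N := by rw [Nat.sub_mul, one_mul]
  rw [h6]
  have h7 : 2 ^ n * 2 ^ N = 2 ^ n * (univ.filter fun p : P => Good G p.1 p.2).card +
      2 ^ n * (univ.filter fun p : P => ¬ Good G p.1 p.2).card := by rw [← mul_add, h2]
  have h8 : 2 ^ n * (univ.filter fun p : P => Good G p.1 p.2).card ≤ 2 ^ n * A.ncard :=
    Nat.mul_le_mul_left _ h1
  omega

end Pool.Agent.NPC.H56N
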