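import Mathlib

/-!
# Nonrepetitive colourings, adjacency matrices and the probability of a property of random bits
-/

set_option autoImplicit false

namespace Pool.Agent.NPC.H56N

/-- A vertex colouring `c` of `G` is nonrepetitive: no path `v 0, v 1, …, v (2 t - 1)` with
`t ≥ 1` satisfies `c (v i) = c (v (t + i))` for all `i < t`. -/
def Nonrepetitive {V : Type} (G : SimpleGraph V) (c : V → ℕ) : Prop :=
  ∀ (t : ℕ) (v : ℕ → V), 1 ≤ t → (∀ i j, i < 2 * t → j < 2 * t → v i = v j → i = j) →
    (∀ i, i + 1 < 2 * t → G.Adj (v i) (v (i + 1))) → ¬ ∀ i < t, c (v i) = c (v (t + i))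

open Classical in
/-- The adjacency matrix of a graph on the vertices `0, …, n - 1`, as a list of rows. -/
noncomputable def matrix {n : ℕ} (G : SimpleGraph (Fin n)) : List (List Bool) :=
  List.ofFn fun i => List.ofFn fun j => decide (G.Adj i j)

open Classical in
/-- The probability that a list of `m` independent fair random bits has the property `P`: the
number of the lists of `m` bits with this property, divided by `2 ^ m`. -/
noncomputable def prob (m : ℕ) (P : List Bool → Prop) : ℝ :=
  ((Finset.univ.filter fun r : Fin m → Bool => P (List.ofFn r)).card : ℝ) / 2 ^ m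

end Pool.Agent.NPC.H56N
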