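import Pool.Agent.H56N.Process
import Pool.Agent.H56N.Stmt

/-!
# Graphs and their adjacency matrices; when the algorithm is successful
-/

set_option autoImplicit false

namespace Pool.Agent.NPC.H56N

open Finset Function
open Cmp (St unc mem_unc stepA after)

variable {n k : ℕ}

theorem length_matrix (G : SimpleGraph (Fin n)) : (matrix G).length = n := by simp [matrix]

theorem adj_matrix (G : SimpleGraph (Fin n)) (a b : Fin n) :
    adj (matrix G) a.val b.val = true ↔ G.Adj a b := by
  classical
  have h1 : (matrix G).getD a.val [] = List.ofFn fun j => decide (G.Adj a j) := by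
    simp [matrix, List.getD_eq_getElem?_getD]
  unfold adj
  rw [h1]
  simp [List.getD_eq_getElem?_getD]

theorem adj_matrix_lt {G : SimpleGraph (Fin n)} {a b : ℕ} (h : adj (matrix G) a b = true) :
    a < n ∧ b < n := by
  by_contra hne
  have : adj (matrix G) a b = false := by
    unfold adj
    by_cases ha : a < n
    · have hb : n ≤ b := by
        by_contra hb
        exact hne ⟨ha, by omega⟩
      apply List.getD_eq_default
      rw [List.getD_eq_getElem _ _ (by rw [length_matrix]; exact ha)]
      simpa [matrix] using hb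
    · rw [List.getD_eq_default (matrix G) [] (by rw [length_matrix]; omega)]
      rfl
  rw [h] at this
  exact absurd this (by simp)

theorem card_nb_eq (M : Mat) (a : ℕ) :
    (nb M a).card = ((List.range M.length).filter fun b => adj M a b).length := by
  unfold nb
  rw [← List.toFinset_card_of_nodup (List.nodup_range.filter _)]
  congr 1
  ext b
  simp

theorem row_matrix (G : SimpleGraph (Fin n)) {a : ℕ} (ha : a < n) :
    (matrix G).getD a [] = (List.range n).map fun b => adj (matrix G) a b := by
  apply List.ext_getElem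
  · rw [List.getD_eq_getElem _ _ (by rw [length_matrix]; exact ha)]
    simp [matrix]
  · intro i h1 h2
    simp only [List.getElem_map, List.getElem_range]
    unfold adj
    rw [List.getD_eq_getElem _ false h1]

theorem rowLen_eq (G : SimpleGraph (Fin n)) {a : ℕ} (ha : a < n) :
    (((matrix G).getD a []).filter fun b => b).length = (nb (matrix G) a).card := by
  rw [row_matrix G ha, card_nb_eq, length_matrix, List.filter_map, List.length_map]
  rfl

theorem le_foldr_max : ∀ (l : List ℕ) (x : ℕ), x ∈ l → x ≤ l.foldr max 0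
  | [], x, h => absurd h (by simp)
  | a :: l, x, h => by
    rw [List.foldr_cons]
    rcases List.mem_cons.1 h with rfl | h
    · exact le_max_left _ _
    · exact (le_foldr_max l x h).trans (le_max_right _ _)

theorem nb_le_dm (G : SimpleGraph (Fin n)) (a : ℕ) :
    (nb (matrix G) a).card ≤ dm (matrix G) := by
  by_cases ha : a < n
  · rw [← rowLen_eq G ha]
    apply le_foldr_max
    rw [List.mem_map]
    refine ⟨(matrix G).getD a [], ?_, rfl⟩
    rw [List.getD_eq_getElem _ _ (by rw [length_matrix]; exact ha)]
    exact List.getElem_mem _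
  · have : nb (matrix G) a = ∅ := by
      unfold nb
      rw [filter_eq_empty_iff]
      intro b _ hb
      exact ha (adj_matrix_lt hb).1
    rw [this]
    simp

theorem sym_matrix (G : SimpleGraph (Fin n)) : Sym (matrix G) (dm (matrix G)) where
  symm a b h := by
    obtain ⟨h1, h2⟩ := adj_matrix_lt h
    have h3 := (adj_matrix G ⟨a, h1⟩ ⟨b, h2⟩).1 h
    exact (adj_matrix G ⟨b, h2⟩ ⟨a, h1⟩).2 h3.symm
  lt a b h := by
    rw [length_matrix]
    exact (adj_matrix_lt h).2
  deg a := nb_le_dm G a

theorem dm_le_maxDegree (G : SimpleGraph (Fin n)) [DecidableRel G.Adj] :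
    dm (matrix G) ≤ G.maxDegree := by
  apply P.foldr_max_le
  intro x hx
  rw [List.mem_map] at hx
  obtain ⟨w, hw, rfl⟩ := hx
  obtain ⟨a, ha, rfl⟩ := List.getElem_of_mem hw
  have ha' : a < n := by rwa [length_matrix] at ha
  have h1 : (matrix G)[a] = (matrix G).getD a [] := (List.getD_eq_getElem _ _ ha).symm
  rw [h1, rowLen_eq G ha']
  refine le_trans ?_ (G.degree_le_maxDegree ⟨a, ha'⟩)
  rw [← SimpleGraph.card_neighborFinset_eq_degree]
  refine card_le_card_of_injOn (fun b => if h : b < n then (⟨b, h⟩ : Fin n) else ⟨a, ha'⟩) ?_ ?_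
  · intro b hb
    have hb' : adj (matrix G) a b = true := by
      have := (mem_coe.1 hb)
      unfold nb at this
      exact (mem_filter.1 this).2
    obtain ⟨_, h3⟩ := adj_matrix_lt hb'
    simp only [h3, dif_pos]
    rw [mem_coe, SimpleGraph.mem_neighborFinset]
    exact (adj_matrix G ⟨a, ha'⟩ ⟨b, h3⟩).1 hb'
  · intro b hb b' hb' hbb
    have h1 : b < n := by
      have := (mem_coe.1 hb)
      unfold nb at this
      exact (adj_matrix_lt (mem_filter.1 this).2).2
    have h2 : b' < n := by
      have := (mem_coe.1 hb')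
      unfold nb at this
      exact (adj_matrix_lt (mem_filter.1 this).2).2
    simp only [h1, h2, dif_pos] at hbb
    exact congrArg Fin.val hbb

theorem two_pow_bc (d : ℕ) : 2 ^ bc d ≤ max 1 (128 * d ^ 2) := by
  unfold bc
  rcases Nat.eq_zero_or_pos d with rfl | hd
  · simp
  · have h0 : 0 < 64 * (d * d) := by positivity
    have h2 : 0 < (64 * (d * d)).size := Nat.size_pos.2 h0
    have h1 : 2 ^ ((64 * (d * d)).size - 1) ≤ 64 * (d * d) := Nat.lt_size.1 (by omega)
    have h3 : 2 ^ (64 * (d * d)).size = 2 ^ ((64 * (d * d)).size - 1) * 2 := by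
      rw [← pow_succ]
      congr 1
      omega
    rw [h3]
    refine le_trans ?_ (le_max_right _ _)
    rw [sq]
    omega

/-! ### Successful runs -/

/-- The pairs of a repetitively coloured path. -/
def walkE (v : ℕ → Fin n) (t : ℕ) : ℕ → Ent
  | 0 => []
  | j + 1 => ((v j).val, (v (t + j)).val) :: walkE v t j

theorem length_walkE (v : ℕ → Fin n) (t : ℕ) : ∀ j, (walkE v t j).length = j
  | 0 => rfl
  | j + 1 => by simp [walkE, length_walkE v t j]

theorem mem_walkE {v : ℕ → Fin n} {t : ℕ} : ∀ {j : ℕ} {p : ℕ × ℕ}, p ∈ walkE v t j →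
    ∃ i < j, p = ((v i).val, (v (t + i)).val)
  | 0, p, h => absurd h (by simp [walkE])
  | j + 1, p, h => by
    unfold walkE at h
    rcases List.mem_cons.1 h with rfl | h
    · exact ⟨j, by omega, rfl⟩
    · obtain ⟨i, hi, rfl⟩ := mem_walkE h
      exact ⟨i, by omega, rfl⟩

theorem lastP_walkE (v : ℕ → Fin n) (t : ℕ) : ∀ j, lastP (walkE v t (j + 1)) =
    ((v 0).val, (v t).val)
  | 0 => by simp [walkE, lastP]
  | j + 1 => by
    have : walkE v t (j + 1 + 1) = ((v (j + 1)).val, (v (t + (j + 1))).val) ::
      walkE v t (j + 1) := rfl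
    rw [this, lastP_cons (by simp [walkE])]
    exact lastP_walkE v t j

theorem joined_walkE {G : SimpleGraph (Fin n)} {v : ℕ → Fin n} {t : ℕ}
    (hadj : ∀ i, i + 1 < 2 * t → G.Adj (v i) (v (i + 1))) : ∀ j ≤ t,
    Joined (matrix G) (walkE v t j)
  | 0, _ => by simp [walkE, Joined]
  | 1, _ => by simp [walkE, Joined]
  | j + 2, hj => by
    have ih := joined_walkE hadj (j + 1) (by omega)
    unfold Joined at ih ⊢
    change List.IsChain _ (((v (j + 1)).val, (v (t + (j + 1))).val) ::
      ((v j).val, (v (t + j)).val) :: walkE v t j)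
    rw [List.isChain_cons_cons]
    refine ⟨⟨?_, ?_⟩, ih⟩
    · exact (adj_matrix G _ _).2 (hadj j (by omega))
    · exact (adj_matrix G _ _).2 (hadj (t + j) (by omega))

theorem nodup_walkE {v : ℕ → Fin n} {t : ℕ}
    (hinj : ∀ i j, i < 2 * t → j < 2 * t → v i = v j → i = j) {j : ℕ} (hj : j ≤ t) :
    (verts (walkE v t j)).Nodup := by
  have h1 : ∀ j, (walkE v t j).map (fun p => p.1) =
      (List.range j).reverse.map fun i => (v i).val := by
    intro j
    induction j with
    | zero => rfl
    | succ j ih =>
      rw [List.range_succ, List.reverse_append]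
      simp only [walkE, List.map_cons, ih, List.reverse_singleton, List.singleton_append]
  have h2 : ∀ j, (walkE v t j).map (fun p => p.2) =
      (List.range j).reverse.map fun i => (v (t + i)).val := by
    intro j
    induction j with
    | zero => rfl
    | succ j ih =>
      rw [List.range_succ, List.reverse_append]
      simp only [walkE, List.map_cons, ih, List.reverse_singleton, List.singleton_append]
  unfold verts
  rw [h1, h2, List.nodup_append]
  refine ⟨?_, ?_, ?_⟩
  · refine List.Nodup.map_on ?_ (List.nodup_reverse.2 List.nodup_range)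
    intro a ha b hb hab
    rw [List.mem_reverse, List.mem_range] at ha hb
    exact hinj a b (by omega) (by omega) (Fin.ext hab)
  · refine List.Nodup.map_on ?_ (List.nodup_reverse.2 List.nodup_range)
    intro a ha b hb hab
    rw [List.mem_reverse, List.mem_range] at ha hb
    have := hinj (t + a) (t + b) (by omega) (by omega) (Fin.ext hab)
    omega
  · intro a ha b hb hab
    rw [List.mem_map] at ha hb
    obtain ⟨i, hi, rfl⟩ := ha
    obtain ⟨i', hi', rfl⟩ := hb
    rw [List.mem_reverse, List.mem_range] at hi hi'
    have := hinj i (t + i') (by omega) (by omega) (Fin.ext hab)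
    omega

/-- The family of labellings is good. -/
def Perfect (n : ℕ) (H : List (List ℕ)) : Prop :=
  ∀ S : Finset (Fin n), S.card ≤ 2 * Lp n → ∃ h ∈ H,
    Set.InjOn (fun v : Fin n => lab h v.val) (S : Set (Fin n))

theorem perfect_list {H : List (List ℕ)} (hH : Perfect n H) {u : List ℕ} (hu : u.Nodup)
    (hn : ∀ x ∈ u, x < n) (hl : u.length ≤ 2 * Lp n) : ∃ h ∈ H, (u.map (lab h)).Nodup := by
  obtain ⟨h, h1, h2⟩ := hH (univ.filter fun v : Fin n => v.val ∈ u) (by
    have : (univ.filter fun v : Fin n => v.val ∈ u).card ≤ u.toFinset.card := by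
      refine card_le_card_of_injOn (fun v => v.val) ?_ (fun a _ b _ h => Fin.ext h)
      intro v hv
      have := mem_coe.1 hv
      rw [mem_filter] at this
      simpa using this.2
    exact this.trans ((List.toFinset_card_le u).trans hl))
  refine ⟨h, h1, ?_⟩
  refine List.Nodup.map_on ?_ hu
  intro x hx y hy hxy
  have := @h2 ⟨x, hn x hx⟩ (by simpa using hx) ⟨y, hn y hy⟩ (by simpa using hy) hxy
  exact congrArg Fin.val this

theorem nonrep_of_inv {G : SimpleGraph (Fin n)} {H : List (List ℕ)} {φ : St n k}
    (hI : Inv (matrix G) H φ) (hU : ¬ (unc φ).Nonempty) (hH : Perfect n H) :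
    Nonrepetitive G fun v => ((φ v).map Fin.val).getD 0 := by
  intro t v ht hinj hadj hcol
  set j := min t (Lp n) with hj
  have hL : 2 ≤ Lp n := by unfold Lp; omega
  have hjt : j ≤ t := min_le_left _ _
  have hj1 : 1 ≤ j := le_min ht (by omega)
  have hlen := length_walkE v t j
  obtain ⟨h, hh, hlab⟩ := perfect_list hH (nodup_walkE hinj hjt) (by
    intro x hx
    unfold verts at hx
    rw [List.mem_append, List.mem_map, List.mem_map] at hx
    rcases hx with ⟨p, hp, rfl⟩ | ⟨p, hp, rfl⟩
    · obtain ⟨i, _, rfl⟩ := mem_walkE hp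
      exact (v i).isLt
    · obtain ⟨i, _, rfl⟩ := mem_walkE hp
      exact (v (t + i)).isLt) (by
    unfold verts
    rw [List.length_append, List.length_map, List.length_map, hlen]
    have : j ≤ Lp n := min_le_right _ _
    omega)
  have hv : Valid (matrix G) (toL φ) h (walkE v t j) := by
    rw [valid_iff]
    refine ⟨?_, ?_, hlab, joined_walkE hadj j hjt⟩
    · intro p hp
      obtain ⟨i, _, rfl⟩ := mem_walkE hp
      rw [length_matrix]
      exact ⟨(v i).isLt, (v (t + i)).isLt⟩
    · intro p hp
      obtain ⟨i, hi, rfl⟩ := mem_walkE hp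
      simp only
      rw [getC_toL, getC_toL]
      have hc := hcol i (by omega)
      have hs : ∀ w : Fin n, ∃ c, φ w = some c := by
        intro w
        rw [not_nonempty_iff_eq_empty] at hU
        have h2 : w ∉ unc φ := by rw [hU]; simp
        rw [mem_unc] at h2
        exact Option.ne_none_iff_exists'.1 h2
      obtain ⟨c1, hc1⟩ := hs (v i)
      obtain ⟨c2, hc2⟩ := hs (v (t + i))
      simp only [hc1, hc2, Option.map_some, Option.getD_some, Option.isSome_some, true_and] at hc ⊢
      rw [hc]
  have h1 := hI h hh _ hv (by omega) (by rw [hlen, length_matrix]; exact min_le_right _ _)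
  have h2 : viol (matrix G) (walkE v t j) = true := by
    obtain ⟨i, hi⟩ : ∃ i, j = i + 1 := ⟨j - 1, by omega⟩
    unfold viol
    rw [hi, lastP_walkE]
    change (adj (matrix G) (v i).val (v t).val ||
      decide ((walkE v t (i + 1)).length = Lp (matrix G).length)) = true
    rw [length_walkE, length_matrix, Bool.or_eq_true, decide_eq_true_eq]
    rcases le_or_gt t (Lp n) with h3 | h3
    · left
      have h4 : j = t := min_eq_left h3
      have h5 : t = i + 1 := by omega
      rw [h5]
      exact (adj_matrix G _ _).2 (hadj i (by omega))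
    · right
      have h4 : j = Lp n := min_eq_right h3.le
      omega
  rw [h1] at h2
  exact absurd h2 (by simp)

end Pool.Agent.NPC.H56N
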