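import Pool.Agent.H56N.Records
import Pool.Agent.H56N.Compress

/-!
# The algorithm as a random process
-/

set_option autoImplicit false

namespace Pool.Agent.NPC.H56N

open Finset Function
open Cmp (St unc mem_unc stepA after)

variable {n k : ℕ}

/-- The list of a partial colouring. -/
def toL (φ : St n k) : List (Option ℕ) := List.ofFn fun i => (φ i).map Fin.val

theorem length_toL (φ : St n k) : (toL φ).length = n := by simp [toL]

theorem getC_toL (φ : St n k) (i : Fin n) : getC (toL φ) i.val = (φ i).map Fin.val := by
  unfold getC toL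
  rw [List.getD_eq_getElem _ _ (by simp)]
  simp

theorem getC_toL_lt (φ : St n k) {a : ℕ} (ha : a < n) :
    getC (toL φ) a = (φ ⟨a, ha⟩).map Fin.val := getC_toL φ ⟨a, ha⟩

theorem getC_toL_ge (φ : St n k) {a : ℕ} (ha : n ≤ a) : getC (toL φ) a = none := by
  unfold getC
  rw [List.getD_eq_default _ _ (by rw [length_toL]; exact ha)]

theorem setC_toL (φ : St n k) (v : Fin n) (c : Fin k) :
    setC (toL φ) v.val c.val = toL (update φ v (some c)) := by
  unfold setC
  apply List.ext_getElem
  · rw [List.length_map, List.length_range, length_toL, length_toL]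
  · intro i h1 h2
    rw [length_toL] at h2
    simp only [List.getElem_map, List.getElem_range]
    by_cases hi : i = v.val
    · have : (⟨i, h2⟩ : Fin n) = v := Fin.ext hi
      simp [hi, toL]
    · have : (⟨i, h2⟩ : Fin n) ≠ v := fun h => hi (congrArg Fin.val h)
      rw [getC_toL_lt φ h2]
      simp [hi, toL, update_of_ne this]

theorem unset_toL (φ : St n k) (S : List ℕ) :
    unset (toL φ) S = toL (fun w => if w.val ∈ S then none else φ w) := by
  unfold unset
  apply List.ext_getElem
  · rw [List.length_map, List.length_range, length_toL, length_toL]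
  · intro i h1 h2
    rw [length_toL] at h2
    simp only [List.getElem_map, List.getElem_range]
    rw [getC_toL_lt φ h2]
    by_cases hi : i ∈ S
    · simp [hi, toL]
    · simp [hi, toL]

theorem first_toL (φ : St n k) (h : (unc φ).Nonempty) :
    first (toL φ) = some ((unc φ).min' h).val := by
  unfold first
  rw [List.head?_filter, List.find?_range_eq_some, length_toL]
  have h1 := mem_unc.1 ((unc φ).min'_mem h)
  refine ⟨?_, ?_, ?_⟩
  · rw [getC_toL, h1]
    rfl
  · simp
  · intro j hj
    have hjn : j < n := by omega
    rw [getC_toL_lt φ hjn]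
    cases hφ : φ ⟨j, hjn⟩ with
    | none =>
      have := (unc φ).min'_le ⟨j, hjn⟩ (mem_unc.2 hφ)
      exact absurd hj (not_lt.2 this)
    | some c => rfl

theorem first_toL_none (φ : St n k) (h : ¬ (unc φ).Nonempty) : first (toL φ) = none := by
  unfold first
  rw [List.head?_filter, List.find?_eq_none]
  intro j hj
  rw [List.mem_range, length_toL] at hj
  rw [getC_toL_lt φ hj]
  rw [not_nonempty_iff_eq_empty] at h
  have h2 : (⟨j, hj⟩ : Fin n) ∉ unc φ := by rw [h]; simp
  rw [mem_unc] at h2
  cases hφ : φ ⟨j, hj⟩ with
  | none => exact absurd hφ h2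
  | some c => simp

/-- The record. -/
def rc (M : Mat) (H : List (List ℕ)) (φ : St n k) : Option Ent := find M H (toL φ)

theorem step_toL (M : Mat) (H : List (List ℕ)) (φ : St n k) (c : Fin k) :
    step M H (toL φ) c.val = toL (stepA (rc M H) sideF φ c) := by
  unfold step stepA
  by_cases h : (unc φ).Nonempty
  · rw [first_toL φ h, dif_pos h]
    simp only
    rw [setC_toL]
    unfold after
    have e1 : rc M H (update φ ((unc φ).min' h) (some c)) =
        find M H (toL (update φ ((unc φ).min' h) (some c))) := rfl
    rw [e1]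
    cases hf : find M H (toL (update φ ((unc φ).min' h) (some c))) with
    | none => rfl
    | some e =>
      simp only
      rw [unset_toL]
      congr 1
      funext w
      simp [sideF]
  · rw [first_toL_none φ h, dif_neg h]

/-- There is no bad list of pairs. -/
def Inv (M : Mat) (H : List (List ℕ)) (φ : St n k) : Prop :=
  ∀ h ∈ H, ∀ e, Valid M (toL φ) h e → 1 ≤ e.length → e.length ≤ Lp M.length → viol M e = false

theorem partner_of_mem {e : Ent} (he : (verts e).Nodup) {v w : ℕ} (hw : w ∈ sideL e v) :
    ∃ u, u ∉ sideL e v ∧ ((w, u) ∈ e ∨ (u, w) ∈ e) := by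
  unfold verts at he
  rw [List.nodup_append] at he
  obtain ⟨_, _, h3⟩ := he
  unfold sideL at hw ⊢
  by_cases hd : v ∈ e.map fun p => p.1
  · simp only [hd, decide_true, cond_true] at hw ⊢
    obtain ⟨p, hp, rfl⟩ := List.mem_map.1 hw
    refine ⟨p.2, fun h => ?_, Or.inl hp⟩
    exact h3 _ h _ (List.mem_map_of_mem (f := fun p : ℕ × ℕ => p.2) hp) rfl
  · simp only [hd, decide_false, cond_false] at hw ⊢
    obtain ⟨p, hp, rfl⟩ := List.mem_map.1 hw
    refine ⟨p.1, fun h => ?_, Or.inr hp⟩
    exact h3 _ (List.mem_map_of_mem (f := fun p : ℕ × ℕ => p.1) hp) _ h rfl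

open Classical in
/-- The partner of a vertex. -/
noncomputable def par (e : Ent) (v w : Fin n) : Fin n :=
  if h : ∃ u : Fin n, u.val ∉ sideL e v.val ∧ ((w.val, u.val) ∈ e ∨ (u.val, w.val) ∈ e) then
    h.choose else w

theorem mem_sideL_self {e : Ent} {v : ℕ} (hv : v ∈ verts e) : v ∈ sideL e v := by
  unfold verts at hv
  rw [List.mem_append] at hv
  unfold sideL
  by_cases h : v ∈ e.map fun p => p.1
  · simp only [h, decide_true, cond_true]
  · simp only [h, decide_false, cond_false]
    exact hv.resolve_left h

theorem mem_sideF {e : Ent} {v w : Fin n} : w ∈ sideF e v ↔ w.val ∈ sideL e v.val := by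
  simp [sideF]

variable {M : Mat} {H : List (List ℕ)} {d : ℕ}

theorem colored_of_valid {s : List (Option ℕ)} {h : List ℕ} {e : Ent} (hv : Valid M s h e)
    {w : ℕ} (hw : w ∈ verts e) : (getC s w).isSome = true := by
  obtain ⟨-, hcol, -, -⟩ := valid_iff.1 hv
  unfold verts at hw
  rw [List.mem_append, List.mem_map, List.mem_map] at hw
  rcases hw with ⟨p, hp, rfl⟩ | ⟨p, hp, rfl⟩
  · exact (hcol p hp).1
  · rw [← (hcol p hp).2]
    exact (hcol p hp).1

theorem hyp (hM : Sym M d) (hn : M.length = n) (hk : 64 * (d * d) < k)
    (hH : ∀ h ∈ H, ∀ a, lab h a < 8 * Lp M.length) :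
    Cmp.Hyp (rc M H) (sideF (n := n)) par (recR M) (Inv (k := k) M H) := by
  refine ⟨?_, ?_, ?_, fun v => wt_recR hM hk v⟩
  · intro h hh e hv h1 h2
    exfalso
    obtain ⟨p, e', rfl⟩ : ∃ p e', e = p :: e' := List.exists_cons_of_ne_nil (by
      intro h0
      rw [h0] at h1
      simp at h1)
    have h3 := colored_of_valid hv (w := p.1) (by unfold verts; simp)
    have h4 : p.1 < n := hn ▸ (valid_lt hv p (by simp)).1
    rw [getC_toL_lt _ h4] at h3
    simp [Cmp.init] at h3
  · intro φ c hI
    unfold stepA
    split_ifs with h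
    swap
    · exact hI
    set v := (unc φ).min' h with hv
    have hv0 : φ v = none := mem_unc.1 (min'_mem _ _)
    unfold after
    cases hr : rc M H (update φ v (some c)) with
    | none => exact find_none hr hH
    | some e =>
      intro g hg e' hv' h1 h2
      refine hI g hg e' (hv'.congr ?_) h1 h2
      intro w hw
      have h3 := colored_of_valid hv' hw
      have hwn : w < n := by
        by_contra hge
        rw [getC_toL_ge _ (not_lt.1 hge)] at h3
        simp at h3
      rw [getC_toL_lt _ hwn] at h3 ⊢
      rw [getC_toL_lt _ hwn]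
      obtain ⟨h₀, hh₀, hve, h4, h5, h6⟩ := find_some hr
      by_cases hws : (⟨w, hwn⟩ : Fin n) ∈ sideF e v
      · simp [hws] at h3
      · simp only [hws, if_false] at h3 ⊢
        have hwv : (⟨w, hwn⟩ : Fin n) ≠ v := by
          intro hwv
          have hvv : v.val ∉ verts e := by
            intro hmem
            apply hws
            rw [hwv]
            exact mem_sideF.2 (mem_sideL_self hmem)
          have h7 : Valid M (toL φ) h₀ e := by
            refine hve.congr fun u hu => ?_
            have huv : u ≠ v.val := fun h => hvv (h ▸ hu)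
            have hun : u < n := by
              by_contra hge
              have := colored_of_valid hve hu
              rw [getC_toL_ge _ (not_lt.1 hge)] at this
              simp at this
            rw [getC_toL_lt _ hun, getC_toL_lt _ hun, update_of_ne]
            exact fun h => huv (congrArg Fin.val h)
          have h8 := hI h₀ hh₀ e h7 h4 h5
          rw [h6] at h8
          exact absurd h8 (by simp)
        rw [update_of_ne hwv]
  · intro φ hI v hv0 c e hr
    obtain ⟨h₀, hh₀, hve, h4, h5, h6⟩ := find_some hr
    have hvv : v.val ∈ verts e := by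
      by_contra hvv
      have h7 : Valid M (toL φ) h₀ e := by
        refine hve.congr fun u hu => ?_
        have huv : u ≠ v.val := fun h => hvv (h ▸ hu)
        have hun : u < n := by
          by_contra hge
          have := colored_of_valid hve hu
          rw [getC_toL_ge _ (not_lt.1 hge)] at this
          simp at this
        rw [getC_toL_lt _ hun, getC_toL_lt _ hun, update_of_ne]
        exact fun h => huv (congrArg Fin.val h)
      have h8 := hI h₀ hh₀ e h7 h4 h5
      rw [h6] at h8
      exact absurd h8 (by simp)
    refine ⟨mem_recR hM hn hve h4 h5 h6 hvv, mem_sideF.2 (mem_sideL_self hvv), ?_⟩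
    intro w hw
    have hnd := nodup_verts hve
    obtain ⟨hlt, hcol, -, -⟩ := valid_iff.1 hve
    have hex : ∃ u : Fin n, u.val ∉ sideL e v.val ∧
        ((w.val, u.val) ∈ e ∨ (u.val, w.val) ∈ e) := by
      obtain ⟨u, hu1, hu2⟩ := partner_of_mem hnd (mem_sideF.1 hw)
      have hun : u < n := by
        rcases hu2 with hu2 | hu2
        · exact hn ▸ (hlt _ hu2).2
        · exact hn ▸ (hlt _ hu2).1
      exact ⟨⟨u, hun⟩, hu1, hu2⟩
    have hpar : par e v w = hex.choose := by
      unfold par
      rw [dif_pos hex]
    obtain ⟨hu1, hu2⟩ := hex.choose_spec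
    rw [← hpar] at hu1 hu2
    have hc1 : (update φ v (some c) w).map Fin.val =
        (update φ v (some c) (par e v w)).map Fin.val := by
      rw [← getC_toL, ← getC_toL]
      rcases hu2 with hu2 | hu2
      · exact (hcol _ hu2).2
      · exact ((hcol _ hu2).2).symm
    refine ⟨fun h => hu1 (mem_sideF.1 h), ?_, ?_⟩
    · exact Option.map_injective Fin.val_injective hc1
    · intro h0
      have := colored_of_valid hve (sideL_subset (mem_sideF.1 hw))
      rw [getC_toL, h0] at this
      simp at this

end Pool.Agent.NPC.H56N
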