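import Pool.Agent.H56N.Search
import Pool.Agent.H56N.Chains

/-!
# The lists of pairs found by the search, and their number
-/

set_option autoImplicit false

namespace Pool.Agent.NPC.H56N

open Finset

/-- All vertices of a list of pairs. -/
def verts (e : Ent) : List ℕ := (e.map fun p => p.1) ++ e.map fun p => p.2

/-- Consecutive pairs are joined. -/
def Joined (M : Mat) (e : Ent) : Prop :=
  e.IsChain fun p q => adj M q.1 p.1 = true ∧ adj M q.2 p.2 = true

variable {M : Mat} {s : List (Option ℕ)} {h : List ℕ}

theorem joined_iff {e : Ent} {p : ℕ × ℕ} (he : Joined M e) :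
    joined M e p = true ↔ Joined M (p :: e) := by
  unfold joined Joined
  cases e with
  | nil => simp
  | cons q e =>
    simp only [List.head?_cons, Bool.and_eq_true, List.isChain_cons_cons]
    exact ⟨fun h => ⟨h, he⟩, fun h => h.1⟩

theorem labs_perm (h : List ℕ) (e : Ent) : (labs h e).Perm ((verts e).map (lab h)) := by
  induction e with
  | nil => exact List.Perm.refl _
  | cons p e ih =>
    rw [labs_cons]
    unfold verts at ih ⊢
    simp only [List.map_cons, List.cons_append, List.map_append] at ih ⊢
    refine List.Perm.cons _ ?_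
    refine (List.Perm.cons _ ih).trans ?_
    exact List.perm_middle.symm

theorem valid_iff {e : Ent} : Valid M s h e ↔
    (∀ p ∈ e, p.1 < M.length ∧ p.2 < M.length) ∧
    (∀ p ∈ e, (getC s p.1).isSome = true ∧ getC s p.1 = getC s p.2) ∧
    ((verts e).map (lab h)).Nodup ∧ Joined M e := by
  rw [← (labs_perm h e).nodup_iff]
  induction e with
  | nil => simp [Valid, labs, Joined]
  | cons p e ih =>
    unfold Valid
    rw [ih, List.forall_mem_cons, List.forall_mem_cons]
    unfold ok
    simp only [Bool.and_eq_true, Bool.not_eq_true', decide_eq_false_iff_not, decide_eq_true_eq,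
      labs_cons, List.nodup_cons, List.mem_cons, not_or]
    constructor
    · rintro ⟨h1, ⟨⟨⟨⟨⟨h2, h3⟩, h4⟩, h5⟩, h6⟩, h7⟩, h8, h9, h10, h11⟩
      exact ⟨⟨h1, h8⟩, ⟨⟨h2, h3⟩, h9⟩, ⟨⟨h4, h5⟩, h6, h10⟩, (joined_iff h11).1 h7⟩
    · rintro ⟨⟨h1, h8⟩, ⟨⟨h2, h3⟩, h9⟩, ⟨⟨h4, h5⟩, h6, h10⟩, h7⟩
      have h11 : Joined M e := by
        unfold Joined at h7 ⊢
        exact h7.tail
      exact ⟨h1, ⟨⟨⟨⟨⟨h2, h3⟩, h4⟩, h5⟩, h6⟩, (joined_iff h11).2 h7⟩, h8, h9, h10, h11⟩

/-- Validity depends on the colours of the vertices in the list only. -/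
theorem Valid.congr {s' : List (Option ℕ)} {e : Ent} (hv : Valid M s h e)
    (hs : ∀ v ∈ verts e, getC s v = getC s' v) : Valid M s' h e := by
  rw [valid_iff] at hv ⊢
  obtain ⟨h1, h2, h3, h4⟩ := hv
  refine ⟨h1, fun p hp => ?_, h3, h4⟩
  have e1 := hs p.1 (by unfold verts; exact List.mem_append_left _ (List.mem_map_of_mem hp))
  have e2 := hs p.2 (by unfold verts; exact List.mem_append_right _ (List.mem_map_of_mem hp))
  rw [← e1, ← e2]
  exact h2 p hp

theorem nodup_verts {e : Ent} (hv : Valid M s h e) : (verts e).Nodup :=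
  List.Nodup.of_map _ (valid_iff.1 hv).2.2.1

/-! ### The records -/

/-- The neighbours of a vertex. -/
def nb (M : Mat) (a : ℕ) : Finset ℕ := (range M.length).filter fun b => adj M a b = true

/-- Assumptions on the matrix: symmetric, and at most `d` ones in each row. -/
structure Sym (M : Mat) (d : ℕ) : Prop where
  symm : ∀ a b, adj M a b = true → adj M b a = true
  lt : ∀ a b, adj M a b = true → b < M.length
  deg : ∀ a, (nb M a).card ≤ d

/-- The vertices of `Fin n` on the side of `e` which contains `v`. -/
def sideF {n : ℕ} (e : Ent) (v : Fin n) : Finset (Fin n) :=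
  univ.filter fun w => w.val ∈ sideL e v.val

/-- Joined pairs of paths of length `j` through `v`. -/
def recA (M : Mat) (v j : ℕ) : Finset Ent :=
  (Ch.thru (nb M) v (2 * j)).image fun l => List.zip (l.take j).reverse (l.drop j).reverse

/-- Arbitrary pairs of paths of length `j` through `v`. -/
def recB (M : Mat) (v j : ℕ) : Finset Ent :=
  ((Ch.thru (nb M) v j ×ˢ Ch.allc (nb M) M.length j) ∪
    (Ch.allc (nb M) M.length j ×ˢ Ch.thru (nb M) v j)).image fun x => List.zip x.1 x.2

/-- The records of length `j`. -/
def recJ {n : ℕ} (M : Mat) (v : Fin n) (j : ℕ) : Finset Ent :=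
  (recA M v j ∪ if j = Lp M.length then recB M v j else ∅).filter fun e => (sideF e v).card = j

/-- The records. -/
def recR {n : ℕ} (M : Mat) (v : Fin n) : Finset Ent := (Icc 1 (Lp M.length)).biUnion (recJ M v)

variable {d : ℕ}

theorem nodup_sideL {e : Ent} (he : (verts e).Nodup) (v : ℕ) : (sideL e v).Nodup := by
  unfold verts at he
  rw [List.nodup_append] at he
  unfold sideL
  cases decide (v ∈ e.map fun p => p.1)
  · exact he.2.1
  · exact he.1

theorem sideL_subset {e : Ent} {v w : ℕ} (hw : w ∈ sideL e v) : w ∈ verts e := by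
  unfold sideL at hw
  unfold verts
  cases hd : decide (v ∈ e.map fun p => p.1) <;> rw [hd] at hw
  · exact List.mem_append_right _ hw
  · exact List.mem_append_left _ hw

theorem length_sideL (e : Ent) (v : ℕ) : (sideL e v).length = e.length := by
  unfold sideL
  cases decide (v ∈ e.map fun p => p.1) <;> simp

theorem card_sideF {n : ℕ} (hn : M.length = n) {e : Ent} (he : (verts e).Nodup)
    (hlt : ∀ p ∈ e, p.1 < M.length ∧ p.2 < M.length) (v : Fin n) :
    (sideF e v).card = e.length := by
  have h1 : (sideF e v).image (fun w => w.val) = (sideL e v.val).toFinset := by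
    ext w
    simp only [mem_image, sideF, mem_filter, mem_univ, true_and, List.mem_toFinset]
    constructor
    · rintro ⟨x, hx, rfl⟩
      exact hx
    · intro hw
      have h2 := sideL_subset hw
      have h3 : w < n := by
        unfold verts at h2
        rw [List.mem_append, List.mem_map, List.mem_map] at h2
        rcases h2 with ⟨p, hp, rfl⟩ | ⟨p, hp, rfl⟩
        · exact hn ▸ (hlt p hp).1
        · exact hn ▸ (hlt p hp).2
      exact ⟨⟨w, h3⟩, hw, rfl⟩
  have h2 : ((sideF e v).image (fun w => w.val)).card = (sideF e v).card :=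
    card_image_of_injective _ Fin.val_injective
  rw [← h2, h1, List.toFinset_card_of_nodup (nodup_sideL he _), length_sideL]

theorem chain_fst (hM : Sym M d) {e : Ent} (he : Joined M e) :
    (e.map fun p => p.1).IsChain fun a b => adj M a b = true := by
  rw [List.isChain_map]
  exact he.imp fun p q h => hM.symm _ _ h.1

theorem chain_snd (hM : Sym M d) {e : Ent} (he : Joined M e) :
    (e.map fun p => p.2).IsChain fun a b => adj M a b = true := by
  rw [List.isChain_map]
  exact he.imp fun p q h => hM.symm _ _ h.2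

theorem mem_nb (hM : Sym M d) {a b : ℕ} (h : adj M a b = true) : b ∈ nb M a := by
  unfold nb
  rw [mem_filter, mem_range]
  exact ⟨hM.lt _ _ h, h⟩

theorem mem_recR (hM : Sym M d) {n : ℕ} (hn : M.length = n) {e : Ent} (hv : Valid M s h e)
    (h1 : 1 ≤ e.length) (h2 : e.length ≤ Lp M.length) (hviol : viol M e = true) {v : Fin n}
    (hve : v.val ∈ verts e) : e ∈ recR M v := by
  obtain ⟨hlt, hcol, hlab, hj⟩ := valid_iff.1 hv
  have hnd := nodup_verts hv
  unfold recR
  rw [mem_biUnion]
  refine ⟨e.length, mem_Icc.2 ⟨h1, h2⟩, ?_⟩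
  unfold recJ
  rw [mem_filter]
  refine ⟨?_, card_sideF hn hnd hlt v⟩
  obtain ⟨q, e', rfl⟩ : ∃ q e', e = q :: e' := List.exists_cons_of_ne_nil (by
    intro h0
    rw [h0] at h1
    simp at h1)
  have hviol' : adj M q.1 (lastP (q :: e')).2 = true ∨ (q :: e').length = Lp M.length := by
    unfold viol at hviol
    simpa using hviol
  set e := q :: e' with he
  rw [mem_union]
  rcases hviol' with h3 | h3
  · left
    unfold recA
    rw [mem_image]
    have c1 : ((e.map fun p => p.1).reverse ++ (e.map fun p => p.2).reverse).IsChain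
        fun a b => adj M a b = true := by
      rw [List.isChain_append]
      refine ⟨?_, ?_, ?_⟩
      · rw [List.isChain_reverse]
        exact (chain_fst hM hj).imp fun a b hab => hM.symm _ _ hab
      · rw [List.isChain_reverse]
        exact (chain_snd hM hj).imp fun a b hab => hM.symm _ _ hab
      · intro x hx y hy
        rw [List.getLast?_reverse] at hx
        rw [List.head?_reverse] at hy
        have hx' : x = q.1 := by
          rw [he] at hx
          simpa using hx.symm
        have hy' : y = (lastP e).2 := by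
          unfold lastP
          rw [List.head?_reverse]
          rw [List.getLast?_map] at hy
          cases hl : e.getLast? with
          | none =>
            rw [hl] at hy
            simp at hy
          | some z =>
            rw [hl] at hy
            simpa using hy.symm
        rw [hx', hy']
        exact h3
    have c2 := Ch.mem_thru (nb := nb M) (fun a b => mem_nb hM) (fun a b => hM.symm a b) c1
      (v := v.val) (by
        unfold verts at hve
        rw [List.mem_append] at hve ⊢
        rw [List.mem_reverse, List.mem_reverse]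
        exact hve)
    have c3 : ((e.map fun p => p.1).reverse ++ (e.map fun p => p.2).reverse).length =
        2 * e.length := by
      simp
      omega
    rw [c3] at c2
    refine ⟨_, c2, ?_⟩
    have c4 : ((e.map fun p => p.1).reverse ++ (e.map fun p => p.2).reverse).take e.length =
        (e.map fun p => p.1).reverse := by
      rw [List.take_append_of_le_length (by simp), List.take_of_length_le (by simp)]
    have c5 : ((e.map fun p => p.1).reverse ++ (e.map fun p => p.2).reverse).drop e.length =
        (e.map fun p => p.2).reverse := by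
      rw [List.drop_append, List.drop_of_length_le (by simp)]
      simp
    rw [c4, c5, List.reverse_reverse, List.reverse_reverse]
    rw [List.zip_map']
    simp
  · right
    rw [if_pos h3]
    unfold recB
    rw [mem_image]
    refine ⟨(e.map fun p => p.1, e.map fun p => p.2), ?_, by rw [List.zip_map']; simp⟩
    have hx1 : ∀ x ∈ e.map fun p => p.1, x < M.length := by
      intro x hx
      rw [List.mem_map] at hx
      obtain ⟨p, hp, rfl⟩ := hx
      exact (hlt p hp).1
    have hx2 : ∀ x ∈ e.map fun p => p.2, x < M.length := by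
      intro x hx
      rw [List.mem_map] at hx
      obtain ⟨p, hp, rfl⟩ := hx
      exact (hlt p hp).2
    have hne1 : (e.map fun p => p.1) ≠ [] := by rw [he]; simp
    have hne2 : (e.map fun p => p.2) ≠ [] := by rw [he]; simp
    have a1 := Ch.mem_allc (nb := nb M) (fun a b => mem_nb hM) (chain_fst hM hj) hne1 hx1
    have a2 := Ch.mem_allc (nb := nb M) (fun a b => mem_nb hM) (chain_snd hM hj) hne2 hx2
    rw [List.length_map] at a1 a2
    unfold verts at hve
    rw [List.mem_append] at hve
    rw [mem_union, mem_product, mem_product]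
    rcases hve with hve | hve
    · left
      have := Ch.mem_thru (nb := nb M) (fun a b => mem_nb hM) (fun a b => hM.symm a b)
        (chain_fst hM hj) hve
      rw [List.length_map] at this
      exact ⟨this, a2⟩
    · right
      have := Ch.mem_thru (nb := nb M) (fun a b => mem_nb hM) (fun a b => hM.symm a b)
        (chain_snd hM hj) hve
      rw [List.length_map] at this
      exact ⟨a1, this⟩

/-! ### Their total weight -/

theorem card_recJ_le (hM : Sym M d) {n : ℕ} (v : Fin n) (j : ℕ) :
    (recJ M v j).card ≤ 2 * j * d ^ (2 * j - 1) +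
      if j = Lp M.length then 2 * (j * M.length * (d ^ (j - 1) * d ^ (j - 1))) else 0 := by
  unfold recJ
  refine (card_filter_le _ _).trans ((card_union_le _ _).trans (Nat.add_le_add ?_ ?_))
  · unfold recA
    exact card_image_le.trans (Ch.card_thru hM.deg _ _)
  · split_ifs
    · unfold recB
      refine card_image_le.trans ((card_union_le _ _).trans ?_)
      rw [card_product, card_product]
      have h1 := Ch.card_thru hM.deg v j
      have h2 := Ch.card_allc hM.deg M.length j
      have h3 := Nat.mul_le_mul h1 h2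
      calc _ ≤ j * d ^ (j - 1) * (M.length * d ^ (j - 1)) +
            j * d ^ (j - 1) * (M.length * d ^ (j - 1)) := by
            refine Nat.add_le_add h3 ?_
            rw [mul_comm]
            exact h3
        _ = _ := by ring
    · simp

theorem lt_two_pow_Lp (n : ℕ) : n ≤ 2 ^ Lp n := by
  unfold Lp
  have h1 := Nat.lt_size_self n
  have h2 : 2 ^ n.size ≤ 2 ^ (n.size + 2) := Nat.pow_le_pow_right (by norm_num) (by omega)
  omega

theorem two_mul_le_two_pow : ∀ j : ℕ, 1 ≤ j → 2 * j ≤ 2 ^ j
  | 0, h => by omega
  | 1, _ => by norm_num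
  | j + 2, _ => by
    have := two_mul_le_two_pow (j + 1) (by omega)
    rw [pow_succ]
    omega

theorem wt_term {k : ℕ} (hk : 64 * (d * d) < k) {j a : ℕ} (h1 : 1 ≤ a) (ha : a ≤ 2 * j) :
    (d : ℝ) ^ a * ((2 : ℝ) / k) ^ j ≤ (1 / 32) ^ j := by
  rcases Nat.eq_zero_or_pos d with rfl | hd
  · rw [Nat.cast_zero, zero_pow (by omega), zero_mul]
    positivity
  · have hd' : (1 : ℝ) ≤ d := by exact_mod_cast hd
    have hk' : 64 * ((d : ℝ) * d) < k := by exact_mod_cast hk
    have hk0 : (0 : ℝ) < k := by nlinarith
    have h2 : (d : ℝ) ^ a ≤ ((d : ℝ) ^ 2) ^ j := by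
      rw [← pow_mul]
      exact pow_le_pow_right₀ hd' ha
    calc (d : ℝ) ^ a * ((2 : ℝ) / k) ^ j ≤ ((d : ℝ) ^ 2) ^ j * ((2 : ℝ) / k) ^ j :=
          mul_le_mul_of_nonneg_right h2 (by positivity)
      _ = ((d : ℝ) ^ 2 * (2 / k)) ^ j := by rw [mul_pow]
      _ ≤ (1 / 32) ^ j := by
          apply pow_le_pow_left₀ (by positivity)
          rw [mul_div_assoc', div_le_div_iff₀ hk0 (by norm_num)]
          nlinarith

theorem wt_recR (hM : Sym M d) {k : ℕ} (hk : 64 * (d * d) < k) {n : ℕ} (v : Fin n) :
    ∑ e ∈ recR M v, ((2 : ℝ) / k) ^ (sideF e v).card ≤ 1 / 2 := by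
  unfold recR
  have hdisj : ∀ x ∈ Icc 1 (Lp M.length), ∀ y ∈ Icc 1 (Lp M.length), x ≠ y →
      Disjoint (recJ M v x) (recJ M v y) := by
    intro x _ y _ hxy
    rw [disjoint_left]
    intro e h1 h2
    unfold recJ at h1 h2
    rw [mem_filter] at h1 h2
    exact hxy (h1.2.symm.trans h2.2)
  rw [sum_biUnion hdisj]
  have h1 : ∀ j ∈ Icc 1 (Lp M.length), ∑ e ∈ recJ M v j, ((2 : ℝ) / k) ^ (sideF e v).card ≤
      (1 / 16) ^ j + if j = Lp M.length then (1 / 8) ^ j else 0 := by
    intro j hj
    rw [mem_Icc] at hj
    have e1 : ∀ e ∈ recJ M v j, ((2 : ℝ) / k) ^ (sideF e v).card = (2 / k) ^ j := by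
      intro e he
      unfold recJ at he
      rw [mem_filter] at he
      rw [he.2]
    rw [sum_congr rfl e1, sum_const, nsmul_eq_mul]
    have e2 : ((recJ M v j).card : ℝ) ≤ 2 * j * (d : ℝ) ^ (2 * j - 1) +
        if j = Lp M.length then 2 * (j * M.length * (d : ℝ) ^ (2 * j - 2)) else 0 := by
      have := card_recJ_le hM v j
      have h3 : ((recJ M v j).card : ℝ) ≤ ((2 * j * d ^ (2 * j - 1) +
        if j = Lp M.length then 2 * (j * M.length * (d ^ (j - 1) * d ^ (j - 1))) else 0 : ℕ) : ℝ) := by
        exact_mod_cast this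
      refine h3.trans (le_of_eq ?_)
      push_cast
      congr 1
      split_ifs
      · rw [← pow_add]
        have : j - 1 + (j - 1) = 2 * j - 2 := by omega
        rw [this]
      · rfl
    have hkp : (0 : ℝ) ≤ (2 / k) ^ j := by positivity
    refine (mul_le_mul_of_nonneg_right e2 hkp).trans ?_
    rw [add_mul]
    have e3 : (2 * (j : ℝ)) ≤ 2 ^ j := by exact_mod_cast two_mul_le_two_pow j hj.1
    refine add_le_add ?_ ?_
    · have e4 := wt_term hk (j := j) (a := 2 * j - 1) (by omega) (by omega)
      calc 2 * (j : ℝ) * (d : ℝ) ^ (2 * j - 1) * (2 / k) ^ j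
          = 2 * (j : ℝ) * ((d : ℝ) ^ (2 * j - 1) * (2 / k) ^ j) := by ring
        _ ≤ 2 ^ j * (1 / 32) ^ j := mul_le_mul e3 e4 (by positivity) (by positivity)
        _ = (1 / 16) ^ j := by rw [← mul_pow]; norm_num
    · split_ifs with hL
      · have hj2 : 2 ≤ j := by
          rw [hL]
          unfold Lp
          omega
        have e4 := wt_term hk (j := j) (a := 2 * j - 2) (by omega) (by omega)
        have e5 : (M.length : ℝ) ≤ 2 ^ j := by
          rw [hL]
          exact_mod_cast lt_two_pow_Lp M.length
        calc 2 * ((j : ℝ) * M.length * (d : ℝ) ^ (2 * j - 2)) * (2 / k) ^ j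
            = (2 * (j : ℝ)) * M.length * ((d : ℝ) ^ (2 * j - 2) * (2 / k) ^ j) := by ring
          _ ≤ 2 ^ j * 2 ^ j * (1 / 32) ^ j := by
              refine mul_le_mul (mul_le_mul e3 e5 (by positivity) (by positivity)) e4
                (by positivity) (by positivity)
          _ = (1 / 8) ^ j := by rw [← mul_pow, ← mul_pow]; norm_num
      · rw [zero_mul]
  refine (sum_le_sum h1).trans ?_
  rw [sum_add_distrib]
  have e1 : ∀ L : ℕ, ∑ j ∈ Icc 1 L, ((1 : ℝ) / 16) ^ j ≤ 1 / 15 - (1 / 15) * (1 / 16) ^ L := by
    intro L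
    induction L with
    | zero => simp
    | succ L ih =>
      rw [sum_Icc_succ_top (by omega), pow_succ]
      linarith
  have e2 := e1 (Lp M.length)
  have e3 : (0 : ℝ) ≤ (1 / 16) ^ Lp M.length := by positivity
  have hL2 : 2 ≤ Lp M.length := by
    unfold Lp
    omega
  have e4 : ∑ j ∈ Icc 1 (Lp M.length), (if j = Lp M.length then ((1 : ℝ) / 8) ^ j else 0) ≤
      1 / 64 := by
    rw [sum_ite_eq' (Icc 1 (Lp M.length))]
    split_ifs
    · calc ((1 : ℝ) / 8) ^ Lp M.length ≤ (1 / 8) ^ 2 :=
            pow_le_pow_of_le_one (by norm_num) (by norm_num) hL2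
        _ = 1 / 64 := by norm_num
    · norm_num
  linarith

end Pool.Agent.NPC.H56N
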