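import Pool.Agent.H56N.PolyTime

/-!
# Correctness of the search
-/

set_option autoImplicit false

namespace Pool.Agent.NPC.H56N

/-- The lists of pairs which can be built. -/
def Valid (M : Mat) (s : List (Option ℕ)) (h : List ℕ) : Ent → Prop
  | [] => True
  | p :: e => (p.1 < M.length ∧ p.2 < M.length) ∧ ok M s h e p = true ∧ Valid M s h e

variable {M : Mat} {s : List (Option ℕ)} {h : List ℕ}

/-! ### Removal of duplicates -/

theorem ded_cons (n : ℕ) (h : List ℕ) (a : Ent) (l : List Ent) :
    ded n h (a :: l) = bif decide (key n h a ∈ (ded n h l).map (key n h)) then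
      ded n h l else a :: ded n h l := rfl

theorem exists_mem_ded {n : ℕ} {h : List ℕ} : ∀ {l : List Ent} {e : Ent}, e ∈ l →
    ∃ e' ∈ ded n h l, key n h e' = key n h e
  | [], e, he => absurd he (by simp)
  | a :: l, e, he => by
    rw [ded_cons]
    by_cases hb : key n h a ∈ (ded n h l).map (key n h)
    · simp only [hb, decide_true, cond_true]
      rcases List.mem_cons.1 he with rfl | he
      · rw [List.mem_map] at hb
        exact hb
      · exact exists_mem_ded he
    · simp only [hb, decide_false, cond_false]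
      rcases List.mem_cons.1 he with rfl | he
      · exact ⟨e, by simp, rfl⟩
      · obtain ⟨e', h1, h2⟩ := exists_mem_ded (n := n) (h := h) he
        exact ⟨e', by simp [h1], h2⟩

theorem nodup_ded (n : ℕ) (h : List ℕ) : ∀ l : List Ent, ((ded n h l).map (key n h)).Nodup
  | [] => by simp [ded]
  | a :: l => by
    rw [ded_cons]
    by_cases hb : key n h a ∈ (ded n h l).map (key n h)
    · simp only [hb, decide_true, cond_true]
      exact nodup_ded n h l
    · have : (bif decide (key n h a ∈ (ded n h l).map (key n h)) then ded n h l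
          else a :: ded n h l) = a :: ded n h l := by rw [decide_eq_false hb]; rfl
      rw [this, List.map_cons, List.nodup_cons]
      exact ⟨hb, nodup_ded n h l⟩

theorem two_pow_Lp (n : ℕ) : 2 ^ Lp n ≤ 8 * (n + 1) := by
  unfold Lp
  rw [pow_add]
  rcases Nat.eq_zero_or_pos n with rfl | hn
  · simp
  · have h1 : 2 ^ (n.size - 1) ≤ n := by
      have h2 : 0 < n.size := Nat.size_pos.2 hn
      exact Nat.lt_size.1 (by omega)
    have h3 : 2 ^ n.size = 2 ^ (n.size - 1) * 2 := by
      rw [← pow_succ]
      congr 1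
      have h2 : 0 < n.size := Nat.size_pos.2 hn
      omega
    rw [h3]
    omega

theorem lastP_mem {e : Ent} (he : e ≠ []) : lastP e ∈ e := by
  unfold lastP
  cases h : e.reverse with
  | nil => exact absurd (List.reverse_eq_nil_iff.1 h) he
  | cons a l =>
    simp only [List.head?_cons, Option.getD_some]
    rw [← List.mem_reverse, h]
    exact List.mem_cons_self

theorem length_ded_le {n : ℕ} {h : List ℕ} {l : List Ent}
    (hl : ∀ e ∈ l, e ≠ [] ∧ ∀ p ∈ e, p.1 < n ∧ p.2 < n) : (ded n h l).length ≤ cap n := by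
  classical
  set K : Finset (((ℕ × ℕ) × ℕ) × List Bool) :=
    (Finset.univ : Finset ((Fin n × Fin n × Fin n) × (Fin (8 * Lp n) → Bool))).image
      (fun x => (((x.1.1.val, x.1.2.1.val), x.1.2.2.val), List.ofFn x.2)) with hK
  have h1 : ((ded n h l).map (key n h)).toFinset ⊆ K := by
    intro x hx
    rw [List.mem_toFinset, List.mem_map] at hx
    obtain ⟨e, he, rfl⟩ := hx
    obtain ⟨h2, h3⟩ := hl e (mem_ded he)
    have h4 := h3 _ (lastP_mem h2)
    obtain ⟨p, e₀, rfl⟩ : ∃ p e₀, e = p :: e₀ := List.exists_cons_of_ne_nil h2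
    have h5 := h3 p (by simp)
    rw [hK, Finset.mem_image]
    refine ⟨((⟨p.1, h5.1⟩, ⟨p.2, h5.2⟩, ⟨(lastP (p :: e₀)).2, h4.2⟩),
      fun i => decide (i.val ∈ labs h (p :: e₀))), Finset.mem_univ _, ?_⟩
    unfold key
    simp only [List.head?_cons, Option.getD_some]
    congr 1
    apply List.ext_getElem
    · simp
    · intro i h6 h7
      simp
  have h2 := Finset.card_le_card h1
  rw [List.toFinset_card_of_nodup (nodup_ded n h l), List.length_map] at h2
  refine h2.trans (Finset.card_image_le.trans ?_)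
  simp only [Finset.card_univ, Fintype.card_prod, Fintype.card_fin, Fintype.card_fun,
    Fintype.card_bool]
  have h3 : 2 ^ (8 * Lp n) ≤ (8 * (n + 1)) ^ 8 := by
    rw [mul_comm, pow_mul]
    exact Nat.pow_le_pow_left (two_pow_Lp n) 8
  have h4 : n * (n * n) ≤ (8 * (n + 1)) ^ 3 := by
    have : n ≤ 8 * (n + 1) := by omega
    calc n * (n * n) = n ^ 3 := by ring
      _ ≤ _ := Nat.pow_le_pow_left this 3
  calc n * (n * n) * 2 ^ (8 * Lp n) ≤ (8 * (n + 1)) ^ 3 * (8 * (n + 1)) ^ 8 :=
      Nat.mul_le_mul h4 h3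
    _ = cap n := by
      unfold cap
      rw [← pow_add]

/-! ### One round -/

theorem labs_cons (h : List ℕ) (p : ℕ × ℕ) (e : Ent) :
    labs h (p :: e) = lab h p.1 :: lab h p.2 :: labs h e := rfl

theorem lastP_cons {p : ℕ × ℕ} {e : Ent} (he : e ≠ []) : lastP (p :: e) = lastP e := by
  unfold lastP
  rw [List.reverse_cons]
  cases h : e.reverse with
  | nil => exact absurd (List.reverse_eq_nil_iff.1 h) he
  | cons a l => rfl

/-- The sets of labels in the keys. -/
theorem mem_labs_of_key {n : ℕ} {h : List ℕ} {e e' : Ent} (hk : key n h e = key n h e') {l : ℕ}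
    (hl : l < 8 * Lp n) : l ∈ labs h e ↔ l ∈ labs h e' := by
  have h1 : (List.range (8 * Lp n)).map (fun l => decide (l ∈ labs h e)) =
      (List.range (8 * Lp n)).map (fun l => decide (l ∈ labs h e')) := congrArg Prod.snd hk
  rw [List.map_inj_left] at h1
  have h2 := h1 l (List.mem_range.2 hl)
  simpa using h2

theorem head_of_key {n : ℕ} {h : List ℕ} {p p' : ℕ × ℕ} {e e' : Ent}
    (hk : key n h (p :: e) = key n h (p' :: e')) : p = p' := by
  have := congrArg (fun x => x.1.1) hk
  simpa [key] using this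

theorem last_of_key {n : ℕ} {h : List ℕ} {e e' : Ent}
    (hk : key n h e = key n h e') : (lastP e).2 = (lastP e').2 :=
  congrArg (fun x => x.1.2) hk

theorem ok_of_key (hh : ∀ a, lab h a < 8 * Lp M.length) {e e' : Ent} {p : ℕ × ℕ}
    (hk : key M.length h e = key M.length h e') (hl : e.length = e'.length)
    (hok : ok M s h e p = true) : ok M s h e' p = true := by
  unfold ok at hok ⊢
  simp only [Bool.and_eq_true, Bool.not_eq_true', decide_eq_false_iff_not] at hok ⊢
  obtain ⟨⟨⟨h1, h2⟩, h3⟩, h4⟩ := hok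
  refine ⟨⟨⟨h1, ?_⟩, ?_⟩, ?_⟩
  · rwa [← mem_labs_of_key hk (hh _)]
  · rwa [← mem_labs_of_key hk (hh _)]
  · cases e with
    | nil =>
      cases e' with
      | nil => exact h4
      | cons q e' => simp at hl
    | cons q e =>
      cases e' with
      | nil => simp at hl
      | cons q' e' =>
        have := head_of_key hk
        subst this
        exact h4

theorem key_cons {n : ℕ} {h : List ℕ} {e e' : Ent} (p : ℕ × ℕ) (hk : key n h e = key n h e')
    (hl : e.length = e'.length) : key n h (p :: e) = key n h (p :: e') := by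
  unfold key
  simp only [List.head?_cons, Option.getD_some]
  congr 1
  · congr 1
    cases e with
    | nil =>
      cases e' with
      | nil => rfl
      | cons q e' => simp at hl
    | cons q e =>
      cases e' with
      | nil => simp at hl
      | cons q' e' =>
        rw [lastP_cons (e := q :: e) (by simp), lastP_cons (e := q' :: e') (by simp)]
        exact last_of_key hk
  · rw [List.map_inj_left]
    intro l hl'
    rw [List.mem_range] at hl'
    simp only [labs_cons, List.mem_cons, mem_labs_of_key hk hl']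

theorem mem_ext {E : List Ent} {e : Ent} (he : e ∈ ext M s h E) :
    ∃ e₀ ∈ E, ∃ p, (p.1 < M.length ∧ p.2 < M.length) ∧ ok M s h e₀ p = true ∧ p :: e₀ = e :=
  mem_cands.1 (mem_ded (List.mem_of_mem_take he))

theorem exists_mem_ext {E : List Ent} (hE : ∀ e ∈ E, ∀ p ∈ e, p.1 < M.length ∧ p.2 < M.length)
    {e₀ : Ent} (he : e₀ ∈ E) {p : ℕ × ℕ} (hp : p.1 < M.length ∧ p.2 < M.length)
    (hok : ok M s h e₀ p = true) :
    ∃ e ∈ ext M s h E, key M.length h e = key M.length h (p :: e₀) := by
  have h1 : p :: e₀ ∈ cands M s h E := mem_cands.2 ⟨e₀, he, p, hp, hok, rfl⟩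
  obtain ⟨e, h2, h3⟩ := exists_mem_ded (n := M.length) (h := h) h1
  refine ⟨e, ?_, h3⟩
  unfold ext
  rw [List.take_of_length_le]
  · exact h2
  · refine length_ded_le fun e' he' => ?_
    obtain ⟨e₁, h4, q, h5, -, rfl⟩ := mem_cands.1 he'
    refine ⟨by simp, fun x hx => ?_⟩
    rcases List.mem_cons.1 hx with rfl | hx
    · exact h5
    · exact hE e₁ h4 x hx

/-! ### All rounds -/

theorem valid_lt {e : Ent} (he : Valid M s h e) : ∀ p ∈ e, p.1 < M.length ∧ p.2 < M.length := by
  induction e with
  | nil => simp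
  | cons p e ih =>
    intro q hq
    rcases List.mem_cons.1 hq with rfl | hq
    · exact he.1
    · exact ih he.2.2 q hq

theorem iter_valid : ∀ (k : ℕ), ∀ e ∈ (ext M s h)^[k] [[]], Valid M s h e ∧ e.length = k
  | 0 => by
    intro e he
    simp at he
    subst he
    exact ⟨trivial, rfl⟩
  | k + 1 => by
    intro e he
    rw [Function.iterate_succ_apply'] at he
    obtain ⟨e₀, h1, p, h2, h3, rfl⟩ := mem_ext he
    obtain ⟨h4, h5⟩ := iter_valid k e₀ h1
    exact ⟨⟨h2, h3, h4⟩, by simp [h5]⟩

theorem iter_complete (hh : ∀ a, lab h a < 8 * Lp M.length) : ∀ (e : Ent), Valid M s h e →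
    ∃ e' ∈ (ext M s h)^[e.length] [[]], key M.length h e' = key M.length h e
  | [], _ => ⟨[], by simp, rfl⟩
  | p :: e, hv => by
    obtain ⟨e', h1, h2⟩ := iter_complete hh e hv.2.2
    have h3 := (iter_valid _ e' h1).2
    have h4 := ok_of_key hh h2.symm h3.symm hv.2.1
    obtain ⟨e'', h5, h6⟩ := exists_mem_ext (fun x hx => valid_lt (iter_valid _ x hx).1) h1 hv.1 h4
    refine ⟨e'', ?_, h6.trans (key_cons p h2 h3)⟩
    rw [List.length_cons, Function.iterate_succ_apply']
    exact h5

theorem extA_iter (k : ℕ) : ((extA M s h)^[k] ([[]], [])).1 = (ext M s h)^[k] [[]] ∧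
    ∀ e, e ∈ ((extA M s h)^[k] ([[]], [])).2 ↔
      ∃ i, 1 ≤ i ∧ i ≤ k ∧ e ∈ (ext M s h)^[i] [[]] := by
  induction k with
  | zero =>
    refine ⟨rfl, fun e => ?_⟩
    constructor
    · intro h1
      simp at h1
    · rintro ⟨i, h1, h2, _⟩
      omega
  | succ k ih =>
    obtain ⟨ih1, ih2⟩ := ih
    rw [Function.iterate_succ_apply', Function.iterate_succ_apply']
    refine ⟨?_, fun e => ?_⟩
    · change ext M s h ((extA M s h)^[k] ([[]], [])).1 = _
      rw [ih1]
    · change e ∈ ext M s h ((extA M s h)^[k] ([[]], [])).1 ++ ((extA M s h)^[k] ([[]], [])).2 ↔ _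
      rw [List.mem_append, ih2, ih1]
      constructor
      · rintro (h1 | ⟨i, h1, h2, h3⟩)
        · exact ⟨k + 1, by omega, le_rfl, by rwa [Function.iterate_succ_apply']⟩
        · exact ⟨i, h1, by omega, h3⟩
      · rintro ⟨i, h1, h2, h3⟩
        rcases Nat.lt_or_ge k i with h4 | h4
        · have : i = k + 1 := by omega
          subst this
          rw [Function.iterate_succ_apply'] at h3
          exact Or.inl h3
        · exact Or.inr ⟨i, h1, h4, h3⟩

theorem viol_of_key {e e' : Ent} (hk : key M.length h e = key M.length h e')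
    (hl : e.length = e'.length) : viol M e = viol M e' := by
  cases e with
  | nil =>
    cases e' with
    | nil => rfl
    | cons q e' => simp at hl
  | cons q e =>
    cases e' with
    | nil => simp at hl
    | cons q' e' =>
      have h1 := head_of_key hk
      subst h1
      have h2 := last_of_key hk
      unfold viol
      simp only [List.head?_cons]
      rw [h2, hl]

theorem find_some {H : List (List ℕ)} {e : Ent} (he : find M H s = some e) :
    ∃ h ∈ H, Valid M s h e ∧ 1 ≤ e.length ∧ e.length ≤ Lp M.length ∧ viol M e = true := by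
  unfold find at he
  have h1 := List.mem_of_head? he
  rw [List.mem_flatMap] at h1
  obtain ⟨h, h2, h3⟩ := h1
  rw [List.mem_filter] at h3
  unfold levels at h3
  rw [(extA_iter _).2] at h3
  obtain ⟨⟨i, h4, h5, h6⟩, h7⟩ := h3
  obtain ⟨h8, h9⟩ := iter_valid i e h6
  exact ⟨h, h2, h8, by omega, by omega, h7⟩

theorem find_none {H : List (List ℕ)} (he : find M H s = none) (hH : ∀ h ∈ H, ∀ a,
    lab h a < 8 * Lp M.length) : ∀ h ∈ H, ∀ e, Valid M s h e → 1 ≤ e.length →
    e.length ≤ Lp M.length → viol M e = false := by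
  intro h hh e hv h1 h2
  by_contra hne
  obtain ⟨e', h3, h4⟩ := iter_complete (hH h hh) e hv
  have h5 := (iter_valid _ e' h3).2
  have h6 : viol M e' = true := by
    rw [viol_of_key h4 h5]
    simpa using hne
  unfold find at he
  rw [List.head?_eq_none_iff, List.flatMap_eq_nil_iff] at he
  have h7 := he h hh
  rw [List.filter_eq_nil_iff] at h7
  refine h7 e' ?_ h6
  unfold levels
  rw [(extA_iter _).2]
  exact ⟨e.length, h1, h2, h3⟩

end Pool.Agent.NPC.H56N
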